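import Mathlib
import Pool.Agent.H84.Continuation

/-!
# A test with square-zero algebras for the Jacobian condition
-/

set_option autoImplicit false

namespace Pool.Agent.H86.Refl

open MvPolynomial Pool.Agent.H6 Pool.Agent.H84

/-- If in every algebra the system has no nonzero solution with pairwise products zero and with
parameter zero, then the Jacobian condition of `countable_bad` holds. -/
lemma jac_of_test {M : ℕ} (E : Fin M → MvPolynomial (Option (Fin M)) ℂ)
    (h : ∀ (S : Type) [CommRing S] [Algebra ℂ S]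
      (ψ : MvPolynomial (Option (Fin M)) ℂ →ₐ[ℂ] S), ψ (X none) = 0 →
      (∀ i j, ψ (X (some i)) * ψ (X (some j)) = 0) → (∀ i, ψ (E i) = 0) →
      ∀ i, ψ (X (some i)) = 0) :
    (vanishingIdeal ℂ {(0 : Option (Fin M) → ℂ)} :
        Ideal (MvPolynomial (Option (Fin M)) ℂ)) ≤
      (Ideal.span (Set.range E) ⊔ Ideal.span {X none}) ⊔
        (vanishingIdeal ℂ {(0 : Option (Fin M) → ℂ)} :
          Ideal (MvPolynomial (Option (Fin M)) ℂ)) • (vanishingIdeal ℂ
            {(0 : Option (Fin M) → ℂ)} : Ideal (MvPolynomial (Option (Fin M)) ℂ)) := by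
  classical
  set 𝔪 : Ideal (MvPolynomial (Option (Fin M)) ℂ) := vanishingIdeal ℂ {(0 : Option (Fin M) → ℂ)} with h𝔪
  have hmem : ∀ P : MvPolynomial (Option (Fin M)) ℂ, P ∈ 𝔪 ↔ eval 0 P = 0 := by
    intro P
    rw [h𝔪, mem_vanishingIdeal_singleton_iff]
    rfl
  set J : Ideal (MvPolynomial (Option (Fin M)) ℂ) := (Ideal.span (Set.range E) ⊔ Ideal.span {X none}) ⊔ 𝔪 • 𝔪 with hJ
  let ψ : MvPolynomial (Option (Fin M)) ℂ →ₐ[ℂ] (MvPolynomial (Option (Fin M)) ℂ ⧸ J) := Ideal.Quotient.mkₐ ℂ J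
  have hψ : ∀ a : MvPolynomial (Option (Fin M)) ℂ, ψ a = 0 ↔ a ∈ J := fun a => Ideal.Quotient.eq_zero_iff_mem
  have hE : ∀ i : Fin M, ψ (E i) = 0 := by
    intro i
    rw [hψ]
    exact Ideal.mem_sup_left (Ideal.mem_sup_left (Ideal.subset_span ⟨i, rfl⟩))
  have hs : ψ (X none) = 0 := by
    rw [hψ]
    exact Ideal.mem_sup_left (Ideal.mem_sup_right (Ideal.subset_span rfl))
  have hYmem : ∀ i : Fin M, (X (some i) : MvPolynomial (Option (Fin M)) ℂ) ∈ 𝔪 := by
    intro i
    rw [hmem]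
    simp
  have hYY : ∀ i j : Fin M, ψ (X (some i)) * ψ (X (some j)) = 0 := by
    intro i j
    rw [← map_mul, hψ]
    exact Ideal.mem_sup_right (Submodule.smul_mem_smul (hYmem i) (hYmem j))
  have hY := h (MvPolynomial (Option (Fin M)) ℂ ⧸ J) ψ hs hYY hE
  intro P hP
  have hP0 := (hmem P).mp hP
  have hspan : P ∈ Ideal.span (X '' (Set.univ : Set (Option (Fin M))) :
      Set (MvPolynomial (Option (Fin M)) ℂ)) := by
    rw [MvPolynomial.mem_ideal_span_X_image]
    intro d hd
    by_contra hcon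
    push Not at hcon
    have hd0 : d = 0 := by
      ext i
      exact hcon i (Set.mem_univ i)
    rw [hd0, mem_support_iff] at hd
    apply hd
    rw [← constantCoeff_eq, ← hP0]
    simp [constantCoeff_eq]
  refine Ideal.span_le.mpr ?_ hspan
  rintro _ ⟨i, -, rfl⟩
  rcases i with _ | i
  · exact (hψ _).mp hs
  · exact (hψ _).mp (hY i)

end Pool.Agent.H86.Refl
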