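import Mathlib

/-!
# Polynomials invariant under a reflection of the last coordinate

Weights `1, …, 1, r` on the variables `x_0, …, x_n`, and the polynomial `lower r G` in
`x_0, …, x_(n-1), x_n ^ r`.
-/

set_option autoImplicit false

namespace Pool.Agent.H86.Refl

open MvPolynomial

/-- The weights: `r` for the last variable and `1` for the others. -/
def wt (n r : ℕ) (i : Fin (n + 1)) : ℕ := if i = Fin.last n then r else 1

lemma wt_last (n r : ℕ) : wt n r (Fin.last n) = r := if_pos rfl

lemma wt_castSucc (n r : ℕ) (i : Fin n) : wt n r i.castSucc = 1 :=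
  if_neg (Fin.castSucc_lt_last i).ne

lemma natDegree_aeval_le {R : Type*} [CommRing R] [Algebra ℂ R] {n r e k : ℕ}
    {F : MvPolynomial (Fin (n + 1)) ℂ} (hF : F.IsWeightedHomogeneous (wt n r) e)
    (X : Fin (n + 1) → Polynomial R) (hX : ∀ i, (X i).natDegree ≤ k * wt n r i) :
    (aeval X F).natDegree ≤ k * e := by
  rw [aeval_def, eval₂_eq']
  apply Polynomial.natDegree_sum_le_of_forall_le
  intro d hd
  refine Polynomial.natDegree_mul_le.trans ?_
  rw [Polynomial.algebraMap_apply, Polynomial.natDegree_C, zero_add]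
  refine (Polynomial.natDegree_prod_le _ _).trans ?_
  have h1 : ∑ i, d i * wt n r i = e := by
    have := hF (mem_support_iff.mp hd)
    rw [← this, Finsupp.weight_apply, Finsupp.sum_fintype]
    · simp
    · simp
  rw [← h1, Finset.mul_sum]
  refine Finset.sum_le_sum fun i _ => ?_
  refine Polynomial.natDegree_pow_le.trans ?_
  calc d i * (X i).natDegree ≤ d i * (k * wt n r i) := Nat.mul_le_mul_left _ (hX i)
    _ = k * (d i * wt n r i) := by ring

lemma eval_scale {n r e : ℕ} {F : MvPolynomial (Fin (n + 1)) ℂ}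
    (hF : F.IsWeightedHomogeneous (wt n r) e) (l : ℂ) (x : Fin (n + 1) → ℂ) :
    eval (fun i => l ^ wt n r i * x i) F = l ^ e * eval x F := by
  rw [eval_eq', eval_eq', Finset.mul_sum]
  apply Finset.sum_congr rfl
  intro d hd
  have h1 : ∑ i, d i * wt n r i = e := by
    have := hF (mem_support_iff.mp hd)
    rw [← this, Finsupp.weight_apply, Finsupp.sum_fintype]
    · simp
    · simp
  have h2 : ∏ i, (l ^ wt n r i * x i) ^ d i = l ^ e * ∏ i, x i ^ d i := by
    simp only [mul_pow, ← pow_mul]
    rw [Finset.prod_mul_distrib, Finset.prod_pow_eq_pow_sum, ← h1]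
    simp only [mul_comm]
  rw [h2]
  ring

/-- Division of the last exponent by `r`. -/
noncomputable def qexp {n : ℕ} (r : ℕ) (d : Fin (n + 1) →₀ ℕ) : Fin (n + 1) →₀ ℕ :=
  d.update (Fin.last n) (d (Fin.last n) / r)

lemma qexp_last {n : ℕ} (r : ℕ) (d : Fin (n + 1) →₀ ℕ) :
    qexp r d (Fin.last n) = d (Fin.last n) / r := by
  simp [qexp]

lemma qexp_castSucc {n : ℕ} (r : ℕ) (d : Fin (n + 1) →₀ ℕ) (i : Fin n) :
    qexp r d i.castSucc = d i.castSucc := by
  simp [qexp, (Fin.castSucc_lt_last i).ne]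

/-- The polynomial obtained by dividing the exponents of the last variable by `r`. -/
noncomputable def lower {n : ℕ} (r : ℕ) (G : MvPolynomial (Fin (n + 1)) ℂ) :
    MvPolynomial (Fin (n + 1)) ℂ :=
  ∑ d ∈ G.support, monomial (qexp r d) (coeff d G)

lemma aeval_lower {R : Type*} [CommRing R] [Algebra ℂ R] {n r : ℕ}
    {G : MvPolynomial (Fin (n + 1)) ℂ} (hG : ∀ d ∈ G.support, r ∣ d (Fin.last n))
    (x : Fin n → R) (w : R) :
    aeval (Fin.snoc x (w ^ r) : Fin (n + 1) → R) (lower r G) =
      aeval (Fin.snoc x w : Fin (n + 1) → R) G := by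
  rw [lower, map_sum]
  conv_rhs => rw [G.as_sum, map_sum]
  apply Finset.sum_congr rfl
  intro d hd
  rw [aeval_monomial, aeval_monomial]
  congr 1
  rw [Finsupp.prod_fintype _ _ (by simp), Finsupp.prod_fintype _ _ (by simp),
    Fin.prod_univ_castSucc, Fin.prod_univ_castSucc]
  simp only [Fin.snoc_castSucc, Fin.snoc_last, qexp_castSucc, qexp_last]
  rw [← pow_mul, Nat.mul_div_cancel' (hG d hd)]

lemma isWeightedHomogeneous_lower {n r e : ℕ} {G : MvPolynomial (Fin (n + 1)) ℂ}
    (hG : ∀ d ∈ G.support, r ∣ d (Fin.last n)) (hGe : G.IsHomogeneous e) :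
    (lower r G).IsWeightedHomogeneous (wt n r) e := by
  rw [← mem_weightedHomogeneousSubmodule, lower]
  apply Submodule.sum_mem
  intro d hd
  rw [mem_weightedHomogeneousSubmodule]
  apply isWeightedHomogeneous_monomial
  have h1 : ∑ i, d i = e := by
    have := hGe (mem_support_iff.mp hd)
    rw [← this, Finsupp.weight_apply, Finsupp.sum_fintype]
    · simp
    · simp
  rw [Finsupp.weight_apply, Finsupp.sum_fintype _ _ (by simp), Fin.sum_univ_castSucc]
  simp only [qexp_castSucc, qexp_last, wt_castSucc, wt_last, smul_eq_mul, mul_one]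
  rw [Nat.div_mul_cancel (hG d hd), ← h1, Fin.sum_univ_castSucc]

/-- The reflection `x_n ↦ ζ x_n`. -/
def reflect {N : ℕ} (ζ : ℂ) (x : Fin (N + 1) → ℂ) : Fin (N + 1) → ℂ :=
  Function.update x (Fin.last N) (ζ * x (Fin.last N))

/-- The exponents of the last variable in a polynomial invariant under a reflection. -/
lemma dvd_of_invariant {N r : ℕ} {ζ : ℂ} (hζ : IsPrimitiveRoot ζ r)
    {G : MvPolynomial (Fin (N + 1)) ℂ} (hG : ∀ x, eval (reflect ζ x) G = eval x G) :
    ∀ d ∈ G.support, r ∣ d (Fin.last N) := by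
  intro d hd
  set G' : MvPolynomial (Fin (N + 1)) ℂ :=
    ∑ d ∈ G.support, monomial d (ζ ^ d (Fin.last N) * coeff d G) with hG'
  have h1 : G' = G := by
    apply MvPolynomial.funext
    intro x
    rw [← hG x, hG', map_sum, eval_eq' (reflect ζ x) G]
    apply Finset.sum_congr rfl
    intro d _
    rw [eval_monomial, Finsupp.prod_fintype _ _ (by simp), Fin.prod_univ_castSucc,
      Fin.prod_univ_castSucc]
    have h2 : ∀ i : Fin N, reflect ζ x i.castSucc = x i.castSucc := by
      intro i
      simp [reflect, (Fin.castSucc_lt_last i).ne]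
    have h3 : reflect ζ x (Fin.last N) = ζ * x (Fin.last N) := by simp [reflect]
    simp only [h2, h3, mul_pow]
    ring
  have h4 : coeff d G' = ζ ^ d (Fin.last N) * coeff d G := by
    rw [hG', coeff_sum]
    rw [Finset.sum_eq_single d]
    · rw [coeff_monomial, if_pos rfl]
    · intro b _ hb
      rw [coeff_monomial, if_neg hb]
    · intro h
      exact absurd hd h
  rw [h1] at h4
  have h5 : coeff d G ≠ 0 := mem_support_iff.mp hd
  have h6 : ζ ^ d (Fin.last N) = 1 := by
    have h7 : (ζ ^ d (Fin.last N) - 1) * coeff d G = 0 := by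
      rw [sub_mul, ← h4, one_mul, sub_self]
    rcases mul_eq_zero.mp h7 with h | h
    · exact sub_eq_zero.mp h
    · exact absurd h h5
  exact (hζ.pow_eq_one_iff_dvd _).mp h6

end Pool.Agent.H86.Refl
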