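import Mathlib
import Pool.Agent.H86.Refl.Basic
import Pool.Agent.H6.CommonZero

/-!
# Lines in the quotient by a reflection

Through a point of a complete intersection of total degree at most `n + r - 2` in the weighted
projective space `P(1, …, 1, r)` (with `n` variables of weight `1`) passes a curve
`x = p + t v`, `y = p_y + a_0 t + … + a_(r-1) t ^ r`.
-/

set_option autoImplicit false

namespace Pool.Agent.H86.Refl

open MvPolynomial

lemma map_aeval {σ R S : Type*} [CommRing R] [Algebra ℂ R] [CommRing S] [Algebra ℂ S]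
    (φ : R →ₐ[ℂ] S) (X : σ → Polynomial R) (F : MvPolynomial σ ℂ) :
    (aeval X F).map (φ : R →+* S) = aeval (fun i => (X i).map (φ : R →+* S)) F := by
  have h := MvPolynomial.comp_aeval_apply (R := ℂ) X (Polynomial.mapAlgHom φ) F
  rw [Polynomial.coe_mapAlgHom] at h
  exact h

lemma eval_aeval {σ : Type*} (X : σ → Polynomial ℂ) (F : MvPolynomial σ ℂ) (t : ℂ) :
    (aeval X F).eval t = eval (fun i => (X i).eval t) F := by
  have h := MvPolynomial.comp_aeval_apply (R := ℂ) X (Polynomial.aeval t) F
  rw [Polynomial.coe_aeval_eq_eval] at h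
  rw [h, MvPolynomial.aeval_def, MvPolynomial.eval, Algebra.algebraMap_self]
  rfl

/-- The data of a line in the quotient. -/
noncomputable def lineData {R : Type*} [CommRing R] {n r : ℕ} (P : Fin (n + 1) → R)
    (v : Fin n → R) (a : Fin r → R) : Fin (n + 1) → Polynomial R :=
  Fin.snoc (fun i => Polynomial.C (P i.castSucc) + Polynomial.C (v i) * Polynomial.X)
    (Polynomial.C (P (Fin.last n)) + ∑ k : Fin r, Polynomial.C (a k) *
      Polynomial.X ^ ((k : ℕ) + 1))

lemma map_lineData {R S : Type*} [CommRing R] [CommRing S] (φ : R →+* S) {n r : ℕ}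
    (P : Fin (n + 1) → R) (v : Fin n → R) (a : Fin r → R) (i : Fin (n + 1)) :
    (lineData P v a i).map φ =
      lineData (fun i => φ (P i)) (fun i => φ (v i)) (fun k => φ (a k)) i := by
  unfold lineData
  refine Fin.lastCases ?_ (fun i => ?_) i
  · simp [Polynomial.map_sum]
  · simp

lemma natDegree_lineData {R : Type*} [CommRing R] {n r : ℕ} (P : Fin (n + 1) → R)
    (v : Fin n → R) (a : Fin r → R) (i : Fin (n + 1)) :
    (lineData P v a i).natDegree ≤ 1 * wt n r i := by
  unfold lineData
  rw [one_mul]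
  refine Fin.lastCases ?_ (fun i => ?_) i
  · rw [Fin.snoc_last, wt_last]
    refine (Polynomial.natDegree_add_le _ _).trans (max_le (by simp) ?_)
    refine Polynomial.natDegree_sum_le_of_forall_le _ _ fun k _ => ?_
    refine (Polynomial.natDegree_C_mul_X_pow_le _ _).trans ?_
    have := k.2
    omega
  · rw [Fin.snoc_castSucc, wt_castSucc]
    refine (Polynomial.natDegree_add_le _ _).trans (max_le (by simp) ?_)
    exact (Polynomial.natDegree_C_mul_le _ _).trans Polynomial.natDegree_X_le

lemma eval_lineData_zero {n r : ℕ} (P : Fin (n + 1) → ℂ)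
    (v : Fin n → ℂ) (a : Fin r → ℂ) : (fun i => (lineData P v a i).eval 0) = P := by
  funext i
  unfold lineData
  refine Fin.lastCases ?_ (fun i => ?_) i
  · rw [Fin.snoc_last]
    simp [Polynomial.eval_finsetSum]
  · rw [Fin.snoc_castSucc]
    simp

/-- **Lines in the quotient.** -/
theorem exists_line_quot {n c r : ℕ} (e : Fin c → ℕ) (F : Fin c → MvPolynomial (Fin (n + 1)) ℂ)
    (hF : ∀ j, (F j).IsWeightedHomogeneous (wt n r) (e j)) (hdeg : ∑ j, e j + 2 ≤ n + r)
    (P : Fin (n + 1) → ℂ) (hP : ∀ j, eval P (F j) = 0) (ℓ : Fin n) :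
    ∃ (v : Fin n → ℂ) (a : Fin r → ℂ), v ℓ = 0 ∧ (v ≠ 0 ∨ a ≠ 0) ∧
      ∀ j, aeval (lineData P v a) (F j) = 0 := by
  classical
  let τ := Fin n ⊕ Fin r
  let D : Fin (n + 1) → Polynomial (MvPolynomial τ ℂ) :=
    lineData (fun i => C (P i)) (fun i => X (Sum.inl i)) (fun k => X (Sum.inr k))
  let H : ((Σ j : Fin c, Fin (e j)) ⊕ Unit) → MvPolynomial τ ℂ := fun s =>
    match s with
    | Sum.inl ⟨j, k⟩ => (aeval D (F j)).coeff (k + 1)
    | Sum.inr _ => X (Sum.inl ℓ)
  have hmap : ∀ (j : Fin c) (y : τ → ℂ), (aeval D (F j)).map (eval y) =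
      aeval (lineData P (fun i => y (Sum.inl i)) (fun k => y (Sum.inr k))) (F j) := by
    intro j y
    have h1 := map_aeval (aeval y : MvPolynomial τ ℂ →ₐ[ℂ] ℂ) D (F j)
    have h2 : ((aeval y : MvPolynomial τ ℂ →ₐ[ℂ] ℂ) : MvPolynomial τ ℂ →+* ℂ) = eval y := by
      ext <;> simp
    rw [h2] at h1
    rw [h1]
    congr 2
    funext i
    rw [map_lineData]
    simp
  have hH : ∀ (j : Fin c) (k : Fin (e j)) (y : τ → ℂ), eval y (H (Sum.inl ⟨j, k⟩)) =
      (aeval (lineData P (fun i => y (Sum.inl i)) (fun k => y (Sum.inr k)))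
        (F j)).coeff (k + 1) := by
    intro j k y
    rw [← hmap, Polynomial.coeff_map]
  have h0 : ∀ s, eval (0 : τ → ℂ) (H s) = 0 := by
    rintro (⟨j, k⟩ | _)
    · rw [hH]
      have h1 : lineData P (fun i => (0 : τ → ℂ) (Sum.inl i)) (fun k => (0 : τ → ℂ) (Sum.inr k)) =
          fun i => Polynomial.C (P i) := by
        funext i
        unfold lineData
        refine Fin.lastCases ?_ (fun i => ?_) i
        · simp
        · simp
      rw [h1]
      have h2 : aeval (fun i => Polynomial.C (P i)) (F j) = Polynomial.C (eval P (F j)) := by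
        apply Polynomial.funext
        intro t
        rw [eval_aeval]
        simp
      rw [h2]
      simp
    · show eval (0 : τ → ℂ) (X (Sum.inl ℓ)) = 0
      simp
  have hcard : Nat.card ((Σ j : Fin c, Fin (e j)) ⊕ Unit) < Nat.card τ := by
    simp only [Nat.card_eq_fintype_card, Fintype.card_sum, Fintype.card_sigma, Fintype.card_fin,
      Fintype.card_unit, τ]
    omega
  obtain ⟨y, hy0, hy⟩ := Pool.Agent.H6.exists_ne_zero_common_zero H h0 hcard
  refine ⟨fun i => y (Sum.inl i), fun k => y (Sum.inr k), ?_, ?_, ?_⟩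
  · have := hy (Sum.inr ())
    have h3 : eval y (X (Sum.inl ℓ)) = 0 := this
    simpa using h3
  · by_contra hcon
    push Not at hcon
    apply hy0
    funext s
    rcases s with i | k
    · exact congrFun hcon.1 i
    · exact congrFun hcon.2 k
  · intro j
    ext k
    rw [Polynomial.coeff_zero]
    rcases Nat.eq_zero_or_pos k with rfl | hk
    · rw [Polynomial.coeff_zero_eq_eval_zero, eval_aeval, eval_lineData_zero, hP]
    · by_cases hke : k ≤ e j
      · have := hy (Sum.inl ⟨j, ⟨k - 1, by omega⟩⟩)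
        rw [hH] at this
        simp only [Nat.sub_add_cancel hk] at this
        exact this
      · apply Polynomial.coeff_eq_zero_of_natDegree_lt
        refine lt_of_le_of_lt (natDegree_aeval_le (hF j) _ (natDegree_lineData _ _ _)) (by omega)

end Pool.Agent.H86.Refl
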