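import Mathlib
import Pool.Agent.H86.Refl.Basic

/-!
# Limits of conics through a point

Parametrised conics in `P(1, …, 1, 2)` through a point `P` on which a system of weighted
homogeneous functions vanishes; the existence of such a conic is a closed condition on the
system.
-/

set_option autoImplicit false

open Filter Topology

namespace Pool.Agent.H86.Refl

/-- The parametrised conic. -/
noncomputable def cx {n : ℕ} (P : Fin (n + 1) → ℂ) (α β : ℂ) (a b : Fin n → ℂ) (y : Fin 4 → ℂ)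
    (S T : ℂ) : Fin (n + 1) → ℂ :=
  Fin.snoc (fun i => P i.castSucc * (T ^ 2 + α * S * T + β * S ^ 2) + a i * S * T + b i * S ^ 2)
    (P (Fin.last n) * (T ^ 2 + α * S * T + β * S ^ 2) ^ 2 + y 0 * S * T ^ 3 +
      y 1 * S ^ 2 * T ^ 2 + y 2 * S ^ 3 * T + y 3 * S ^ 4)

lemma cx_castSucc {n : ℕ} (P : Fin (n + 1) → ℂ) (α β : ℂ) (a b : Fin n → ℂ) (y : Fin 4 → ℂ)
    (S T : ℂ) (i : Fin n) : cx P α β a b y S T i.castSucc =
      P i.castSucc * (T ^ 2 + α * S * T + β * S ^ 2) + a i * S * T + b i * S ^ 2 := by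
  unfold cx
  rw [Fin.snoc_castSucc]

lemma cx_last {n : ℕ} (P : Fin (n + 1) → ℂ) (α β : ℂ) (a b : Fin n → ℂ) (y : Fin 4 → ℂ)
    (S T : ℂ) : cx P α β a b y S T (Fin.last n) =
      P (Fin.last n) * (T ^ 2 + α * S * T + β * S ^ 2) ^ 2 + y 0 * S * T ^ 3 +
      y 1 * S ^ 2 * T ^ 2 + y 2 * S ^ 3 * T + y 3 * S ^ 4 := by
  unfold cx
  rw [Fin.snoc_last]

/-- The change of `y` under `T ↦ T + c S`. -/
def shiftY (c : ℂ) (y : Fin 4 → ℂ) : Fin 4 → ℂ :=
  ![y 0, y 1 + 3 * c * y 0, y 2 + 2 * c * y 1 + 3 * c ^ 2 * y 0,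
    y 3 + c * y 2 + c ^ 2 * y 1 + c ^ 3 * y 0]

/-- The change of `y` under `(S, T) ↦ (-S, T + α S)`. -/
def swapY (α : ℂ) (y : Fin 4 → ℂ) : Fin 4 → ℂ :=
  ![-y 0, y 1 - 3 * α * y 0, -y 2 + 2 * α * y 1 - 3 * α ^ 2 * y 0,
    y 3 - α * y 2 + α ^ 2 * y 1 - α ^ 3 * y 0]

lemma cx_shift {n : ℕ} (P : Fin (n + 1) → ℂ) (α β c : ℂ) (a b : Fin n → ℂ) (y : Fin 4 → ℂ)
    (S T : ℂ) : cx P (α + 2 * c) (β + α * c + c ^ 2) a (b + c • a) (shiftY c y) S T =
      cx P α β a b y S (T + c * S) := by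
  funext i
  refine Fin.lastCases ?_ (fun i => ?_) i
  · rw [cx_last, cx_last]
    simp [shiftY]
    ring
  · rw [cx_castSucc, cx_castSucc]
    simp only [Pi.add_apply, Pi.smul_apply, smul_eq_mul]
    ring

lemma cx_swap {n : ℕ} (P : Fin (n + 1) → ℂ) (α : ℂ) (a b : Fin n → ℂ) (y : Fin 4 → ℂ)
    (S T : ℂ) : cx P α 0 (-a) (b - α • a) (swapY α y) S T =
      cx P α 0 a b y (-S) (T + α * S) := by
  funext i
  refine Fin.lastCases ?_ (fun i => ?_) i
  · rw [cx_last, cx_last]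
    simp [swapY]
    ring
  · rw [cx_castSucc, cx_castSucc]
    simp only [Pi.neg_apply, Pi.sub_apply, Pi.smul_apply, smul_eq_mul]
    ring

/-- Weighted normalisation. -/
lemma exists_scale {ι : Type*} [Fintype ι] (w : ι → ℕ) (hw : ∀ i, w i ≠ 0) (z : ι → ℂ)
    (hz : z ≠ 0) : ∃ l : ℝ, 0 < l ∧ ‖fun i => (l : ℂ) ^ w i * z i‖ = 1 := by
  obtain ⟨i, hi⟩ : ∃ i, z i ≠ 0 := by
    by_contra h
    push Not at h
    exact hz (funext h)
  have hcont : Continuous fun l : ℝ => ‖fun i => (l : ℂ) ^ w i * z i‖ := by fun_prop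
  set L : ℝ := max 1 (‖z i‖⁻¹) with hL
  have hL1 : 1 ≤ L := le_max_left _ _
  have h0 : ‖fun i => ((0 : ℝ) : ℂ) ^ w i * z i‖ = 0 := by
    rw [norm_eq_zero]
    funext j
    simp [hw j]
  have h1 : 1 ≤ ‖fun i => (L : ℂ) ^ w i * z i‖ := by
    refine le_trans ?_ (norm_le_pi_norm _ i)
    rw [norm_mul, norm_pow, Complex.norm_real, Real.norm_eq_abs, abs_of_nonneg (by linarith)]
    have h2 : L ≤ L ^ w i := le_self_pow₀ hL1 (hw i)
    have h3 : ‖z i‖⁻¹ ≤ L := le_max_right _ _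
    have h4 : 0 < ‖z i‖ := norm_pos_iff.mpr hi
    calc (1 : ℝ) = ‖z i‖⁻¹ * ‖z i‖ := (inv_mul_cancel₀ h4.ne').symm
      _ ≤ L ^ w i * ‖z i‖ := mul_le_mul_of_nonneg_right (h3.trans h2) h4.le
  have hmem : (1 : ℝ) ∈ Set.Icc (‖fun i => ((0 : ℝ) : ℂ) ^ w i * z i‖)
      (‖fun i => (L : ℂ) ^ w i * z i‖) := by
    rw [h0]
    exact ⟨zero_le_one, h1⟩
  obtain ⟨l, hl1, hl2⟩ := intermediate_value_Icc (by linarith : (0 : ℝ) ≤ L)
    hcont.continuousOn hmem
  refine ⟨l, ?_, hl2⟩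
  rcases hl1.1.eq_or_lt with h | h
  · exfalso
    rw [← h] at hl2
    simp only at hl2
    rw [h0] at hl2
    exact zero_ne_one hl2
  · exact h

/-- Limits along an ultrafilter in the unit sphere. -/
lemma exists_limit {ι : Type*} [Fintype ι] (U : Ultrafilter ℕ) (z : ℕ → ι → ℂ)
    (hz : ∀ᶠ k in (U : Filter ℕ), ‖z k‖ = 1) :
    ∃ x : ι → ℂ, ‖x‖ = 1 ∧ Tendsto z U (𝓝 x) := by
  have h1 : ((U.map z : Ultrafilter (ι → ℂ)) : Filter (ι → ℂ)) ≤
      𝓟 (Metric.sphere (0 : ι → ℂ) 1) := by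
    rw [le_principal_iff, Ultrafilter.mem_coe, Ultrafilter.mem_map]
    filter_upwards [hz] with k hk
    simpa using hk
  obtain ⟨x, hx, hlim⟩ := (isCompact_sphere (0 : ι → ℂ) 1).ultrafilter_le_nhds _ h1
  exact ⟨x, by simpa using hx, hlim⟩

section Closed

variable {n c : ℕ} (e : Fin c → ℕ) (Φ : Fin c → ℂ → (Fin (n + 1) → ℂ) → ℂ)
  (P : Fin (n + 1) → ℂ) (ℓ : Fin n)

/-- There is a conic through `P` (possibly degenerate) on which the functions vanish. -/
def Good (s : ℂ) : Prop :=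
  ∃ (α β : ℂ) (a b : Fin n → ℂ) (y : Fin 4 → ℂ), a ℓ = 0 ∧ b ℓ = 0 ∧
    ¬ (a = 0 ∧ b = 0 ∧ y = 0) ∧ ∀ j S T, Φ j s (cx P α β a b y S T) = 0

variable {e Φ P ℓ}

lemma tendsto_zero_of_bound {U : Ultrafilter ℕ} {v : ℕ → ℝ} {l : ℕ → ℝ}
    (hv : Tendsto v U (𝓝 0)) (hl : ∀ᶠ k in (U : Filter ℕ), 0 < l k)
    (h : ∀ᶠ k in (U : Filter ℕ), 1 ≤ max (l k) (l k ^ 2) * v k) :
    Tendsto (fun k => (l k)⁻¹) U (𝓝 0) := by
  rw [Metric.tendsto_nhds]
  intro η hη
  have h1 : ∀ᶠ k in (U : Filter ℕ), |v k| < min η (η ^ 2) := by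
    have := (Metric.tendsto_nhds.mp hv) (min η (η ^ 2)) (by positivity)
    simpa [Real.dist_eq] using this
  filter_upwards [hl, h, h1] with k hk1 hk2 hk3
  rw [Real.dist_eq, sub_zero, abs_of_pos (inv_pos.mpr hk1)]
  by_contra hcon
  push Not at hcon
  have hv0 : v k < min η (η ^ 2) := lt_of_le_of_lt (le_abs_self _) hk3
  have hlη : l k ≤ η⁻¹ := by
    rw [le_inv_comm₀ hk1 hη]
    exact hcon
  have hmax : 0 < max (l k) (l k ^ 2) := lt_max_of_lt_left hk1
  have hvpos : 0 < v k := by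
    by_contra hneg
    push Not at hneg
    have := mul_nonpos_of_nonneg_of_nonpos hmax.le hneg
    linarith
  have h2 : max (l k) (l k ^ 2) * v k < 1 := by
    rcases max_choice (l k) (l k ^ 2) with h3 | h3
    · rw [h3]
      calc l k * v k ≤ η⁻¹ * v k := mul_le_mul_of_nonneg_right hlη hvpos.le
        _ < η⁻¹ * η := mul_lt_mul_of_pos_left (hv0.trans_le (min_le_left _ _))
            (inv_pos.mpr hη)
        _ = 1 := inv_mul_cancel₀ hη.ne'
    · rw [h3]
      have h4 : l k ^ 2 ≤ (η⁻¹) ^ 2 := pow_le_pow_left₀ hk1.le hlη 2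
      calc l k ^ 2 * v k ≤ (η⁻¹) ^ 2 * v k := mul_le_mul_of_nonneg_right h4 hvpos.le
        _ < (η⁻¹) ^ 2 * η ^ 2 := mul_lt_mul_of_pos_left (hv0.trans_le (min_le_right _ _))
            (by positivity)
        _ = 1 := by rw [← mul_pow, inv_mul_cancel₀ hη.ne', one_pow]
  linarith

/-- The rescaled conic near the point at infinity. -/
noncomputable def zoom {n : ℕ} (P : Fin (n + 1) → ℂ) (S τ : ℂ)
    (q : ℂ × ℂ × (Fin n → ℂ) × (Fin 4 → ℂ) × (Fin n ⊕ Fin 2 → ℂ)) : Fin (n + 1) → ℂ :=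
  Fin.snoc (fun i => P i.castSucc * (q.1 * q.2.1 ^ 2 * τ ^ 2 + S * τ) +
      q.2.2.1 i * S * q.2.1 * τ + q.2.2.2.2 (Sum.inl i) * S ^ 2)
    (P (Fin.last n) * (q.1 * q.2.1 ^ 2 * τ ^ 2 + S * τ) ^ 2 +
      q.1 * q.2.1 ^ 3 * q.2.2.2.1 0 * S * τ ^ 3 + q.2.1 ^ 2 * q.2.2.2.1 1 * S ^ 2 * τ ^ 2 +
      q.2.1 * q.2.2.2.2 (Sum.inr 0) * S ^ 3 * τ + q.2.2.2.2 (Sum.inr 1) * S ^ 4)

lemma continuous_zoom {n : ℕ} (P : Fin (n + 1) → ℂ) (S τ : ℂ) : Continuous (zoom P S τ) := by
  apply continuous_pi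
  intro i
  unfold zoom
  refine Fin.lastCases ?_ (fun i => ?_) i
  · simp only [Fin.snoc_last]
    fun_prop
  · simp only [Fin.snoc_castSucc]
    fun_prop

lemma continuous_cx {n : ℕ} (P : Fin (n + 1) → ℂ) (S T : ℂ) :
    Continuous (fun q : ℂ × (Fin n → ℂ) × (Fin n → ℂ) × (Fin 4 → ℂ) =>
      cx P q.1 0 q.2.1 q.2.2.1 q.2.2.2 S T) := by
  apply continuous_pi
  intro i
  refine Fin.lastCases ?_ (fun i => ?_) i
  · simp only [cx_last]
    fun_prop
  · simp only [cx_castSucc]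
    fun_prop

lemma continuous_cx' {n : ℕ} (P : Fin (n + 1) → ℂ) (α β : ℂ) (a b : Fin n → ℂ) (y : Fin 4 → ℂ)
    (T : ℂ) : Continuous (fun S => cx P α β a b y S T) := by
  apply continuous_pi
  intro i
  refine Fin.lastCases ?_ (fun i => ?_) i
  · simp only [cx_last]
    fun_prop
  · simp only [cx_castSucc]
    fun_prop

/-- One zoom: from conics with `(a, b, y) → 0`, `α → α₀ ≠ 0` and `(b, y_2, y_3) ≠ 0` one obtains
a line in the limit. -/
lemma good_of_zoom {U : Ultrafilter ℕ} {s : ℕ → ℂ} {s₀ : ℂ} (hs : Tendsto s U (𝓝 s₀))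
    (hcont : ∀ j, Continuous fun q : ℂ × (Fin (n + 1) → ℂ) => Φ j q.1 q.2)
    (hhom : ∀ j s l z, Φ j s (fun i => l ^ wt n 2 i * z i) = l ^ e j * Φ j s z)
    {α : ℕ → ℂ} {a b : ℕ → Fin n → ℂ} {y : ℕ → Fin 4 → ℂ} {α₀ : ℂ} (hα₀ : α₀ ≠ 0)
    (hα : Tendsto α U (𝓝 α₀)) (ha : Tendsto a U (𝓝 0)) (hb : Tendsto b U (𝓝 0))
    (hy : Tendsto y U (𝓝 0)) (hbℓ : ∀ᶠ k in (U : Filter ℕ), b k ℓ = 0)
    (hne : ∀ᶠ k in (U : Filter ℕ), ¬ (b k = 0 ∧ y k 2 = 0 ∧ y k 3 = 0))
    (hsol : ∀ᶠ k in (U : Filter ℕ), ∀ j S T, Φ j (s k) (cx P (α k) 0 (a k) (b k) (y k) S T) = 0) :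
    Good Φ P ℓ s₀ := by
  classical
  -- the scaling factors
  let w : Fin n ⊕ Fin 2 → ℕ := Sum.elim (fun _ => 1) ![1, 2]
  have hw : ∀ i, w i ≠ 0 := by
    rintro (i | i)
    · simp [w]
    · fin_cases i <;> simp [w]
  let v : ℕ → Fin n ⊕ Fin 2 → ℂ := fun k => Sum.elim (b k) ![y k 2, y k 3]
  have hv0 : ∀ k, ¬ (b k = 0 ∧ y k 2 = 0 ∧ y k 3 = 0) → v k ≠ 0 := by
    intro k hk hvk
    apply hk
    refine ⟨?_, ?_, ?_⟩
    · funext i
      exact congrFun hvk (Sum.inl i)
    · exact congrFun hvk (Sum.inr 0)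
    · exact congrFun hvk (Sum.inr 1)
  have hl : ∀ k, ∃ l : ℝ, ¬ (b k = 0 ∧ y k 2 = 0 ∧ y k 3 = 0) →
      0 < l ∧ ‖fun i => (l : ℂ) ^ w i * v k i‖ = 1 := by
    intro k
    by_cases hk : ¬ (b k = 0 ∧ y k 2 = 0 ∧ y k 3 = 0)
    · obtain ⟨l, h1, h2⟩ := exists_scale w hw (v k) (hv0 k hk)
      exact ⟨l, fun _ => ⟨h1, h2⟩⟩
    · exact ⟨1, fun h => absurd h hk⟩
  choose l hl using hl
  let u : ℕ → Fin n ⊕ Fin 2 → ℂ := fun k i => (l k : ℂ) ^ w i * v k i
  have hlpos : ∀ᶠ k in (U : Filter ℕ), 0 < l k := by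
    filter_upwards [hne] with k hk using (hl k hk).1
  have hu1 : ∀ᶠ k in (U : Filter ℕ), ‖u k‖ = 1 := by
    filter_upwards [hne] with k hk using (hl k hk).2
  obtain ⟨u₀, hu₀, hulim⟩ := exists_limit U u hu1
  -- the scaling factors tend to infinity
  have hv : Tendsto (fun k => ‖v k‖) U (𝓝 0) := by
    have h1 : Tendsto v U (𝓝 0) := by
      rw [tendsto_pi_nhds]
      rintro (i | i)
      · exact (tendsto_pi_nhds.mp hb) i
      · fin_cases i
        · exact (tendsto_pi_nhds.mp hy) 2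
        · exact (tendsto_pi_nhds.mp hy) 3
    simpa using h1.norm
  have hε : Tendsto (fun k => (l k)⁻¹) U (𝓝 0) := by
    refine tendsto_zero_of_bound hv hlpos ?_
    filter_upwards [hu1, hlpos] with k hk1 hk2
    rw [← hk1]
    have hmax : 0 ≤ max (l k) (l k ^ 2) := le_max_of_le_left hk2.le
    rw [pi_norm_le_iff_of_nonneg (mul_nonneg hmax (norm_nonneg _))]
    intro i
    show ‖(l k : ℂ) ^ w i * v k i‖ ≤ _
    rw [norm_mul, norm_pow, Complex.norm_real, Real.norm_eq_abs, abs_of_pos hk2]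
    refine mul_le_mul ?_ (norm_le_pi_norm _ i) (norm_nonneg _) hmax
    rcases i with i | i
    · simp [w]
    · fin_cases i <;> simp [w]
  have hεc : Tendsto (fun k => ((l k : ℂ))⁻¹) U (𝓝 0) := by
    have h1 := (Complex.continuous_ofReal.tendsto 0).comp hε
    simpa [Function.comp_def] using h1
  -- the limit line
  refine ⟨0, 0, fun i => u₀ (Sum.inl i), 0, ![α₀⁻¹ * u₀ (Sum.inr 0), u₀ (Sum.inr 1), 0, 0],
    ?_, rfl, ?_, ?_⟩
  · have h1 : Tendsto (fun k => u k (Sum.inl ℓ)) U (𝓝 (u₀ (Sum.inl ℓ))) :=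
      (tendsto_pi_nhds.mp hulim) _
    refine tendsto_nhds_unique h1 ?_
    refine Tendsto.congr' ?_ tendsto_const_nhds
    filter_upwards [hbℓ] with k hk
    show (0 : ℂ) = (l k : ℂ) ^ w (Sum.inl ℓ) * b k ℓ
    rw [hk, mul_zero]
  · rintro ⟨h1, -, h2⟩
    have h3 : u₀ = 0 := by
      funext i
      rcases i with i | i
      · exact congrFun h1 i
      · fin_cases i
        · have := congrFun h2 0
          have h4 : α₀⁻¹ * u₀ (Sum.inr 0) = 0 := this
          rcases mul_eq_zero.mp h4 with h5 | h5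
          · exact absurd h5 (inv_ne_zero hα₀)
          · exact h5
        · exact congrFun h2 1
    rw [h3, norm_zero] at hu₀
    exact zero_ne_one hu₀
  · -- vanishing on the limit line
    have hzoom : ∀ j S τ, Φ j s₀ (zoom P S τ (0, α₀⁻¹, 0, 0, u₀)) = 0 := by
      intro j S τ
      have h1 : Tendsto (fun k => ((l k : ℂ)⁻¹, (α k)⁻¹, a k, y k, u k)) U
          (𝓝 (0, α₀⁻¹, 0, 0, u₀)) :=
        hεc.prodMk_nhds ((hα.inv₀ hα₀).prodMk_nhds (ha.prodMk_nhds (hy.prodMk_nhds hulim)))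
      have h2 := ((continuous_zoom P S τ).tendsto _).comp h1
      have h3 := ((hcont j).tendsto (s₀, zoom P S τ (0, α₀⁻¹, 0, 0, u₀))).comp
        (hs.prodMk_nhds h2)
      refine tendsto_nhds_unique h3 ?_
      refine Tendsto.congr' ?_ tendsto_const_nhds
      filter_upwards [hlpos, hα.eventually_ne hα₀, hsol] with k hk1 hk2 hk3
      have hlc : (l k : ℂ) ≠ 0 := by
        rw [Ne, Complex.ofReal_eq_zero]
        exact hk1.ne'
      have h4 := hk3 j S ((l k : ℂ)⁻¹ * (α k)⁻¹ * τ)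
      have h5 : zoom P S τ ((l k : ℂ)⁻¹, (α k)⁻¹, a k, y k, u k) =
          fun i => (l k : ℂ) ^ wt n 2 i *
            cx P (α k) 0 (a k) (b k) (y k) S ((l k : ℂ)⁻¹ * (α k)⁻¹ * τ) i := by
        funext i
        refine Fin.lastCases ?_ (fun i => ?_) i
        · rw [cx_last, wt_last]
          unfold zoom
          rw [Fin.snoc_last]
          have e1 : u k (Sum.inr 0) = (l k : ℂ) * y k 2 := by
            show (l k : ℂ) ^ w (Sum.inr 0) * v k (Sum.inr 0) = _
            simp [w, v]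
          have e2 : u k (Sum.inr 1) = (l k : ℂ) ^ 2 * y k 3 := by
            show (l k : ℂ) ^ w (Sum.inr 1) * v k (Sum.inr 1) = _
            simp [w, v]
          simp only [e1, e2]
          field_simp
          ring
        · rw [cx_castSucc, wt_castSucc]
          unfold zoom
          rw [Fin.snoc_castSucc]
          have e1 : u k (Sum.inl i) = (l k : ℂ) * b k i := by
            show (l k : ℂ) ^ w (Sum.inl i) * v k (Sum.inl i) = _
            simp [w, v]
          simp only [e1]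
          field_simp
          ring
      show (0 : ℂ) = Φ j (s k) (zoom P S τ ((l k : ℂ)⁻¹, (α k)⁻¹, a k, y k, u k))
      rw [h5, hhom, h4, mul_zero]
    intro j S T
    have hSne : ∀ S : ℂ, S ≠ 0 → Φ j s₀ (cx P 0 0 (fun i => u₀ (Sum.inl i)) 0
        ![α₀⁻¹ * u₀ (Sum.inr 0), u₀ (Sum.inr 1), 0, 0] S T) = 0 := by
      intro S hS
      have h1 := hzoom j S T
      have h2 : (fun i => (T / S) ^ wt n 2 i * zoom P S T (0, α₀⁻¹, 0, 0, u₀) i) =
          cx P 0 0 (fun i => u₀ (Sum.inl i)) 0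
            ![α₀⁻¹ * u₀ (Sum.inr 0), u₀ (Sum.inr 1), 0, 0] S T := by
        funext i
        refine Fin.lastCases ?_ (fun i => ?_) i
        · rw [cx_last, wt_last]
          unfold zoom
          rw [Fin.snoc_last]
          simp
          field_simp
        · rw [cx_castSucc, wt_castSucc]
          unfold zoom
          rw [Fin.snoc_castSucc]
          simp
          field_simp
      rw [← h2, hhom, h1, mul_zero]
    by_cases hS : S = 0
    · have h1 : (fun S => Φ j s₀ (cx P 0 0 (fun i => u₀ (Sum.inl i)) 0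
          ![α₀⁻¹ * u₀ (Sum.inr 0), u₀ (Sum.inr 1), 0, 0] S T)) = fun _ => 0 := by
        apply Continuous.ext_on (dense_compl_singleton (0 : ℂ)) _ continuous_const
        · intro S hS
          exact hSne S hS
        · exact Continuous.comp (g := fun q : ℂ × (Fin (n + 1) → ℂ) => Φ j q.1 q.2)
            (f := fun S => (s₀, cx P 0 0 (fun i => u₀ (Sum.inl i)) 0
              ![α₀⁻¹ * u₀ (Sum.inr 0), u₀ (Sum.inr 1), 0, 0] S T)) (hcont j)
            (continuous_const.prodMk (continuous_cx' _ _ _ _ _ _ _))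
      exact congrFun h1 S
    · exact hSne S hS

lemma exists_quadratic_root (α β : ℂ) : ∃ c : ℂ, β + α * c + c ^ 2 = 0 := by
  obtain ⟨d, hd⟩ := IsAlgClosed.exists_pow_nat_eq (α ^ 2 - 4 * β) (n := 2) (by norm_num)
  refine ⟨(-α + d) / 2, ?_⟩
  linear_combination hd / 4

/-- A conic can be reparametrised such that `β = 0`. -/
lemma exists_beta_zero {s : ℂ} (h : Good Φ P ℓ s) :
    ∃ (α : ℂ) (a b : Fin n → ℂ) (y : Fin 4 → ℂ), a ℓ = 0 ∧ b ℓ = 0 ∧
    ¬ (a = 0 ∧ b = 0 ∧ y = 0) ∧ ∀ j S T, Φ j s (cx P α 0 a b y S T) = 0 := by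
  obtain ⟨α, β, a, b, y, haℓ, hbℓ, hne, hsol⟩ := h
  obtain ⟨c, hc⟩ := exists_quadratic_root α β
  refine ⟨α + 2 * c, a, b + c • a, shiftY c y, haℓ, ?_, ?_, ?_⟩
  · simp [haℓ, hbℓ]
  · rintro ⟨h1, h2, h3⟩
    apply hne
    refine ⟨h1, ?_, ?_⟩
    · rw [h1, smul_zero, add_zero] at h2
      exact h2
    · have y0 : y 0 = 0 := congrFun h3 0
      have y1 : y 1 + 3 * c * y 0 = 0 := congrFun h3 1
      have y2 : y 2 + 2 * c * y 1 + 3 * c ^ 2 * y 0 = 0 := congrFun h3 2
      have y3 : y 3 + c * y 2 + c ^ 2 * y 1 + c ^ 3 * y 0 = 0 := congrFun h3 3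
      rw [y0, mul_zero, add_zero] at y1
      rw [y0, y1, mul_zero, add_zero, mul_zero, add_zero] at y2
      rw [y0, y1, y2, mul_zero, add_zero, mul_zero, add_zero, mul_zero, add_zero] at y3
      funext i
      fin_cases i
      · exact y0
      · exact y1
      · exact y2
      · exact y3
  · intro j S T
    have h1 := cx_shift P α β c a b y S T
    rw [hc] at h1
    rw [h1]
    exact hsol j S _

/-- **Closedness.** -/
theorem isClosed_good (hcont : ∀ j, Continuous fun q : ℂ × (Fin (n + 1) → ℂ) => Φ j q.1 q.2)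
    (hhom : ∀ j s l z, Φ j s (fun i => l ^ wt n 2 i * z i) = l ^ e j * Φ j s z) :
    IsClosed {s | Good Φ P ℓ s} := by
  classical
  apply IsSeqClosed.isClosed
  intro s s₀ hs hlim
  have hdata : ∀ k, ∃ (α : ℂ) (a b : Fin n → ℂ) (y : Fin 4 → ℂ), a ℓ = 0 ∧ b ℓ = 0 ∧
      ¬ (a = 0 ∧ b = 0 ∧ y = 0) ∧ (∀ j S T, Φ j (s k) (cx P α 0 a b y S T) = 0) ∧
      ‖(Sum.elim (fun _ => α) (Sum.elim a (Sum.elim b y)) :
        Unit ⊕ (Fin n ⊕ (Fin n ⊕ Fin 4)) → ℂ)‖ = 1 := by
    intro k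
    obtain ⟨α, a, b, y, haℓ, hbℓ, hne, hsol⟩ := exists_beta_zero (hs k)
    let w : Unit ⊕ (Fin n ⊕ (Fin n ⊕ Fin 4)) → ℕ :=
      Sum.elim (fun _ => 1) (Sum.elim (fun _ => 1) (Sum.elim (fun _ => 2)
        (fun i => (i : ℕ) + 1)))
    have hw : ∀ i, w i ≠ 0 := by
      rintro (_ | _ | _ | _) <;> simp [w]
    obtain ⟨l, hl0, hl1⟩ := exists_scale w hw
      (Sum.elim (fun _ => α) (Sum.elim a (Sum.elim b y))) (by
        intro h
        apply hne
        refine ⟨?_, ?_, ?_⟩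
        · funext i
          exact congrFun h (Sum.inr (Sum.inl i))
        · funext i
          exact congrFun h (Sum.inr (Sum.inr (Sum.inl i)))
        · funext i
          exact congrFun h (Sum.inr (Sum.inr (Sum.inr i))))
    have hlc : (l : ℂ) ≠ 0 := by
      rw [Ne, Complex.ofReal_eq_zero]
      exact hl0.ne'
    refine ⟨l * α, fun i => l * a i, fun i => (l : ℂ) ^ 2 * b i,
      fun i => (l : ℂ) ^ ((i : ℕ) + 1) * y i, ?_, ?_, ?_, ?_, ?_⟩
    · simp [haℓ]
    · simp [hbℓ]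
    · rintro ⟨h1, h2, h3⟩
      apply hne
      refine ⟨?_, ?_, ?_⟩
      · funext i
        have := congrFun h1 i
        simpa [hlc] using this
      · funext i
        have := congrFun h2 i
        simpa [hlc] using this
      · funext i
        have := congrFun h3 i
        simpa [hlc] using this
    · intro j S T
      have h1 : cx P (l * α) 0 (fun i => l * a i) (fun i => (l : ℂ) ^ 2 * b i)
          (fun i => (l : ℂ) ^ ((i : ℕ) + 1) * y i) S T = cx P α 0 a b y (l * S) T := by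
        funext i
        refine Fin.lastCases ?_ (fun i => ?_) i
        · rw [cx_last, cx_last]
          simp
          ring
        · rw [cx_castSucc, cx_castSucc]
          ring
      rw [h1]
      exact hsol j _ _
    · rw [← hl1]
      congr 1
      funext i
      rcases i with i | i | i | i
      · simp [w]
      · simp [w]
      · simp [w]
      · simp [w]
  choose α a b y haℓ hbℓ hne hsol hnorm using hdata
  let U : Ultrafilter ℕ := hyperfilter ℕ
  have hU : (U : Filter ℕ) ≤ atTop := by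
    rw [← Nat.cofinite_eq_atTop]
    exact hyperfilter_le_cofinite
  have hsU : Tendsto s U (𝓝 s₀) := hlim.mono_left hU
  obtain ⟨z, hz1, hz⟩ := exists_limit U (fun k =>
    (Sum.elim (fun _ => α k) (Sum.elim (a k) (Sum.elim (b k) (y k))) :
        Unit ⊕ (Fin n ⊕ (Fin n ⊕ Fin 4)) → ℂ)) (Eventually.of_forall hnorm)
  have hz' := tendsto_pi_nhds.mp hz
  set α₀ := z (Sum.inl ()) with hα₀
  set a₀ : Fin n → ℂ := fun i => z (Sum.inr (Sum.inl i)) with ha₀
  set b₀ : Fin n → ℂ := fun i => z (Sum.inr (Sum.inr (Sum.inl i))) with hb₀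
  set y₀ : Fin 4 → ℂ := fun i => z (Sum.inr (Sum.inr (Sum.inr i))) with hy₀
  have hα : Tendsto α U (𝓝 α₀) := hz' (Sum.inl ())
  have ha : Tendsto a U (𝓝 a₀) := tendsto_pi_nhds.mpr fun i => hz' (Sum.inr (Sum.inl i))
  have hb : Tendsto b U (𝓝 b₀) :=
    tendsto_pi_nhds.mpr fun i => hz' (Sum.inr (Sum.inr (Sum.inl i)))
  have hy : Tendsto y U (𝓝 y₀) :=
    tendsto_pi_nhds.mpr fun i => hz' (Sum.inr (Sum.inr (Sum.inr i)))
  by_cases h0 : a₀ = 0 ∧ b₀ = 0 ∧ y₀ = 0
  · obtain ⟨ha0, hb0, hy0⟩ := h0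
    rw [ha0] at ha
    rw [hb0] at hb
    rw [hy0] at hy
    have hα₀ne : α₀ ≠ 0 := by
      intro h1
      have h2 : z = 0 := by
        funext i
        rcases i with i | i | i | i
        · exact h1
        · exact congrFun ha0 i
        · exact congrFun hb0 i
        · exact congrFun hy0 i
      rw [h2, norm_zero] at hz1
      exact zero_ne_one hz1
    -- choose between the conic and its reparametrisation
    let q : ℕ → Prop := fun k => b k = 0 ∧ y k 2 = 0 ∧ y k 3 = 0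
    let a' : ℕ → Fin n → ℂ := fun k => if q k then -a k else a k
    let b' : ℕ → Fin n → ℂ := fun k => if q k then b k - α k • a k else b k
    let y' : ℕ → Fin 4 → ℂ := fun k => if q k then swapY (α k) (y k) else y k
    have hite : ∀ {A : Type} [TopologicalSpace A] (f g : ℕ → A) (x : A), Tendsto f U (𝓝 x) →
        Tendsto g U (𝓝 x) → Tendsto (fun k => if q k then f k else g k) U (𝓝 x) := by
      intro A _ f g x hf hg
      exact Tendsto.if' hf hg
    have hswapY : Continuous fun p : ℂ × (Fin 4 → ℂ) => swapY p.1 p.2 := by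
      apply continuous_pi
      intro i
      fin_cases i
      · simp [swapY]
        fun_prop
      · simp [swapY]
        fun_prop
      · simp [swapY]
        fun_prop
      · simp [swapY]
        fun_prop
    refine good_of_zoom hsU hcont hhom (a := a') (b := b') (y := y') hα₀ne hα ?_ ?_ ?_ ?_ ?_ ?_
    · refine hite _ _ _ ?_ ha
      simpa using ha.neg
    · refine hite _ _ _ ?_ hb
      have h1 := hb.sub (hα.smul ha)
      simpa using h1
    · refine hite _ _ _ ?_ hy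
      have h1 := (hswapY.tendsto (α₀, 0)).comp (hα.prodMk_nhds hy)
      have h2 : swapY α₀ 0 = 0 := by
        funext i
        fin_cases i <;> simp [swapY]
      rw [show swapY (α₀, (0 : Fin 4 → ℂ)).1 (α₀, (0 : Fin 4 → ℂ)).2 = 0 from h2] at h1
      exact h1
    · refine Eventually.of_forall fun k => ?_
      show (if q k then b k - α k • a k else b k) ℓ = 0
      split_ifs
      · simp [haℓ, hbℓ]
      · exact hbℓ k
    · filter_upwards [hα.eventually_ne hα₀ne] with k hk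
      by_cases hq : q k
      · have hqq : b k = 0 ∧ y k 2 = 0 ∧ y k 3 = 0 := hq
        have e1 : b' k = b k - α k • a k := if_pos hq
        have e2 : y' k = swapY (α k) (y k) := if_pos hq
        rw [e1, e2]
        rintro ⟨h1, h2, h3⟩
        apply hne k
        have ha0 : a k = 0 := by
          rw [hqq.1, zero_sub, neg_eq_zero, smul_eq_zero] at h1
          exact h1.resolve_left hk
        have h4 : -y k 2 + 2 * α k * y k 1 - 3 * α k ^ 2 * y k 0 = 0 := h2
        have h5 : y k 3 - α k * y k 2 + α k ^ 2 * y k 1 - α k ^ 3 * y k 0 = 0 := h3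
        rw [hqq.2.1] at h4 h5
        rw [hqq.2.2] at h5
        have h6 : y k 0 = 0 := by
          have h7 : α k ^ 3 * y k 0 = 0 := by linear_combination (-α k) * h4 + 2 * h5
          rcases mul_eq_zero.mp h7 with h8 | h8
          · exact absurd h8 (pow_ne_zero _ hk)
          · exact h8
        have h9 : y k 1 = 0 := by
          have h7 : α k ^ 2 * y k 1 = 0 := by
            rw [h6] at h5
            linear_combination h5
          rcases mul_eq_zero.mp h7 with h8 | h8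
          · exact absurd h8 (pow_ne_zero _ hk)
          · exact h8
        refine ⟨ha0, hqq.1, ?_⟩
        funext i
        fin_cases i
        · exact h6
        · exact h9
        · exact hqq.2.1
        · exact hqq.2.2
      · have e1 : b' k = b k := if_neg hq
        have e2 : y' k = y k := if_neg hq
        rw [e1, e2]
        exact hq
    · refine Eventually.of_forall fun k j S T => ?_
      by_cases hq : q k
      · have e0 : a' k = -a k := if_pos hq
        have e1 : b' k = b k - α k • a k := if_pos hq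
        have e2 : y' k = swapY (α k) (y k) := if_pos hq
        rw [e0, e1, e2, cx_swap]
        exact hsol k j _ _
      · have e0 : a' k = a k := if_neg hq
        have e1 : b' k = b k := if_neg hq
        have e2 : y' k = y k := if_neg hq
        rw [e0, e1, e2]
        exact hsol k j S T
  · refine ⟨α₀, 0, a₀, b₀, y₀, ?_, ?_, h0, ?_⟩
    · have h1 : Tendsto (fun k => a k ℓ) U (𝓝 (a₀ ℓ)) := (tendsto_pi_nhds.mp ha) ℓ
      refine tendsto_nhds_unique h1 ?_
      simp only [haℓ]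
      exact tendsto_const_nhds
    · have h1 : Tendsto (fun k => b k ℓ) U (𝓝 (b₀ ℓ)) := (tendsto_pi_nhds.mp hb) ℓ
      refine tendsto_nhds_unique h1 ?_
      simp only [hbℓ]
      exact tendsto_const_nhds
    · intro j S T
      have h1 : Tendsto (fun k => (α k, a k, b k, y k)) U (𝓝 (α₀, a₀, b₀, y₀)) :=
        hα.prodMk_nhds (ha.prodMk_nhds (hb.prodMk_nhds hy))
      have h2 := ((continuous_cx P S T).tendsto _).comp h1
      have h3 := ((hcont j).tendsto (s₀, cx P α₀ 0 a₀ b₀ y₀ S T)).comp (hsU.prodMk_nhds h2)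
      refine tendsto_nhds_unique h3 ?_
      refine Tendsto.congr' ?_ tendsto_const_nhds
      refine Eventually.of_forall fun k => ?_
      exact (hsol k j S T).symm

end Closed

end Pool.Agent.H86.Refl
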