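import Mathlib
import Pool.Agent.H86.Refl.Lines
import Pool.Agent.H86.Refl.Jac

/-!
# A special system with a nondegenerate conic

Conics `x_i(t) = P_i (1 + β t²) + a_i t + b_i t²`, `y(t) = P_y (1 + β t²)² + y_1 t + … + y_4 t⁴` in
the weighted projective space `P(1, …, 1, 2)`.
-/

set_option autoImplicit false

namespace Pool.Agent.H86.Refl

open MvPolynomial

section Data

variable {R : Type*} [CommRing R] [Algebra ℂ R] {k : ℕ}

/-- `1 + β t²`. -/
noncomputable def D0 (Z : Fin (k + 4) → Fin 2 → R) : Polynomial R :=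
  1 + Polynomial.C (Z 1 1) * Polynomial.X ^ 2

/-- `t + b_1 t²`. -/
noncomputable def D1 (Z : Fin (k + 4) → Fin 2 → R) : Polynomial R :=
  Polynomial.X - Polynomial.C (algebraMap ℂ R (1 / 2) * Z 1 0) * Polynomial.X ^ 2

/-- `a_2 t + (1 + b_2) t²`. -/
noncomputable def D2 (Z : Fin (k + 4) → Fin 2 → R) : Polynomial R :=
  Polynomial.C (Z 0 0) * Polynomial.X + (1 + Polynomial.C (Z 0 1)) * Polynomial.X ^ 2

/-- `a t + b t²`. -/
noncomputable def Dm (Z : Fin (k + 4) → Fin 2 → R) (m : Fin k) : Polynomial R :=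
  Polynomial.C (Z (m.addNat 4) 0) * Polynomial.X +
    Polynomial.C (Z (m.addNat 4) 1) * Polynomial.X ^ 2

/-- `y_1 t + … + y_4 t⁴`. -/
noncomputable def DY (Z : Fin (k + 4) → Fin 2 → R) : Polynomial R :=
  Polynomial.C (Z 2 0) * Polynomial.X + Polynomial.C (Z 2 1) * Polynomial.X ^ 2 +
    Polynomial.C (Z 3 0) * Polynomial.X ^ 3 + Polynomial.C (Z 3 1) * Polynomial.X ^ 4

/-- The variable parts of the coordinates. -/
noncomputable def DX (Z : Fin (k + 4) → Fin 2 → R) : Fin (k + 3) → Polynomial R :=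
  Fin.cons 0 (Fin.cons (D1 Z) (Fin.cons (D2 Z) (Dm Z)))

lemma cases3 (i : Fin (k + 3)) : i = 0 ∨ i = 1 ∨ i = 2 ∨ ∃ m : Fin k, i = m.succ.succ.succ := by
  refine Fin.cases (Or.inl rfl) (fun i => ?_) i
  refine Fin.cases (Or.inr (Or.inl rfl)) (fun i => ?_) i
  refine Fin.cases (Or.inr (Or.inr (Or.inl rfl))) (fun i => ?_) i
  exact Or.inr (Or.inr (Or.inr ⟨i, rfl⟩))

lemma DX_zero (Z : Fin (k + 4) → Fin 2 → R) : DX Z 0 = 0 := rfl

lemma DX_one (Z : Fin (k + 4) → Fin 2 → R) : DX Z 1 = D1 Z := rfl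

lemma DX_two (Z : Fin (k + 4) → Fin 2 → R) : DX Z 2 = D2 Z := rfl

lemma DX_succ (Z : Fin (k + 4) → Fin 2 → R) (m : Fin k) : DX Z m.succ.succ.succ = Dm Z m := rfl

/-- The conic. -/
noncomputable def conicData (P : Fin (k + 3 + 1) → R) (Z : Fin (k + 4) → Fin 2 → R) :
    Fin (k + 3 + 1) → Polynomial R :=
  Fin.snoc (fun i => Polynomial.C (P i.castSucc) * D0 Z + DX Z i)
    (Polynomial.C (P (Fin.last (k + 3))) * D0 Z ^ 2 + DY Z)

/-- A distribution of pairs of coefficients to the equations. -/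
structure Slots (k c : ℕ) (e : Fin c → ℕ) where
  J : Fin (k + 4) → Fin c
  K : Fin (k + 4) → ℕ
  lt : ∀ s, K s < e (J s)
  inj : ∀ s s', J s = J s' → K s = K s' → s = s'
  surj : ∀ j a, a < e j → ∃ s, J s = j ∧ K s = a
  J1 : J 1 = J 0
  K1 : K 1 = K 0 + 1
  J3 : J 3 = J 2
  K3 : K 3 = K 2 + 1

variable {c : ℕ} {e : Fin c → ℕ}

/-- The special system restricted to the conic. -/
noncomputable def E0 (S : Slots k c e) (Z : Fin (k + 4) → Fin 2 → R) (j : Fin c) :
    Polynomial R :=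
  (if S.J 0 = j then (D0 Z * D2 Z - D1 Z ^ 2) * D2 Z ^ S.K 0 * D0 Z ^ (e j - 2 - S.K 0) else 0) +
    (if S.J 2 = j then DY Z * D2 Z ^ S.K 2 * D0 Z ^ (e j - 2 - S.K 2) else 0) +
    ∑ m : Fin k, if S.J (m.addNat 4) = j then
      Dm Z m * D2 Z ^ S.K (m.addNat 4) * D0 Z ^ (e j - 1 - S.K (m.addNat 4)) else 0

lemma map_D {R' : Type*} [CommRing R'] [Algebra ℂ R'] (φ : R →ₐ[ℂ] R')
    (Z : Fin (k + 4) → Fin 2 → R) :
    (D0 Z).map (φ : R →+* R') = D0 (fun s b => φ (Z s b)) ∧
    (D1 Z).map (φ : R →+* R') = D1 (fun s b => φ (Z s b)) ∧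
    (D2 Z).map (φ : R →+* R') = D2 (fun s b => φ (Z s b)) ∧
    (∀ m, (Dm Z m).map (φ : R →+* R') = Dm (fun s b => φ (Z s b)) m) ∧
    (DY Z).map (φ : R →+* R') = DY (fun s b => φ (Z s b)) := by
  refine ⟨?_, ?_, ?_, ?_, ?_⟩
  · simp [D0]
  · simp [D1]
  · simp [D2]
  · intro m
    simp [Dm]
  · simp [DY]

lemma map_E0 {R' : Type*} [CommRing R'] [Algebra ℂ R'] (φ : R →ₐ[ℂ] R') (S : Slots k c e)
    (Z : Fin (k + 4) → Fin 2 → R) (j : Fin c) :
    (E0 S Z j).map (φ : R →+* R') = E0 S (fun s b => φ (Z s b)) j := by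
  obtain ⟨h0, h1, h2, hm, hY⟩ := map_D φ Z
  unfold E0
  simp only [Polynomial.map_add, Polynomial.map_sum, apply_ite (Polynomial.map (φ : R →+* R')),
    Polynomial.map_mul, Polynomial.map_pow, Polynomial.map_sub, h0, h1, h2, hm, hY,
    Polynomial.map_zero]

lemma map_conicData {R' : Type*} [CommRing R'] [Algebra ℂ R'] (φ : R →ₐ[ℂ] R')
    (P : Fin (k + 3 + 1) → R) (Z : Fin (k + 4) → Fin 2 → R) (i : Fin (k + 3 + 1)) :
    (conicData P Z i).map (φ : R →+* R') =
      conicData (fun i => φ (P i)) (fun s b => φ (Z s b)) i := by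
  obtain ⟨h0, h1, h2, hm, hY⟩ := map_D φ Z
  unfold conicData
  refine Fin.lastCases ?_ (fun i => ?_) i
  · simp only [Fin.snoc_last, Polynomial.map_add, Polynomial.map_mul, Polynomial.map_C,
      Polynomial.map_pow, h0, hY]
    rfl
  · simp only [Fin.snoc_castSucc, Polynomial.map_add, Polynomial.map_mul, Polynomial.map_C,
      h0]
    congr 1
    rcases cases3 i with rfl | rfl | rfl | ⟨m, rfl⟩
    · simp [DX_zero]
    · simp [DX_one, h1]
    · simp [DX_two, h2]
    · simp [DX_succ, hm]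

lemma natDegree_D (Z : Fin (k + 4) → Fin 2 → R) :
    (D0 Z).natDegree ≤ 2 ∧ (D1 Z).natDegree ≤ 2 ∧ (D2 Z).natDegree ≤ 2 ∧
      (∀ m, (Dm Z m).natDegree ≤ 2) ∧ (DY Z).natDegree ≤ 4 := by
  refine ⟨?_, ?_, ?_, ?_, ?_⟩
  · unfold D0
    compute_degree
  · unfold D1
    compute_degree
  · unfold D2
    compute_degree
  · intro m
    unfold Dm
    compute_degree
  · unfold DY
    compute_degree

lemma natDegree_conicData (P : Fin (k + 3 + 1) → R) (Z : Fin (k + 4) → Fin 2 → R)
    (i : Fin (k + 3 + 1)) : (conicData P Z i).natDegree ≤ 2 * wt (k + 3) 2 i := by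
  obtain ⟨h0, h1, h2, hm, hY⟩ := natDegree_D Z
  unfold conicData
  refine Fin.lastCases ?_ (fun i => ?_) i
  · rw [Fin.snoc_last, wt_last]
    refine (Polynomial.natDegree_add_le _ _).trans (max_le ?_ hY)
    refine (Polynomial.natDegree_C_mul_le _ _).trans ?_
    exact Polynomial.natDegree_pow_le.trans (Nat.mul_le_mul_left 2 h0)
  · rw [Fin.snoc_castSucc, wt_castSucc]
    refine (Polynomial.natDegree_add_le _ _).trans (max_le ?_ ?_)
    · exact (Polynomial.natDegree_C_mul_le _ _).trans h0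
    · rcases cases3 i with rfl | rfl | rfl | ⟨m, rfl⟩
      · simp [DX_zero]
      · rw [DX_one]
        simpa using h1
      · rw [DX_two]
        simpa using h2
      · rw [DX_succ]
        simpa using hm m

lemma natDegree_E0 (S : Slots k c e) (Z : Fin (k + 4) → Fin 2 → R) (j : Fin c) :
    (E0 S Z j).natDegree ≤ 2 * e j := by
  obtain ⟨h0, h1, h2, hm, hY⟩ := natDegree_D Z
  have hpow : ∀ a b : ℕ, (D2 Z ^ a * D0 Z ^ b).natDegree ≤ 2 * (a + b) := by
    intro a b
    refine Polynomial.natDegree_mul_le.trans ?_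
    have h3 := (Polynomial.natDegree_pow_le (p := D2 Z) (n := a)).trans
      (Nat.mul_le_mul_left a h2)
    have h4 := (Polynomial.natDegree_pow_le (p := D0 Z) (n := b)).trans
      (Nat.mul_le_mul_left b h0)
    omega
  unfold E0
  refine (Polynomial.natDegree_add_le _ _).trans (max_le
    ((Polynomial.natDegree_add_le _ _).trans (max_le ?_ ?_)) ?_)
  · split_ifs with h
    · have hl := S.lt 1
      rw [S.J1, S.K1, h] at hl
      rw [mul_assoc]
      refine Polynomial.natDegree_mul_le.trans ?_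
      have h3 := hpow (S.K 0) (e j - 2 - S.K 0)
      have h4 : (D0 Z * D2 Z - D1 Z ^ 2).natDegree ≤ 4 := by
        refine (Polynomial.natDegree_sub_le _ _).trans (max_le ?_ ?_)
        · exact Polynomial.natDegree_mul_le.trans (by omega)
        · exact Polynomial.natDegree_pow_le.trans (by omega)
      omega
    · simp
  · split_ifs with h
    · have hl := S.lt 3
      rw [S.J3, S.K3, h] at hl
      rw [mul_assoc]
      refine Polynomial.natDegree_mul_le.trans ?_
      have h3 := hpow (S.K 2) (e j - 2 - S.K 2)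
      omega
    · simp
  · refine Polynomial.natDegree_sum_le_of_forall_le _ _ fun m _ => ?_
    split_ifs with h
    · have hl := S.lt (m.addNat 4)
      rw [h] at hl
      rw [mul_assoc]
      refine Polynomial.natDegree_mul_le.trans ?_
      have h3 := hpow (S.K (m.addNat 4)) (e j - 1 - S.K (m.addNat 4))
      have h4 := hm m
      omega
    · simp

lemma eval_D_zero (Z : Fin (k + 4) → Fin 2 → R) :
    (D0 Z).eval 0 = 1 ∧ (D1 Z).eval 0 = 0 ∧ (D2 Z).eval 0 = 0 ∧
      (∀ m, (Dm Z m).eval 0 = 0) ∧ (DY Z).eval 0 = 0 := by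
  refine ⟨by simp [D0], by simp [D1], by simp [D2], fun m => by simp [Dm], by simp [DY]⟩

lemma eval_E0_zero (S : Slots k c e) (Z : Fin (k + 4) → Fin 2 → R) (j : Fin c) :
    (E0 S Z j).eval 0 = 0 := by
  obtain ⟨h0, h1, h2, hm, hY⟩ := eval_D_zero Z
  unfold E0
  simp only [Polynomial.eval_add, Polynomial.eval_finsetSum]
  have ha : ∀ (q : Prop) [Decidable q] (A : Polynomial R), A.eval 0 = 0 →
      (if q then A else 0).eval 0 = 0 := by
    intro q _ A hA
    split_ifs
    · exact hA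
    · simp
  rw [ha _ _ (by simp [h1, h2]), ha _ _ (by simp [hY])]
  simp only [add_zero, zero_add]
  exact Finset.sum_eq_zero fun m _ => ha _ _ (by simp [hm])

lemma eval_conicData_zero (P : Fin (k + 3 + 1) → ℂ) (Z : Fin (k + 4) → Fin 2 → ℂ) :
    (fun i => (conicData P Z i).eval 0) = P := by
  obtain ⟨h0, h1, h2, hm, hY⟩ := eval_D_zero Z
  funext i
  unfold conicData
  refine Fin.lastCases ?_ (fun i => ?_) i
  · simp [h0, hY]
  · simp only [Fin.snoc_castSucc, Polynomial.eval_add, Polynomial.eval_mul, Polynomial.eval_C,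
      h0, mul_one, add_eq_left]
    rcases cases3 i with rfl | rfl | rfl | ⟨m, rfl⟩
    · simp [DX_zero]
    · simp [DX_one, h1]
    · simp [DX_two, h2]
    · simp [DX_succ, hm]

lemma sum_slots {A : Type*} [AddCommMonoid A] (f : Fin (k + 4) → A) :
    ∑ s, f s = f 0 + f 1 + f 2 + f 3 + ∑ m : Fin k, f (m.addNat 4) := by
  rw [Fin.sum_univ_succ, Fin.sum_univ_succ, Fin.sum_univ_succ, Fin.sum_univ_succ]
  simp only [← add_assoc]
  rfl

/-- Linearisation of the special system. -/
lemma E0_nil (S : Slots k c e) (Z : Fin (k + 4) → Fin 2 → R)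
    (hZ : ∀ s b s' b', Z s b * Z s' b' = 0) (j : Fin c) :
    E0 S Z j = ∑ s, if S.J s = j then Polynomial.C (Z s 0) * Polynomial.X ^ (2 * S.K s + 1) +
      Polynomial.C (Z s 1) * Polynomial.X ^ (2 * S.K s + 2) else 0 := by
  have hC : ∀ s b s' b', Polynomial.C (Z s b) * Polynomial.C (Z s' b') = 0 := by
    intro s b s' b'
    rw [← Polynomial.C_mul, hZ, Polynomial.C_0]
  have hh : (Polynomial.C (algebraMap ℂ R (1 / 2)) : Polynomial R) * 2 = 1 := by
    rw [show (2 : Polynomial R) = Polynomial.C (algebraMap ℂ R 2) by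
      rw [map_ofNat, map_ofNat], ← Polynomial.C_mul, ← map_mul]
    norm_num
  -- multiplication by `D0`, `D2` on elements killed by the `Z`
  have hD0 : ∀ u : Polynomial R, (∀ s b, u * Polynomial.C (Z s b) = 0) →
      ∀ l : ℕ, u * D0 Z ^ l = u := by
    intro u hu l
    induction l with
    | zero => simp
    | succ l ih =>
      rw [pow_succ, ← mul_assoc, ih]
      unfold D0
      linear_combination (Polynomial.X ^ 2) * hu 1 1
  have hD2 : ∀ u : Polynomial R, (∀ s b, u * Polynomial.C (Z s b) = 0) →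
      ∀ l : ℕ, u * D2 Z ^ l = u * Polynomial.X ^ (2 * l) := by
    intro u hu l
    induction l with
    | zero => simp
    | succ l ih =>
      rw [pow_succ, ← mul_assoc, ih]
      unfold D2
      rw [show 2 * (l + 1) = 2 * l + 2 by ring, pow_add]
      linear_combination (Polynomial.X ^ (2 * l) * Polynomial.X) * hu 0 0 +
        (Polynomial.X ^ (2 * l) * Polynomial.X ^ 2) * hu 0 1
  have hcomb : ∀ u : Polynomial R, (∀ s b, u * Polynomial.C (Z s b) = 0) →
      ∀ a l : ℕ, u * D2 Z ^ a * D0 Z ^ l = u * Polynomial.X ^ (2 * a) := by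
    intro u hu a l
    rw [hD2 u hu, hD0 _ (fun s b => by rw [mul_right_comm, hu, zero_mul])]
  have hQ : D0 Z * D2 Z - D1 Z ^ 2 = Polynomial.C (Z 0 0) * Polynomial.X +
      Polynomial.C (Z 0 1) * Polynomial.X ^ 2 + Polynomial.C (Z 1 0) * Polynomial.X ^ 3 +
      Polynomial.C (Z 1 1) * Polynomial.X ^ 4 := by
    unfold D0 D2 D1
    rw [Polynomial.C_mul]
    linear_combination (Polynomial.X ^ 3) * hC 1 1 0 0 + (Polynomial.X ^ 4) * hC 1 1 0 1 -
      (Polynomial.X ^ 4 * Polynomial.C (algebraMap ℂ R (1 / 2)) ^ 2) * hC 1 0 1 0 +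
      (Polynomial.C (Z 1 0) * Polynomial.X ^ 3) * hh
  rw [sum_slots]
  unfold E0
  rw [hcomb _ (by
    intro s b
    rw [hQ]
    linear_combination Polynomial.X * hC 0 0 s b + Polynomial.X ^ 2 * hC 0 1 s b +
      Polynomial.X ^ 3 * hC 1 0 s b + Polynomial.X ^ 4 * hC 1 1 s b), hcomb _ (by
    intro s b
    unfold DY
    linear_combination Polynomial.X * hC 2 0 s b + Polynomial.X ^ 2 * hC 2 1 s b +
      Polynomial.X ^ 3 * hC 3 0 s b + Polynomial.X ^ 4 * hC 3 1 s b)]
  have hsum : (∑ m : Fin k, if S.J (m.addNat 4) = j then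
      Dm Z m * D2 Z ^ S.K (m.addNat 4) * D0 Z ^ (e j - 1 - S.K (m.addNat 4)) else 0) =
      ∑ m : Fin k, if S.J (m.addNat 4) = j then
        Polynomial.C (Z (m.addNat 4) 0) * Polynomial.X ^ (2 * S.K (m.addNat 4) + 1) +
        Polynomial.C (Z (m.addNat 4) 1) * Polynomial.X ^ (2 * S.K (m.addNat 4) + 2) else 0 := by
    apply Finset.sum_congr rfl
    intro m _
    split_ifs with h
    · rw [hcomb _ (by
        intro s b
        unfold Dm
        linear_combination Polynomial.X * hC (m.addNat 4) 0 s b +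
          Polynomial.X ^ 2 * hC (m.addNat 4) 1 s b)]
      unfold Dm
      rw [pow_succ, pow_add]
      ring
    · rfl
  rw [hsum]
  congr 1
  rw [S.J1, S.J3, S.K1, S.K3, hQ]
  unfold DY
  by_cases h0 : S.J 0 = j <;> by_cases h2 : S.J 2 = j <;> simp only [h0, h2, if_true, if_false]
    <;> ring

/-- Extraction of the unknowns from the linearised system. -/
lemma coeff_E0_nil (S : Slots k c e) (Z : Fin (k + 4) → Fin 2 → R)
    (hZ : ∀ s b s' b', Z s b * Z s' b' = 0) (s : Fin (k + 4)) (b : Fin 2) :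
    (E0 S Z (S.J s)).coeff (2 * S.K s + (b : ℕ) + 1) = Z s b := by
  rw [E0_nil S Z hZ, Polynomial.finsetSum_coeff, Finset.sum_eq_single s]
  · rw [if_pos rfl, Polynomial.coeff_add, Polynomial.coeff_C_mul_X_pow,
      Polynomial.coeff_C_mul_X_pow]
    fin_cases b
    · simp
    · simp
  · intro s' _ hs'
    split_ifs with h
    · rw [Polynomial.coeff_add, Polynomial.coeff_C_mul_X_pow, Polynomial.coeff_C_mul_X_pow]
      have hK : S.K s' ≠ S.K s := fun hK => hs' (S.inj _ _ h hK)
      have hb := b.2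
      rw [if_neg (by omega), if_neg (by omega), add_zero]
    · simp
  · intro h
    exact absurd (Finset.mem_univ _) h

end Data

/-- **The system.**  For all but countably many members of the pencil there is a conic. -/
theorem countable_special {k c : ℕ} {e : Fin c → ℕ} (S : Slots k c e)
    (F : Fin c → MvPolynomial (Fin (k + 3 + 1)) ℂ)
    (hF : ∀ j, (F j).IsWeightedHomogeneous (wt (k + 3) 2) (e j))
    (P : Fin (k + 3 + 1) → ℂ) (hP : ∀ j, eval P (F j) = 0) :
    Set.Countable {s : ℂ | ¬ ∃ Z : Fin (k + 4) → Fin 2 → ℂ, ∀ j,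
      Polynomial.C (1 - s) * E0 S Z j + Polynomial.C s * aeval (conicData P Z) (F j) = 0} := by
  classical
  set M := (k + 4) * 2 with hM
  let ν : Fin (k + 4) × Fin 2 ≃ Fin M := finProdFinEquiv
  let Z : Fin (k + 4) → Fin 2 → MvPolynomial (Option (Fin M)) ℂ := fun s b => X (some (ν (s, b)))
  let Pol : Fin c → Polynomial (MvPolynomial (Option (Fin M)) ℂ) := fun j =>
    Polynomial.C (1 - X none) * E0 S Z j +
      Polynomial.C (X none) * aeval (conicData (fun i => C (P i)) Z) (F j)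
  have hmap : ∀ (A : Type) [CommRing A] [Algebra ℂ A]
      (φ : MvPolynomial (Option (Fin M)) ℂ →ₐ[ℂ] A) (j : Fin c),
      (Pol j).map (φ : MvPolynomial (Option (Fin M)) ℂ →+* A) =
        Polynomial.C (1 - φ (X none)) * E0 S (fun s b => φ (Z s b)) j +
        Polynomial.C (φ (X none)) * aeval (conicData (fun i => algebraMap ℂ A (P i))
          (fun s b => φ (Z s b))) (F j) := by
    intro A _ _ φ j
    simp only [Pol, Polynomial.map_add, Polynomial.map_mul, Polynomial.map_C, map_E0, map_aeval]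
    have h1 : (fun i => (conicData (fun i => (C (P i) : MvPolynomial (Option (Fin M)) ℂ))
        Z i).map (φ : MvPolynomial (Option (Fin M)) ℂ →+* A)) =
        conicData (fun i => algebraMap ℂ A (P i)) (fun s b => φ (Z s b)) := by
      funext i
      rw [map_conicData]
      congr 2
      funext i
      exact φ.commutes (P i)
    rw [h1]
    simp
  let E : Fin M → MvPolynomial (Option (Fin M)) ℂ := fun i =>
    (Pol (S.J (ν.symm i).1)).coeff (2 * S.K (ν.symm i).1 + ((ν.symm i).2 : ℕ) + 1)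
  have hEv : ∀ (A : Type) [CommRing A] [Algebra ℂ A]
      (φ : MvPolynomial (Option (Fin M)) ℂ →ₐ[ℂ] A) (s : Fin (k + 4)) (b : Fin 2),
      φ (E (ν (s, b))) = ((Pol (S.J s)).map
        (φ : MvPolynomial (Option (Fin M)) ℂ →+* A)).coeff (2 * S.K s + (b : ℕ) + 1) := by
    intro A _ _ φ s b
    rw [Polynomial.coeff_map]
    simp only [E, Equiv.symm_apply_apply]
    rfl
  have heval : ∀ y : Option (Fin M) → ℂ, ((aeval y : MvPolynomial (Option (Fin M)) ℂ →ₐ[ℂ] ℂ) :
      MvPolynomial (Option (Fin M)) ℂ →+* ℂ) = eval y := by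
    intro y
    ext <;> simp
  refine (Pool.Agent.H84.countable_bad E ?_ (jac_of_test E ?_)).mono ?_
  · -- vanishing at the origin
    intro i
    obtain ⟨⟨s, b⟩, rfl⟩ := ν.surjective i
    have h1 := hEv ℂ (aeval 0) s b
    rw [hmap] at h1
    have h2 : ∀ a, (aeval (0 : Option (Fin M) → ℂ) : MvPolynomial (Option (Fin M)) ℂ →ₐ[ℂ] ℂ) a =
        eval 0 a := fun a => by rw [← heval]; rfl
    rw [h2] at h1
    rw [h1]
    have h3 : (aeval (0 : Option (Fin M) → ℂ) : MvPolynomial (Option (Fin M)) ℂ →ₐ[ℂ] ℂ)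
        (X none) = 0 := by simp
    have h4 : ∀ s b, (aeval (0 : Option (Fin M) → ℂ) :
        MvPolynomial (Option (Fin M)) ℂ →ₐ[ℂ] ℂ) (Z s b) = 0 := by
      intro s b
      simp [Z]
    simp only [h3, h4, sub_zero, Polynomial.C_1, one_mul, Polynomial.C_0, zero_mul, add_zero]
    exact coeff_E0_nil (R := ℂ) S (fun _ _ => 0) (by simp) s b
  · intro A _ _ ψ hψ0 hψ2 hψE i
    obtain ⟨⟨s, b⟩, rfl⟩ := ν.surjective i
    have h1 := hEv A ψ s b
    rw [hψE, hmap, hψ0] at h1
    simp only [sub_zero, Polynomial.C_1, one_mul, Polynomial.C_0, zero_mul, add_zero] at h1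
    rw [coeff_E0_nil (R := A) S (fun s b => ψ (Z s b)) (fun s b s' b' => hψ2 _ _)] at h1
    exact h1.symm
  · intro s hs hcon
    apply hs
    obtain ⟨y, hys, hy⟩ := hcon
    refine ⟨fun s b => y (some (ν (s, b))), fun j => ?_⟩
    have h1 := hmap ℂ (aeval y) j
    have h3 : (aeval y : MvPolynomial (Option (Fin M)) ℂ →ₐ[ℂ] ℂ) (X none) = s := by
      rw [aeval_X, hys]
    have h4 : ∀ s b, (aeval y : MvPolynomial (Option (Fin M)) ℂ →ₐ[ℂ] ℂ) (Z s b) =
        y (some (ν (s, b))) := by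
      intro s b
      simp [Z]
    simp only [h3, h4] at h1
    have h5 : conicData (fun i => algebraMap ℂ ℂ (P i)) (fun s b => y (some (ν (s, b)))) =
        conicData P (fun s b => y (some (ν (s, b)))) := rfl
    rw [h5] at h1
    rw [← h1]
    ext i
    rw [Polynomial.coeff_zero]
    rcases Nat.eq_zero_or_pos i with rfl | hi
    · rw [h1, Polynomial.coeff_zero_eq_eval_zero, Polynomial.eval_add, Polynomial.eval_mul,
        Polynomial.eval_mul, eval_E0_zero, eval_aeval, eval_conicData_zero, hP]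
      simp
    · by_cases hie : i ≤ 2 * e j
      · obtain ⟨s₀, hs1, hs2⟩ := S.surj j ((i - 1) / 2) (by omega)
        have hb : (i - 1) % 2 < 2 := Nat.mod_lt _ (by norm_num)
        have h6 := hEv ℂ (aeval y) s₀ ⟨(i - 1) % 2, hb⟩
        rw [hs1, hs2] at h6
        have h7 : 2 * ((i - 1) / 2) + (((⟨(i - 1) % 2, hb⟩ : Fin 2)) : ℕ) + 1 = i := by
          show 2 * ((i - 1) / 2) + (i - 1) % 2 + 1 = i
          omega
        rw [h7] at h6
        rw [← h6]
        have h8 := hy (ν (s₀, ⟨(i - 1) % 2, hb⟩))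
        rw [← heval] at h8
        exact h8
      · rw [h1]
        apply Polynomial.coeff_eq_zero_of_natDegree_lt
        refine lt_of_le_of_lt ((Polynomial.natDegree_add_le _ _).trans (max_le
          ((Polynomial.natDegree_C_mul_le _ _).trans (natDegree_E0 S _ j))
          ((Polynomial.natDegree_C_mul_le _ _).trans
            (natDegree_aeval_le (hF j) _ (natDegree_conicData _ _))))) (by omega)

end Pool.Agent.H86.Refl
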