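import Mathlib
import Pool.Agent.H86.Refl.Special

/-!
# Existence of a distribution of the slots
-/

set_option autoImplicit false

namespace Pool.Agent.H86.Refl

/-- A bijection with four prescribed values. -/
lemma exists_bijection {k : ℕ} {β : Type*} [Fintype β] [DecidableEq β]
    (hcard : Fintype.card β = k + 4) (a0 a1 a2 a3 : β) (h01 : a0 ≠ a1) (h02 : a0 ≠ a2)
    (h03 : a0 ≠ a3) (h12 : a1 ≠ a2) (h13 : a1 ≠ a3) (h23 : a2 ≠ a3) :
    ∃ g : Fin (k + 4) → β, Function.Bijective g ∧ g 0 = a0 ∧ g 1 = a1 ∧ g 2 = a2 ∧ g 3 = a3 := by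
  classical
  let f : Fin (k + 4) → β := Fin.cons a0 (Fin.cons a1 (Fin.cons a2 (Fin.cons a3 (fun _ => a0))))
  have f0 : f 0 = a0 := rfl
  have f1 : f 1 = a1 := rfl
  have f2 : f 2 = a2 := rfl
  have f3 : f 3 = a3 := rfl
  obtain ⟨g, hg⟩ := Finset.exists_equiv_extend_of_card_eq (α := Fin (k + 4)) (β := β)
    (t := Finset.univ) (by rw [Fintype.card_fin, Finset.card_univ, hcard])
    (s := {0, 1, 2, 3}) (f := f) (Finset.subset_univ _) (by
      intro x hx y hy hxy
      simp only [Finset.coe_insert, Finset.coe_singleton, Set.mem_insert_iff,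
        Set.mem_singleton_iff] at hx hy
      rcases hx with rfl | rfl | rfl | rfl <;> rcases hy with rfl | rfl | rfl | rfl <;>
        first
        | rfl
        | (exfalso
           simp only [f0, f1, f2, f3] at hxy
           first
           | exact h01 hxy
           | exact h01 hxy.symm
           | exact h02 hxy
           | exact h02 hxy.symm
           | exact h03 hxy
           | exact h03 hxy.symm
           | exact h12 hxy
           | exact h12 hxy.symm
           | exact h13 hxy
           | exact h13 hxy.symm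
           | exact h23 hxy
           | exact h23 hxy.symm))
  refine ⟨fun i => (g i : β), ⟨?_, ?_⟩, ?_, ?_, ?_, ?_⟩
  · intro x y hxy
    exact g.injective (Subtype.ext hxy)
  · intro b
    obtain ⟨x, hx⟩ := g.surjective ⟨b, Finset.mem_univ b⟩
    exact ⟨x, by simp only [hx]⟩
  · exact (hg 0 (by simp)).trans f0
  · exact (hg 1 (by simp)).trans f1
  · exact (hg 2 (by simp)).trans f2
  · exact (hg 3 (by simp)).trans f3

lemma exists_slots {k c : ℕ} (e : Fin c → ℕ) (hsum : ∑ j, e j = k + 4) (hc : c ≤ k + 1) :
    Nonempty (Slots k c e) := by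
  classical
  obtain ⟨j₁, j₂, a, b, ha, hb, hne⟩ : ∃ (j₁ j₂ : Fin c) (a b : ℕ), a + 1 < e j₁ ∧ b + 1 < e j₂ ∧
      ∀ i i' : ℕ, i < 2 → i' < 2 → ¬ (j₁ = j₂ ∧ a + i = b + i') := by
    by_cases h4 : ∃ j, 4 ≤ e j
    · obtain ⟨j, hj⟩ := h4
      exact ⟨j, j, 0, 2, by omega, by omega, fun i i' hi hi' h => by omega⟩
    · push Not at h4
      by_cases h2 : ∃ j, 2 ≤ e j
      · obtain ⟨j, hj⟩ := h2
        by_cases h2' : ∃ j', j' ≠ j ∧ 2 ≤ e j'
        · obtain ⟨j', hjj', hj'⟩ := h2'
          exact ⟨j, j', 0, 0, by omega, by omega, fun i i' _ _ h => hjj' h.1.symm⟩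
        · exfalso
          push Not at h2'
          have h5 : ∑ i, e i ≤ ∑ i : Fin c, (if i = j then 3 else 1) := by
            apply Finset.sum_le_sum
            intro i _
            split_ifs with h
            · have := h4 i
              omega
            · have := h2' i h
              omega
          have h6 : ∑ i : Fin c, (if i = j then 3 else 1) = c + 2 := by
            have h7 : ∀ i : Fin c, (if i = j then 3 else 1) = 1 + (if i = j then 2 else 0) := by
              intro i
              split_ifs <;> rfl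
            simp only [h7, Finset.sum_add_distrib]
            simp
          omega
      · exfalso
        push Not at h2
        have h5 : ∑ i, e i ≤ ∑ _i : Fin c, 1 := by
          apply Finset.sum_le_sum
          intro i _
          have := h2 i
          omega
        simp at h5
        omega
  have hcard : Fintype.card (Σ j : Fin c, Fin (e j)) = k + 4 := by
    simp [hsum]
  obtain ⟨g, hg, g0, g1, g2, g3⟩ := exists_bijection hcard
    (⟨j₁, ⟨a, by omega⟩⟩ : Σ j : Fin c, Fin (e j)) ⟨j₁, ⟨a + 1, ha⟩⟩ ⟨j₂, ⟨b, by omega⟩⟩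
    ⟨j₂, ⟨b + 1, hb⟩⟩ (by
      intro h
      rw [Sigma.mk.injEq] at h
      have := eq_of_heq h.2
      rw [Fin.mk.injEq] at this
      omega) (by
      intro h
      rw [Sigma.mk.injEq] at h
      obtain ⟨h1, h2⟩ := h
      subst h1
      have := eq_of_heq h2
      rw [Fin.mk.injEq] at this
      exact hne 0 0 (by norm_num) (by norm_num) ⟨rfl, by omega⟩) (by
      intro h
      rw [Sigma.mk.injEq] at h
      obtain ⟨h1, h2⟩ := h
      subst h1
      have := eq_of_heq h2
      rw [Fin.mk.injEq] at this
      exact hne 0 1 (by norm_num) (by norm_num) ⟨rfl, by omega⟩) (by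
      intro h
      rw [Sigma.mk.injEq] at h
      obtain ⟨h1, h2⟩ := h
      subst h1
      have := eq_of_heq h2
      rw [Fin.mk.injEq] at this
      exact hne 1 0 (by norm_num) (by norm_num) ⟨rfl, by omega⟩) (by
      intro h
      rw [Sigma.mk.injEq] at h
      obtain ⟨h1, h2⟩ := h
      subst h1
      have := eq_of_heq h2
      rw [Fin.mk.injEq] at this
      exact hne 1 1 (by norm_num) (by norm_num) ⟨rfl, by omega⟩) (by
      intro h
      rw [Sigma.mk.injEq] at h
      have := eq_of_heq h.2
      rw [Fin.mk.injEq] at this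
      omega)
  refine ⟨{ J := fun s => (g s).1, K := fun s => ((g s).2 : ℕ), lt := fun s => (g s).2.2,
            inj := ?_, surj := ?_, J1 := ?_, K1 := ?_, J3 := ?_, K3 := ?_ }⟩
  · intro s s' h1 h2
    apply hg.1
    revert h1 h2
    generalize g s = x
    generalize g s' = y
    obtain ⟨x1, x2⟩ := x
    obtain ⟨y1, y2⟩ := y
    intro h1 h2
    simp only at h1
    subst h1
    simp only at h2
    have : x2 = y2 := Fin.ext h2
    rw [this]
  · intro j a ha
    obtain ⟨s, hs⟩ := hg.2 ⟨j, ⟨a, ha⟩⟩
    exact ⟨s, by rw [hs], by rw [hs]⟩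
  · simp only [g0, g1]
  · rw [g0, g1]
  · simp only [g2, g3]
  · rw [g2, g3]

end Pool.Agent.H86.Refl
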