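import Mathlib
import Pool.Agent.H86.Refl.Slots
import Pool.Agent.H86.Refl.Limit

/-!
# Conics through every point
-/

set_option autoImplicit false

open Filter Topology

namespace Pool.Agent.H86.Refl

open MvPolynomial

section Pencil

variable {k c : ℕ} {e : Fin c → ℕ}

/-- The special system as a function on the ambient space. -/
noncomputable def G0 (S : Slots k c e) (P z : Fin (k + 3 + 1) → ℂ) (j : Fin c) : ℂ :=
  (if S.J 0 = j then (z 0 / P 0 * (z (Fin.castSucc 2) - P (Fin.castSucc 2) * (z 0 / P 0)) -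
      (z (Fin.castSucc 1) - P (Fin.castSucc 1) * (z 0 / P 0)) ^ 2) *
      (z (Fin.castSucc 2) - P (Fin.castSucc 2) * (z 0 / P 0)) ^ S.K 0 *
      (z 0 / P 0) ^ (e j - 2 - S.K 0) else 0) +
    (if S.J 2 = j then (z (Fin.last (k + 3)) - P (Fin.last (k + 3)) * (z 0 / P 0) ^ 2) *
      (z (Fin.castSucc 2) - P (Fin.castSucc 2) * (z 0 / P 0)) ^ S.K 2 *
      (z 0 / P 0) ^ (e j - 2 - S.K 2) else 0) +
    ∑ m : Fin k, if S.J (m.addNat 4) = j then
      (z (Fin.castSucc m.succ.succ.succ) - P (Fin.castSucc m.succ.succ.succ) * (z 0 / P 0)) *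
      (z (Fin.castSucc 2) - P (Fin.castSucc 2) * (z 0 / P 0)) ^ S.K (m.addNat 4) *
      (z 0 / P 0) ^ (e j - 1 - S.K (m.addNat 4)) else 0

lemma continuous_G0 (S : Slots k c e) (P : Fin (k + 3 + 1) → ℂ) (j : Fin c) :
    Continuous fun z => G0 S P z j := by
  unfold G0
  refine Continuous.add (Continuous.add ?_ ?_) ?_
  · split_ifs
    · fun_prop
    · exact continuous_const
  · split_ifs
    · fun_prop
    · exact continuous_const
  · refine continuous_finsetSum _ fun m _ => ?_
    split_ifs
    · fun_prop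
    · exact continuous_const

lemma wt_zero (k : ℕ) : wt (k + 3) 2 0 = 1 := wt_castSucc (k + 3) 2 0

lemma G0_scale (S : Slots k c e) (P z : Fin (k + 3 + 1) → ℂ) (j : Fin c) (l : ℂ) :
    G0 S P (fun i => l ^ wt (k + 3) 2 i * z i) j = l ^ e j * G0 S P z j := by
  have h0 : (l * z 0) / P 0 = l * (z 0 / P 0) := by ring
  unfold G0
  simp only [wt_castSucc, wt_last, wt_zero, pow_one, h0, mul_add, Finset.mul_sum]
  congr 1
  · congr 1
    · split_ifs with h
      · have hl := S.lt 1
        rw [S.J1, S.K1, h] at hl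
        obtain ⟨q, hq⟩ : ∃ q, e j = q + S.K 0 + 2 := ⟨e j - 2 - S.K 0, by omega⟩
        rw [hq, show q + S.K 0 + 2 - 2 - S.K 0 = q by omega]
        generalize z 0 / P 0 = d
        have e1 : l * z (Fin.castSucc 2) - P (Fin.castSucc 2) * (l * d) =
            l * (z (Fin.castSucc 2) - P (Fin.castSucc 2) * d) := by ring
        have e2 : l * z (Fin.castSucc 1) - P (Fin.castSucc 1) * (l * d) =
            l * (z (Fin.castSucc 1) - P (Fin.castSucc 1) * d) := by ring
        rw [e1, e2]
        simp only [mul_pow]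
        ring
      · simp
    · split_ifs with h
      · have hl := S.lt 3
        rw [S.J3, S.K3, h] at hl
        obtain ⟨q, hq⟩ : ∃ q, e j = q + S.K 2 + 2 := ⟨e j - 2 - S.K 2, by omega⟩
        rw [hq, show q + S.K 2 + 2 - 2 - S.K 2 = q by omega]
        generalize z 0 / P 0 = d
        have e1 : l * z (Fin.castSucc 2) - P (Fin.castSucc 2) * (l * d) =
            l * (z (Fin.castSucc 2) - P (Fin.castSucc 2) * d) := by ring
        rw [e1]
        simp only [mul_pow]
        ring
      · simp
  · apply Finset.sum_congr rfl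
    intro m _
    split_ifs with h
    · have hl := S.lt (m.addNat 4)
      rw [h] at hl
      obtain ⟨q, hq⟩ : ∃ q, e j = q + S.K (m.addNat 4) + 1 :=
        ⟨e j - 1 - S.K (m.addNat 4), by omega⟩
      rw [hq, show q + S.K (m.addNat 4) + 1 - 1 - S.K (m.addNat 4) = q by omega]
      generalize z 0 / P 0 = d
      have e1 : l * z (Fin.castSucc 2) - P (Fin.castSucc 2) * (l * d) =
          l * (z (Fin.castSucc 2) - P (Fin.castSucc 2) * d) := by ring
      have e2 : l * z (Fin.castSucc m.succ.succ.succ) -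
          P (Fin.castSucc m.succ.succ.succ) * (l * d) =
          l * (z (Fin.castSucc m.succ.succ.succ) - P (Fin.castSucc m.succ.succ.succ) * d) := by
        ring
      rw [e1, e2]
      simp only [mul_pow]
      ring
    · simp

lemma G0_conicData (S : Slots k c e) (P : Fin (k + 3 + 1) → ℂ) (hP : P 0 ≠ 0)
    (Z : Fin (k + 4) → Fin 2 → ℂ) (j : Fin c) (t : ℂ) :
    G0 S P (fun i => (conicData P Z i).eval t) j = (E0 S Z j).eval t := by
  have h0 : (conicData P Z 0).eval t / P 0 = (D0 Z).eval t := by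
    have h1 : conicData P Z 0 = Polynomial.C (P 0) * D0 Z + 0 := by
      unfold conicData
      exact Fin.snoc_castSucc (α := fun _ => Polynomial ℂ) _ _ (0 : Fin (k + 3))
    rw [h1, add_zero, Polynomial.eval_mul, Polynomial.eval_C, mul_div_cancel_left₀ _ hP]
  have hi : ∀ i : Fin (k + 3), (conicData P Z i.castSucc).eval t - P i.castSucc *
      (D0 Z).eval t = (DX Z i).eval t := by
    intro i
    unfold conicData
    rw [Fin.snoc_castSucc]
    simp
  have hlast : (conicData P Z (Fin.last (k + 3))).eval t - P (Fin.last (k + 3)) *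
      (D0 Z).eval t ^ 2 = (DY Z).eval t := by
    unfold conicData
    rw [Fin.snoc_last]
    simp
  unfold G0 E0
  simp only [h0, hi, hlast, Polynomial.eval_add, Polynomial.eval_finsetSum,
    apply_ite (Polynomial.eval t), Polynomial.eval_mul, Polynomial.eval_sub, Polynomial.eval_pow,
    Polynomial.eval_zero]
  rfl

lemma continuous_cxT {n : ℕ} (P : Fin (n + 1) → ℂ) (α β : ℂ) (a b : Fin n → ℂ) (y : Fin 4 → ℂ)
    (S : ℂ) : Continuous (fun T => cx P α β a b y S T) := by
  apply continuous_pi
  intro i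
  refine Fin.lastCases ?_ (fun i => ?_) i
  · simp only [cx_last]
    fun_prop
  · simp only [cx_castSucc]
    fun_prop

/-- **Conics.**  Through every point `P` with `P 0 ≠ 0` of a complete intersection of total
degree `k + 4` in `P(1, …, 1, 2)` (`k + 3` variables of weight one) passes a conic. -/
theorem exists_conic (hsum : ∑ j, e j = k + 4) (hc : c ≤ k + 1)
    (F : Fin c → MvPolynomial (Fin (k + 3 + 1)) ℂ)
    (hF : ∀ j, (F j).IsWeightedHomogeneous (wt (k + 3) 2) (e j))
    (P : Fin (k + 3 + 1) → ℂ) (hP0 : P 0 ≠ 0) (hP : ∀ j, eval P (F j) = 0) :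
    ∃ (α β : ℂ) (a b : Fin (k + 3) → ℂ) (y : Fin 4 → ℂ), a 0 = 0 ∧ b 0 = 0 ∧
      ¬ (a = 0 ∧ b = 0 ∧ y = 0) ∧ ∀ j S T, eval (cx P α β a b y S T) (F j) = 0 := by
  classical
  obtain ⟨S⟩ := exists_slots e hsum hc
  let Φ : Fin c → ℂ → (Fin (k + 3 + 1) → ℂ) → ℂ := fun j s z =>
    (1 - s) * G0 S P z j + s * eval z (F j)
  have hcontF : ∀ j, Continuous fun z : Fin (k + 3 + 1) → ℂ => eval z (F j) :=
    fun j => MvPolynomial.continuous_eval (F j)
  have hcont : ∀ j, Continuous fun q : ℂ × (Fin (k + 3 + 1) → ℂ) => Φ j q.1 q.2 := by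
    intro j
    have h1 := (continuous_G0 S P j).comp (continuous_snd (X := ℂ))
    have h2 := (hcontF j).comp (continuous_snd (X := ℂ))
    simp only [Function.comp_def] at h1 h2
    simp only [Φ]
    fun_prop
  have hhom : ∀ j s l z, Φ j s (fun i => l ^ wt (k + 3) 2 i * z i) = l ^ e j * Φ j s z := by
    intro j s l z
    simp only [Φ]
    rw [G0_scale, eval_scale (hF j)]
    ring
  have hclosed := isClosed_good (P := P) (ℓ := (0 : Fin (k + 3))) hcont hhom
  have hcount := countable_special S F hF P hP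
  have hdense := hcount.dense_compl ℂ
  have hsub : {s : ℂ | ¬ ∃ Z : Fin (k + 4) → Fin 2 → ℂ, ∀ j,
      Polynomial.C (1 - s) * E0 S Z j + Polynomial.C s * aeval (conicData P Z) (F j) = 0}ᶜ ⊆
      {s | Good Φ P (0 : Fin (k + 3)) s} := by
    intro s hs
    simp only [Set.mem_compl_iff, Set.mem_ofPred_eq, not_not] at hs
    obtain ⟨Z, hZ⟩ := hs
    let a : Fin (k + 3) → ℂ :=
      Fin.cons 0 (Fin.cons 1 (Fin.cons (Z 0 0) (fun m => Z (m.addNat 4) 0)))
    let b : Fin (k + 3) → ℂ :=
      Fin.cons 0 (Fin.cons (-(1 / 2 * Z 1 0)) (Fin.cons (1 + Z 0 1) (fun m => Z (m.addNat 4) 1)))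
    let y : Fin 4 → ℂ := ![Z 2 0, Z 2 1, Z 3 0, Z 3 1]
    have hdata : ∀ t, (fun i => (conicData P Z i).eval t) = cx P 0 (Z 1 1) a b y t 1 := by
      intro t
      funext i
      unfold conicData
      refine Fin.lastCases ?_ (fun i => ?_) i
      · rw [cx_last, Fin.snoc_last]
        simp [D0, DY, y]
        ring
      · rw [cx_castSucc, Fin.snoc_castSucc]
        rcases cases3 i with rfl | rfl | rfl | ⟨m, rfl⟩
        · have e1 : a 0 = 0 := rfl
          have e2 : b 0 = 0 := rfl
          rw [DX_zero, e1, e2]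
          simp [D0]
        · have e1 : a 1 = 1 := rfl
          have e2 : b 1 = -(1 / 2 * Z 1 0) := rfl
          rw [DX_one, e1, e2]
          simp [D0, D1]
          ring
        · have e1 : a 2 = Z 0 0 := rfl
          have e2 : b 2 = 1 + Z 0 1 := rfl
          rw [DX_two, e1, e2]
          simp [D0, D2]
          ring
        · have e1 : a m.succ.succ.succ = Z (m.addNat 4) 0 := rfl
          have e2 : b m.succ.succ.succ = Z (m.addNat 4) 1 := rfl
          rw [DX_succ, e1, e2]
          simp [D0, Dm]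
          ring
    have h1 : ∀ j t, Φ j s (cx P 0 (Z 1 1) a b y t 1) = 0 := by
      intro j t
      have h2 := congrArg (Polynomial.eval t) (hZ j)
      rw [Polynomial.eval_add, Polynomial.eval_mul, Polynomial.eval_mul, Polynomial.eval_C,
        Polynomial.eval_C, eval_aeval, ← G0_conicData S P hP0 Z j t, hdata,
        Polynomial.eval_zero] at h2
      exact h2
    refine ⟨0, Z 1 1, a, b, y, rfl, rfl, ?_, ?_⟩
    · rintro ⟨h3, -, -⟩
      have h4 : a 1 = 1 := rfl
      rw [h3] at h4
      exact zero_ne_one h4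
    · intro j S' T
      have hTne : ∀ T : ℂ, T ≠ 0 → Φ j s (cx P 0 (Z 1 1) a b y S' T) = 0 := by
        intro T hT
        have h5 : (fun i => (T ^ 2) ^ wt (k + 3) 2 i * cx P 0 (Z 1 1) a b y (S' / T) 1 i) =
            cx P 0 (Z 1 1) a b y S' T := by
          funext i
          refine Fin.lastCases ?_ (fun i => ?_) i
          · rw [cx_last, cx_last, wt_last]
            field_simp
          · rw [cx_castSucc, cx_castSucc, wt_castSucc]
            field_simp
        rw [← h5, hhom, h1, mul_zero]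
      by_cases hT : T = 0
      · have h6 : (fun T => Φ j s (cx P 0 (Z 1 1) a b y S' T)) = fun _ => 0 := by
          apply Continuous.ext_on (dense_compl_singleton (0 : ℂ)) _ continuous_const
          · intro T hT
            exact hTne T hT
          · exact Continuous.comp (g := fun q : ℂ × (Fin (k + 3 + 1) → ℂ) => Φ j q.1 q.2)
              (f := fun T => (s, cx P 0 (Z 1 1) a b y S' T)) (hcont j)
              (continuous_const.prodMk (continuous_cxT _ _ _ _ _ _ _))
        exact congrFun h6 T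
      · exact hTne T hT
  have huniv : {s | Good Φ P (0 : Fin (k + 3)) s} = Set.univ := by
    rw [← hclosed.closure_eq]
    exact (hdense.mono hsub).closure_eq
  have h1 : (1 : ℂ) ∈ {s | Good Φ P (0 : Fin (k + 3)) s} := by
    rw [huniv]
    trivial
  obtain ⟨α, β, a, b, y, ha, hb, hne, hsol⟩ := h1
  refine ⟨α, β, a, b, y, ha, hb, hne, fun j S' T => ?_⟩
  have h2 := hsol j S' T
  simp only [Φ, sub_self, zero_mul, one_mul, zero_add] at h2
  exact h2

end Pencil

end Pool.Agent.H86.Refl
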