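import Mathlib

/-!
# Special sets of a projective set

Definitions of `Sp_h` and `Sp_p` for a Zariski closed subset of complex projective space.
-/

set_option autoImplicit false

open Filter Topology

namespace Pool.Agent.H86.Refl

open scoped LinearAlgebra.Projectivization

/-- Complex projective space `P^N`: the set of lines through the origin in `ℂ^(N+1)`. -/
abbrev PSpace (N : ℕ) : Type := ℙ ℂ (Fin (N + 1) → ℂ)

/-- The (homogeneous) polynomial `G` vanishes at the point `p` of `P^N`. -/
def VanishesAt {N : ℕ} (G : MvPolynomial (Fin (N + 1)) ℂ) (p : PSpace N) : Prop :=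
  MvPolynomial.eval p.rep G = 0

/-- The projective set `X = {G_1 = … = G_c = 0}` in `P^N`. -/
def projectiveSet {N c : ℕ} (G : Fin c → MvPolynomial (Fin (N + 1)) ℂ) : Set (PSpace N) :=
  {p | ∀ i, VanishesAt (G i) p}

/-- The Zariski closure in `X ⊆ P^N` of a subset `S` of `X`. -/
def zariskiClosureIn {N : ℕ} (X S : Set (PSpace N)) : Set (PSpace N) :=
  {p | p ∈ X ∧ ∀ (m : ℕ) (Q : MvPolynomial (Fin (N + 1)) ℂ), Q.IsHomogeneous m →
    (∀ s ∈ S, VanishesAt Q s) → VanishesAt Q p}

/-- The map `f` to `P^N` is holomorphic at `z`: near `z` it is given by homogeneous coordinates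
that are holomorphic and have no common zero. -/
def HolomorphicAt {N : ℕ} (f : ℂ → PSpace N) (z : ℂ) : Prop :=
  ∃ φ : ℂ → (Fin (N + 1) → ℂ), AnalyticAt ℂ φ z ∧
    ∀ᶠ w in 𝓝 z, ∃ h : φ w ≠ 0, f w = Projectivization.mk ℂ (φ w) h

/-- The points of `X` on the images of the non-constant holomorphic maps `ℂ → X`. -/
def entirePoints {N : ℕ} (X : Set (PSpace N)) : Set (PSpace N) :=
  {x | ∃ f : ℂ → PSpace N, (∀ z, HolomorphicAt f z) ∧ (∀ z, f z ∈ X) ∧
    (∃ z w, f z ≠ f w) ∧ ∃ z, f z = x}

/-- The points of `X` on the images of the holomorphic maps from the punctured unit disc to `X`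
which have an essential singularity at `0`, that is, do not extend to a holomorphic map from the
unit disc to `P^N` (equivalently to `X`, if `X` is closed). -/
def puncturedPoints {N : ℕ} (X : Set (PSpace N)) : Set (PSpace N) :=
  {x | ∃ f : ℂ → PSpace N,
    (∀ z, 0 < ‖z‖ → ‖z‖ < 1 → HolomorphicAt f z ∧ f z ∈ X) ∧
    (¬ ∃ g : ℂ → PSpace N, (∀ z, ‖z‖ < 1 → HolomorphicAt g z) ∧
      ∀ z, 0 < ‖z‖ → ‖z‖ < 1 → g z = f z) ∧
    ∃ z, 0 < ‖z‖ ∧ ‖z‖ < 1 ∧ f z = x}

/-- `Sp_h(X)`: the Zariski closure in `X` of the union of the images of the non-constant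
holomorphic maps `ℂ → X`. -/
def SpH {N : ℕ} (X : Set (PSpace N)) : Set (PSpace N) := zariskiClosureIn X (entirePoints X)

/-- `Sp_p(X)`: the Zariski closure in `X` of the union of the images of the holomorphic maps from
the punctured unit disc to `X` with an essential singularity at `0`. -/
def SpP {N : ℕ} (X : Set (PSpace N)) : Set (PSpace N) := zariskiClosureIn X (puncturedPoints X)

end Pool.Agent.H86.Refl
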