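import Mathlib
import Pool.Agent.H86.Refl.Defs
import Pool.Agent.H86.Refl.Basic
import Pool.Agent.H84.CurveFlow

/-!
# Entire curves from parametrised curves of genus at most one
-/

set_option autoImplicit false

open Filter Topology

namespace Pool.Agent.H86.Refl

open MvPolynomial

lemma eval_smul_homogeneous {n m : ℕ} {G : MvPolynomial (Fin n) ℂ} (hG : G.IsHomogeneous m)
    (a : ℂ) (v : Fin n → ℂ) : eval (a • v) G = a ^ m * eval v G := by
  rw [eval_eq', eval_eq', Finset.mul_sum]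
  apply Finset.sum_congr rfl
  intro d hd
  have hdeg : ∑ i, d i = m := by
    have := hG (mem_support_iff.mp hd)
    rw [← this, Finsupp.weight_apply, Finsupp.sum_fintype]
    · simp
    · simp
  have : ∏ i, (a • v) i ^ d i = a ^ m * ∏ i, v i ^ d i := by
    simp only [Pi.smul_apply, smul_eq_mul, mul_pow]
    rw [Finset.prod_mul_distrib, Finset.prod_pow_eq_pow_sum, hdeg]
  rw [this]
  ring

lemma vanishesAt_mk {N m : ℕ} {G : MvPolynomial (Fin (N + 1)) ℂ} (hG : G.IsHomogeneous m)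
    (v : Fin (N + 1) → ℂ) (hv : v ≠ 0) :
    VanishesAt G (Projectivization.mk ℂ v hv) ↔ eval v G = 0 := by
  obtain ⟨a, ha⟩ := Projectivization.exists_smul_eq_mk_rep ℂ v hv
  unfold VanishesAt
  rw [← ha]
  have : (a • v : Fin (N + 1) → ℂ) = (a : ℂ) • v := rfl
  rw [this, eval_smul_homogeneous hG]
  simp

lemma mk_eq_of_smul {N : ℕ} {v w : Fin (N + 1) → ℂ} (hv : v ≠ 0) (hw : w ≠ 0) (a : ℂ)
    (h : v = a • w) : Projectivization.mk ℂ v hv = Projectivization.mk ℂ w hw :=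
  (Projectivization.mk_eq_mk_iff' ℂ v w hv hw).mpr ⟨a, h.symm⟩

/-- Removal of common zeros of local homogeneous coordinates. -/
theorem exists_extension {N : ℕ} (R : ℂ → Fin (N + 1) → ℂ)
    (hR : ∀ z₀, ∃ φ : ℂ → Fin (N + 1) → ℂ, AnalyticAt ℂ φ z₀ ∧
      ∀ᶠ z in 𝓝 z₀, ∃ c : ℂ, c ≠ 0 ∧ φ z = c • R z) {z₁ : ℂ} (h0 : R z₁ ≠ 0) :
    ∃ F : ℂ → PSpace N, (∀ z, HolomorphicAt F z) ∧
      (∀ z (h : R z ≠ 0), F z = Projectivization.mk ℂ (R z) h) ∧
      ∀ (m : ℕ) (G : MvPolynomial (Fin (N + 1)) ℂ), G.IsHomogeneous m →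
        (∀ z, eval (R z) G = 0) → ∀ z, VanishesAt G (F z) := by
  classical
  choose φ hφ hφR using hR
  -- `R` is nowhere locally zero
  have hdich : ∀ z₀, (∀ᶠ z in 𝓝 z₀, R z = 0) ∨ (∀ᶠ z in 𝓝[≠] z₀, R z ≠ 0) := by
    intro z₀
    rcases (hφ z₀).eventually_eq_zero_or_eventually_ne_zero with h | h
    · left
      filter_upwards [h, hφR z₀] with z hz1 hz2
      obtain ⟨c, hc, hcz⟩ := hz2
      rw [hz1] at hcz
      exact (smul_eq_zero.mp hcz.symm).resolve_left hc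
    · right
      filter_upwards [h, (hφR z₀).filter_mono nhdsWithin_le_nhds] with z hz1 hz2
      obtain ⟨c, hc, hcz⟩ := hz2
      intro h3
      rw [h3, smul_zero] at hcz
      exact hz1 hcz
  have hclopen : IsClopen {z | ∀ᶠ y in 𝓝 z, R y = 0} := by
    refine ⟨?_, isOpen_setOfPred_eventually_nhds⟩
    rw [← isOpen_compl_iff, isOpen_iff_mem_nhds]
    intro z hz
    have h1 : ∀ᶠ y in 𝓝[≠] z, R y ≠ 0 := (hdich z).resolve_left hz
    rw [eventually_nhdsWithin_iff] at h1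
    filter_upwards [h1] with y hy
    by_cases hyz : y = z
    · rw [hyz]
      exact hz
    · intro h2
      have h3 : ∀ᶠ x in 𝓝 y, R x = 0 := h2
      exact hy hyz h3.self_of_nhds
  have hne : ∀ z₀, ∀ᶠ z in 𝓝[≠] z₀, R z ≠ 0 := by
    intro z₀
    refine (hdich z₀).resolve_left ?_
    intro h
    have h1 : {z | ∀ᶠ y in 𝓝 z, R y = 0} = Set.univ :=
      hclopen.eq_univ ⟨z₀, h⟩
    have h2 : z₁ ∈ {z | ∀ᶠ y in 𝓝 z, R y = 0} := by
      rw [h1]
      trivial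
    have h3 : ∀ᶠ y in 𝓝 z₁, R y = 0 := h2
    exact h0 h3.self_of_nhds
  -- factorisation
  have hfac : ∀ z₀, ∃ (n : ℕ) (ψ : ℂ → Fin (N + 1) → ℂ), AnalyticAt ℂ ψ z₀ ∧ ψ z₀ ≠ 0 ∧
      ∀ᶠ z in 𝓝 z₀, φ z₀ z = (z - z₀) ^ n • ψ z := by
    intro z₀
    rw [(hφ z₀).exists_eventuallyEq_pow_smul_nonzero_iff]
    intro h
    have h1 : ∀ᶠ z in 𝓝[≠] z₀, R z ≠ 0 := hne z₀
    have h2 : ∀ᶠ z in 𝓝[≠] z₀, R z = 0 := by
      filter_upwards [h.filter_mono nhdsWithin_le_nhds,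
        (hφR z₀).filter_mono nhdsWithin_le_nhds] with z hz1 hz2
      obtain ⟨c, hc, hcz⟩ := hz2
      rw [hz1] at hcz
      exact (smul_eq_zero.mp hcz.symm).resolve_left hc
    obtain ⟨z, hz1, hz2⟩ := (h1.and h2).exists
    exact hz1 hz2
  choose n ψ hψ hψ0 hψφ using hfac
  -- points with `R z ≠ 0`
  have hpt : ∀ z (h : R z ≠ 0), ∃ a : ℂ, a ≠ 0 ∧ ψ z z = a • R z := by
    intro z h
    obtain ⟨c, hc, hcz⟩ := (hφR z).self_of_nhds
    have h1 := (hψφ z).self_of_nhds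
    have hn : n z = 0 := by
      by_contra hn
      rw [sub_self, zero_pow hn, zero_smul] at h1
      rw [h1] at hcz
      exact h ((smul_eq_zero.mp hcz.symm).resolve_left hc)
    rw [hn, pow_zero, one_smul] at h1
    exact ⟨c, hc, by rw [← h1, hcz]⟩
  have hloc : ∀ z₀, ∀ᶠ z in 𝓝[≠] z₀, R z ≠ 0 ∧ ψ z₀ z ≠ 0 ∧ ∃ a : ℂ, a ≠ 0 ∧
      ψ z₀ z = a • R z := by
    intro z₀
    have hψne : ∀ᶠ z in 𝓝[≠] z₀, ψ z₀ z ≠ 0 :=
      ((hψ z₀).continuousAt.eventually_ne (hψ0 z₀)).filter_mono nhdsWithin_le_nhds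
    filter_upwards [hne z₀, hψne, (hφR z₀).filter_mono nhdsWithin_le_nhds,
      (hψφ z₀).filter_mono nhdsWithin_le_nhds, self_mem_nhdsWithin] with z hz1 hz2 hz3 hz4 hz5
    obtain ⟨c, hc, hcz⟩ := hz3
    have hzz : z - z₀ ≠ 0 := sub_ne_zero.mpr hz5
    refine ⟨hz1, hz2, ((z - z₀) ^ n z₀)⁻¹ * c, mul_ne_zero (inv_ne_zero (pow_ne_zero _ hzz)) hc, ?_⟩
    rw [mul_smul, ← hcz, hz4, smul_smul, inv_mul_cancel₀ (pow_ne_zero _ hzz), one_smul]
  refine ⟨fun z => Projectivization.mk ℂ (ψ z z) (hψ0 z), ?_, ?_, ?_⟩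
  · intro z₀
    refine ⟨ψ z₀, hψ z₀, ?_⟩
    have h1 := hloc z₀
    rw [eventually_nhdsWithin_iff] at h1
    filter_upwards [h1] with z hz
    by_cases hzz : z = z₀
    · subst hzz
      exact ⟨hψ0 z, rfl⟩
    · obtain ⟨h2, h3, a, ha, h4⟩ := hz hzz
      refine ⟨h3, ?_⟩
      obtain ⟨b, hb, h5⟩ := hpt z h2
      rw [mk_eq_of_smul (hψ0 z) h2 b h5, mk_eq_of_smul h3 h2 a h4]
  · intro z h
    obtain ⟨b, hb, h5⟩ := hpt z h
    exact mk_eq_of_smul (hψ0 z) h b h5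
  · intro m G hG hGR z₀
    rw [vanishesAt_mk hG]
    have h1 : Tendsto (fun z => eval (ψ z₀ z) G) (𝓝[≠] z₀) (𝓝 (eval (ψ z₀ z₀) G)) := by
      have h2 : ContinuousAt (fun z => eval (ψ z₀ z) G) z₀ :=
        ContinuousAt.comp (g := fun v : Fin (N + 1) → ℂ => eval v G)
          (MvPolynomial.continuous_eval G).continuousAt (hψ z₀).continuousAt
      exact h2.tendsto.mono_left nhdsWithin_le_nhds
    refine tendsto_nhds_unique h1 ?_
    refine Tendsto.congr' ?_ tendsto_const_nhds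
    filter_upwards [hloc z₀] with z hz
    obtain ⟨h2, h3, a, ha, h4⟩ := hz
    rw [h4, eval_smul_homogeneous hG, hGR, mul_zero]

end Pool.Agent.H86.Refl
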