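import Mathlib
import Pool.Agent.H86.Refl.Entire
import Pool.Agent.H86.Refl.Lines

/-!
# Entire curves from parametrised curves of genus at most one, II
-/

set_option autoImplicit false

open Filter Topology

namespace Pool.Agent.H86.Refl

open MvPolynomial Pool.Agent.H84

/-- Data of a parametrised curve: `x_i = xs_i(t)` (degree at most `κ`), `w ^ (p+1) = g(t)`
(degree at most `κ + 2`), starting at `P`, on which the polynomials `G j` vanish. -/
structure CurveData {N c : ℕ} (κ p : ℕ) (G : Fin c → MvPolynomial (Fin (N + 1)) ℂ)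
    (P : Fin (N + 1) → ℂ) (xs : Fin N → Polynomial ℂ) (g : Polynomial ℂ) : Prop where
  hκ : κ * p = 2
  degx : ∀ i, (xs i).natDegree ≤ κ
  degg : g.natDegree ≤ κ + 2
  x0 : ∀ i, (xs i).eval 0 = P i.castSucc
  g0 : g.eval 0 = P (Fin.last N) ^ (p + 1)
  zero : ∀ (j : Fin c) (t w : ℂ), w ^ (p + 1) = g.eval t →
    eval (Fin.snoc (fun i => (xs i).eval t) w : Fin (N + 1) → ℂ) (G j) = 0
  zero' : ∀ (j : Fin c) (s v : ℂ), v ^ (p + 1) = (g.reflect (κ + 2)).eval s →
    eval (Fin.snoc (fun i => ((xs i).reflect κ).eval s) v : Fin (N + 1) → ℂ) (G j) = 0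
  nonconst : ¬ ∃ μ : Polynomial ℂ, (∀ i, xs i = Polynomial.C (P i.castSucc) * μ) ∧
    g = Polynomial.C (P (Fin.last N) ^ (p + 1)) * μ ^ (p + 1)

lemma eval_reflect {N : ℕ} {q : Polynomial ℂ} (hq : q.natDegree ≤ N) {s : ℂ} (hs : s ≠ 0) :
    (q.reflect N).eval s = s ^ N * q.eval s⁻¹ := by
  have hinv : Invertible (s⁻¹) := invertibleOfNonzero (inv_ne_zero hs)
  have h := Polynomial.eval₂_reflect_mul_pow (RingHom.id ℂ) (s⁻¹) N q hq
  have h1 : ⅟(s⁻¹) = s := by
    rw [invOf_eq_inv, inv_inv]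
  rw [h1] at h
  rw [← Polynomial.eval₂_id, ← Polynomial.eval₂_id, ← h]
  rw [mul_comm, mul_assoc, ← mul_pow, inv_mul_cancel₀ hs, one_pow, mul_one]

/-- The vector of homogeneous coordinates of the point of the curve. -/
noncomputable def raw {N : ℕ} (κ : ℕ) (xs : Fin N → Polynomial ℂ) : Curve.Pt → Fin (N + 1) → ℂ
  | Sum.inl a => Fin.snoc (fun i => (xs i).eval a.1) a.2
  | Sum.inr v => Fin.snoc (fun i => ((xs i).reflect κ).eval 0) v

lemma analyticAt_snoc {N : ℕ} {xs : Fin N → Polynomial ℂ} {u : ℂ → ℂ × ℂ} {z : ℂ}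
    (hu : AnalyticAt ℂ u z) : AnalyticAt ℂ (fun y =>
      (Fin.snoc (fun i => (xs i).eval (u y).1) (u y).2 : Fin (N + 1) → ℂ)) z := by
  rw [analyticAt_pi_iff]
  intro i
  have hu1 : AnalyticAt ℂ (fun y => (u y).1) z := analyticAt_fst.comp hu
  have hu2 : AnalyticAt ℂ (fun y => (u y).2) z := analyticAt_snd.comp hu
  refine Fin.lastCases ?_ (fun i => ?_) i
  · simp only [Fin.snoc_last]
    exact hu2
  · simp only [Fin.snoc_castSucc]
    have h1 : AnalyticAt ℂ (fun y : ℂ => (xs i).eval y) ((u z).1) :=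
      ((xs i).differentiable.differentiableOn (s := Set.univ)).analyticAt Filter.univ_mem
    exact AnalyticAt.comp (g := fun y : ℂ => (xs i).eval y) (f := fun y => (u y).1) h1 hu1

lemma analyticAt_of_hasDerivAt {u : ℂ → ℂ × ℂ} {z : ℂ} {F : ℂ × ℂ → ℂ × ℂ}
    (hu : ∀ᶠ y in 𝓝 z, HasDerivAt u (F (u y)) y) : AnalyticAt ℂ u z := by
  rw [Complex.analyticAt_iff_eventually_differentiableAt]
  filter_upwards [hu] with y hy using hy.differentiableAt

/-- A polynomial vanishing at the values of a nonconstant function. -/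
lemma poly_eq_zero {t : ℂ → ℂ} (ht0 : t 0 = 0) {t' : ℂ} (ht' : t' ≠ 0)
    (ht : HasDerivAt t t' 0) {q : Polynomial ℂ} (hq : ∀ᶠ z in 𝓝 (0 : ℂ), q.eval (t z) = 0) :
    q = 0 := by
  by_contra hq0
  have h1 : Tendsto t (𝓝[≠] 0) (𝓝[≠] (t 0)) := ht.tendsto_nhdsNE ht'
  rw [ht0] at h1
  have hfin : ({y : ℂ | q.eval y = 0} \ {0}).Finite := by
    refine Set.Finite.subset (q.rootSet_finite ℂ) ?_
    intro y hy
    rw [Polynomial.mem_rootSet]
    exact ⟨hq0, by simpa using hy.1⟩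
  have h2 : ∀ᶠ y in 𝓝 (0 : ℂ), y ∉ ({y : ℂ | q.eval y = 0} \ {0}) :=
    hfin.isClosed.isOpen_compl.mem_nhds (by simp)
  have h3 : ∀ᶠ y in 𝓝[≠] (0 : ℂ), q.eval y ≠ 0 := by
    filter_upwards [h2.filter_mono nhdsWithin_le_nhds, self_mem_nhdsWithin] with y hy1 hy2 hy3
    exact hy1 ⟨hy3, hy2⟩
  have h4 := h1.eventually h3
  obtain ⟨z, hz1, hz2⟩ := (h4.and (hq.filter_mono nhdsWithin_le_nhds)).exists
  exact hz1 hz2

/-- **Entire curves from data.** -/
theorem exists_entire_of_data {N c κ p : ℕ} {e : Fin c → ℕ}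
    {G : Fin c → MvPolynomial (Fin (N + 1)) ℂ} (hG : ∀ j, (G j).IsHomogeneous (e j))
    {P : Fin (N + 1) → ℂ} {xs : Fin N → Polynomial ℂ} {g : Polynomial ℂ}
    (D : CurveData κ p G P xs g) (hPlast : P (Fin.last N) ≠ 0) (hP : P ≠ 0)
    (hx : ∃ ℓ : Fin N, P ℓ.castSucc ≠ 0) :
    ∃ F : ℂ → PSpace N, (∀ z, HolomorphicAt F z) ∧ (∀ z, F z ∈ projectiveSet G) ∧
      F 0 = Projectivization.mk ℂ P hP ∧ ∃ ζ : ℂ, ‖ζ‖ < 1 ∧ F ζ ≠ F 0 := by
  have hon : Curve.OnCurve p κ g (Sum.inl (0, P (Fin.last N))) := D.g0.symm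
  obtain ⟨f, hf0, hf⟩ := Curve.exists_entire D.hκ D.degg hon
  let R : ℂ → Fin (N + 1) → ℂ := fun z => raw κ xs (f z)
  have hsnoc : (Fin.snoc (fun i : Fin N => P i.castSucc) (P (Fin.last N)) : Fin (N + 1) → ℂ) =
      P := by
    funext i
    refine Fin.lastCases ?_ (fun i => ?_) i
    · rw [Fin.snoc_last]
    · rw [Fin.snoc_castSucc]
  have hR0 : R 0 = P := by
    show raw κ xs (f 0) = P
    rw [hf0]
    show (Fin.snoc (fun i => (xs i).eval 0) (P (Fin.last N)) : Fin (N + 1) → ℂ) = P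
    simp only [D.x0]
    exact hsnoc
  have hRloc : ∀ z₀, ∃ φ : ℂ → Fin (N + 1) → ℂ, AnalyticAt ℂ φ z₀ ∧
      ∀ᶠ z in 𝓝 z₀, ∃ c : ℂ, c ≠ 0 ∧ φ z = c • R z := by
    intro z₀
    rcases hf z₀ with ⟨u, hu⟩ | ⟨u, hu⟩
    · refine ⟨fun y => Fin.snoc (fun i => (xs i).eval (u y).1) (u y).2,
        analyticAt_snoc (analyticAt_of_hasDerivAt (hu.mono fun y hy => hy.1)), ?_⟩
      filter_upwards [hu] with y hy
      refine ⟨1, one_ne_zero, ?_⟩
      rw [one_smul]
      show _ = raw κ xs (f y)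
      rw [hy.2.2]
      rfl
    · refine ⟨fun y => Fin.snoc (fun i => ((xs i).reflect κ).eval (u y).1) (u y).2,
        analyticAt_snoc (analyticAt_of_hasDerivAt (hu.mono fun y hy => hy.1)), ?_⟩
      filter_upwards [hu] with y hy
      by_cases hs : (u y).1 = 0
      · refine ⟨1, one_ne_zero, ?_⟩
        rw [one_smul]
        show _ = raw κ xs (f y)
        rw [hy.2.2, Curve.mkB, if_pos hs]
        show (Fin.snoc (fun i => ((xs i).reflect κ).eval (u y).1) (u y).2 : Fin (N + 1) → ℂ) =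
          Fin.snoc (fun i => ((xs i).reflect κ).eval 0) (u y).2
        rw [hs]
      · refine ⟨(u y).1 ^ κ, pow_ne_zero _ hs, ?_⟩
        show _ = (u y).1 ^ κ • raw κ xs (f y)
        rw [hy.2.2, Curve.mkB, if_neg hs]
        funext i
        show (Fin.snoc (fun i => ((xs i).reflect κ).eval (u y).1) (u y).2 : Fin (N + 1) → ℂ) i =
          (u y).1 ^ κ * (Fin.snoc (fun i => (xs i).eval (u y).1⁻¹)
            ((u y).2 * (u y).1⁻¹ ^ κ) : Fin (N + 1) → ℂ) i
        refine Fin.lastCases ?_ (fun i => ?_) i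
        · rw [Fin.snoc_last, Fin.snoc_last, mul_comm, mul_assoc, ← mul_pow,
            inv_mul_cancel₀ hs, one_pow, mul_one]
        · rw [Fin.snoc_castSucc, Fin.snoc_castSucc, eval_reflect (D.degx i) hs]
  have hRG : ∀ j z, eval (R z) (G j) = 0 := by
    intro j z
    have h1 := Curve.onCurve_of_locSol D.hκ D.degg (hf z)
    show eval (raw κ xs (f z)) (G j) = 0
    generalize f z = a at h1
    rcases a with a | b
    · exact D.zero j a.1 a.2 h1
    · exact D.zero' j 0 b h1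
  obtain ⟨F, hF1, hF2, hF3⟩ := exists_extension R hRloc (z₁ := 0) (by rw [hR0]; exact hP)
  have hF0 : F 0 = Projectivization.mk ℂ P hP := by
    rw [hF2 0 (by rw [hR0]; exact hP)]
    congr 1
  refine ⟨F, hF1, fun z j => hF3 (e j) (G j) (hG j) (hRG j) z, hF0, ?_⟩
  -- nonconstancy
  by_contra hcon
  push Not at hcon
  apply D.nonconst
  obtain ⟨u, hu⟩ := Curve.exists_solA D.hκ D.degg (hf 0) hf0
  have hu0 : u 0 = (0, P (Fin.last N)) :=
    (Sum.inl_injective (hf0.symm.trans hu.self_of_nhds.2.2)).symm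
  have hder : HasDerivAt (fun y => (u y).1) (P (Fin.last N) ^ p) 0 := by
    have h1 := hu.self_of_nhds.1.fst
    rw [hu0] at h1
    exact h1
  have ht0 : (u 0).1 = 0 := by rw [hu0]
  -- the proportionality factor
  have hprop : ∀ᶠ z in 𝓝 (0 : ℂ), ∃ μ : ℂ, (∀ i, (xs i).eval (u z).1 = μ * P i.castSucc) ∧
      (u z).2 = μ * P (Fin.last N) ∧ (u z).2 ^ (p + 1) = g.eval (u z).1 := by
    have hw : ∀ᶠ z in 𝓝 (0 : ℂ), (u z).2 ≠ 0 := by
      have h1 : ContinuousAt (fun y => (u y).2) 0 := hu.self_of_nhds.1.continuousAt.snd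
      apply h1.eventually_ne
      show (u 0).2 ≠ 0
      rw [hu0]
      exact hPlast
    have hball : ∀ᶠ z in 𝓝 (0 : ℂ), ‖z‖ < 1 := by
      have := (continuous_norm.tendsto (0 : ℂ)).eventually (gt_mem_nhds
        (show ‖(0 : ℂ)‖ < 1 by simp))
      exact this
    filter_upwards [hu, hw, hball] with z hz1 hz2 hz3
    have hRz : R z = Fin.snoc (fun i => (xs i).eval (u z).1) (u z).2 := by
      show raw κ xs (f z) = _
      rw [hz1.2.2]
      rfl
    have hRne : R z ≠ 0 := by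
      intro h
      apply hz2
      have h1 := congrFun h (Fin.last N)
      rw [hRz, Fin.snoc_last] at h1
      exact h1
    have h1 := hcon z hz3
    rw [hF2 z hRne, hF0, Projectivization.mk_eq_mk_iff'] at h1
    obtain ⟨μ, hμ⟩ := h1
    refine ⟨μ, fun i => ?_, ?_, hz1.2.1⟩
    · have h2 := congrFun hμ i.castSucc
      rw [hRz, Fin.snoc_castSucc] at h2
      exact h2.symm
    · have h2 := congrFun hμ (Fin.last N)
      rw [hRz, Fin.snoc_last] at h2
      exact h2.symm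
  obtain ⟨ℓ, hℓ⟩ := hx
  refine ⟨Polynomial.C (P ℓ.castSucc)⁻¹ * xs ℓ, fun i => ?_, ?_⟩
  · rw [← sub_eq_zero]
    refine poly_eq_zero (t := fun y => (u y).1) ht0 (pow_ne_zero _ hPlast) hder ?_
    filter_upwards [hprop] with z hz
    obtain ⟨μ, h1, -, -⟩ := hz
    simp only [Polynomial.eval_sub, Polynomial.eval_mul, Polynomial.eval_C, h1]
    field_simp
    ring
  · rw [← sub_eq_zero]
    refine poly_eq_zero (t := fun y => (u y).1) ht0 (pow_ne_zero _ hPlast) hder ?_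
    filter_upwards [hprop] with z hz
    obtain ⟨μ, h1, h2, h3⟩ := hz
    simp only [Polynomial.eval_sub, Polynomial.eval_mul, Polynomial.eval_C,
      Polynomial.eval_pow, h1, ← h3, h2]
    field_simp
    ring

end Pool.Agent.H86.Refl
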