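import Mathlib
import Pool.Agent.H86.Refl.FromData
import Pool.Agent.H86.Refl.Conic

/-!
# Curves of genus at most one through every point of a reflection-invariant complete intersection
-/

set_option autoImplicit false

open Filter Topology

namespace Pool.Agent.H86.Refl

open MvPolynomial

/-- Curve data from the vanishing of the reduced polynomials. -/
lemma curveData_of_lower {N c κ p : ℕ} (hκ : κ * p = 2) {e : Fin c → ℕ}
    {G F : Fin c → MvPolynomial (Fin (N + 1)) ℂ}
    (hF : ∀ j, (F j).IsWeightedHomogeneous (wt N (p + 1)) (e j))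
    (hGF : ∀ (j : Fin c) (x : Fin N → ℂ) (w : ℂ), eval (Fin.snoc x w : Fin (N + 1) → ℂ) (G j) =
      eval (Fin.snoc x (w ^ (p + 1)) : Fin (N + 1) → ℂ) (F j))
    {P : Fin (N + 1) → ℂ} {xs : Fin N → Polynomial ℂ} {g : Polynomial ℂ}
    (degx : ∀ i, (xs i).natDegree ≤ κ) (degg : g.natDegree ≤ κ + 2)
    (x0 : ∀ i, (xs i).eval 0 = P i.castSucc) (g0 : g.eval 0 = P (Fin.last N) ^ (p + 1))
    (hz : ∀ (j : Fin c) (t : ℂ),
      eval (Fin.snoc (fun i => (xs i).eval t) (g.eval t) : Fin (N + 1) → ℂ) (F j) = 0)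
    (nonconst : ¬ ∃ μ : Polynomial ℂ, (∀ i, xs i = Polynomial.C (P i.castSucc) * μ) ∧
      g = Polynomial.C (P (Fin.last N) ^ (p + 1)) * μ ^ (p + 1)) :
    CurveData κ p G P xs g := by
  have hκp : κ * (p + 1) = κ + 2 := by rw [mul_add, hκ, mul_one, add_comm]
  have hrev : ∀ (j : Fin c) (s : ℂ), eval (Fin.snoc (fun i => ((xs i).reflect κ).eval s)
      ((g.reflect (κ + 2)).eval s) : Fin (N + 1) → ℂ) (F j) = 0 := by
    intro j s
    have hne : ∀ s : ℂ, s ≠ 0 → eval (Fin.snoc (fun i => ((xs i).reflect κ).eval s)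
        ((g.reflect (κ + 2)).eval s) : Fin (N + 1) → ℂ) (F j) = 0 := by
      intro s hs
      have h1 : (Fin.snoc (fun i => ((xs i).reflect κ).eval s)
          ((g.reflect (κ + 2)).eval s) : Fin (N + 1) → ℂ) = fun i => (s ^ κ) ^ wt N (p + 1) i *
          (Fin.snoc (fun i => (xs i).eval s⁻¹) (g.eval s⁻¹) : Fin (N + 1) → ℂ) i := by
        funext i
        refine Fin.lastCases ?_ (fun i => ?_) i
        · rw [Fin.snoc_last, Fin.snoc_last, wt_last, ← pow_mul, hκp, eval_reflect degg hs]
        · rw [Fin.snoc_castSucc, Fin.snoc_castSucc, wt_castSucc, pow_one,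
            eval_reflect (degx i) hs]
      rw [h1, eval_scale (hF j), hz, mul_zero]
    by_cases hs : s = 0
    · have hc : Continuous (fun s : ℂ => eval (Fin.snoc (fun i => ((xs i).reflect κ).eval s)
          ((g.reflect (κ + 2)).eval s) : Fin (N + 1) → ℂ) (F j)) := by
        refine Continuous.comp (g := fun v : Fin (N + 1) → ℂ => eval v (F j))
          (MvPolynomial.continuous_eval (F j)) (continuous_pi fun i => ?_)
        refine Fin.lastCases ?_ (fun i => ?_) i
        · simp only [Fin.snoc_last]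
          fun_prop
        · simp only [Fin.snoc_castSucc]
          fun_prop
      have h6 := Continuous.ext_on (dense_compl_singleton (0 : ℂ)) hc
        (continuous_const (y := (0 : ℂ))) (fun s hs => hne s hs)
      exact congrFun h6 s
    · exact hne s hs
  exact
    { hκ := hκ
      degx := degx
      degg := degg
      x0 := x0
      g0 := g0
      zero := fun j t w hw => by rw [hGF, hw]; exact hz j t
      zero' := fun j s v hv => by rw [hGF, hv]; exact hrev j s
      nonconst := nonconst }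

lemma hGF_of_lower {N c r r' : ℕ} (hrr : r' ∣ r) {G : Fin c → MvPolynomial (Fin (N + 1)) ℂ}
    (hdvd : ∀ j, ∀ d ∈ (G j).support, r ∣ d (Fin.last N)) (j : Fin c) (x : Fin N → ℂ) (w : ℂ) :
    eval (Fin.snoc x w : Fin (N + 1) → ℂ) (G j) =
      eval (Fin.snoc x (w ^ r') : Fin (N + 1) → ℂ) (lower r' (G j)) := by
  have h := aeval_lower (R := ℂ) (fun d hd => hrr.trans (hdvd j d hd)) x w
  rw [MvPolynomial.aeval_eq_eval, MvPolynomial.aeval_eq_eval] at h
  exact h.symm

/-- Curve data from lines in the quotient. -/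
lemma curveData_of_line {N c r κ p : ℕ} (hκ : κ * p = 2) (hrr : (p + 1) ∣ r) {e : Fin c → ℕ}
    {G : Fin c → MvPolynomial (Fin (N + 1)) ℂ} (hG : ∀ j, (G j).IsHomogeneous (e j))
    (hdvd : ∀ j, ∀ d ∈ (G j).support, r ∣ d (Fin.last N)) (hdeg : ∑ j, e j + 1 ≤ N + p)
    {P : Fin (N + 1) → ℂ} (hP : ∀ j, eval P (G j) = 0) {ℓ : Fin N} (hℓ : P ℓ.castSucc ≠ 0) :
    ∃ xs g, CurveData κ p G P xs g := by
  have hκ1 : 1 ≤ κ := by
    rcases Nat.eq_zero_or_pos κ with h | h
    · rw [h, zero_mul] at hκ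
      omega
    · exact h
  have hp2 : p ≤ 2 := by
    have h1 : p ≤ κ * p := Nat.le_mul_of_pos_left p hκ1
    omega
  have hpκ : p + 1 ≤ κ + 2 := by
    omega
  have hGF := hGF_of_lower hrr hdvd
  have hF : ∀ j, (lower (p + 1) (G j)).IsWeightedHomogeneous (wt N (p + 1)) (e j) :=
    fun j => isWeightedHomogeneous_lower (fun d hd => hrr.trans (hdvd j d hd)) (hG j)
  set P' : Fin (N + 1) → ℂ := Fin.snoc (fun i => P i.castSucc) (P (Fin.last N) ^ (p + 1)) with hP'
  have hPsnoc : (Fin.snoc (fun i : Fin N => P i.castSucc) (P (Fin.last N)) : Fin (N + 1) → ℂ) =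
      P := by
    funext i
    refine Fin.lastCases ?_ (fun i => ?_) i
    · rw [Fin.snoc_last]
    · rw [Fin.snoc_castSucc]
  obtain ⟨v, a, hvℓ, hne, hva⟩ := exists_line_quot e (fun j => lower (p + 1) (G j)) hF
    (by omega) P' (fun j => by rw [hP', ← hGF, hPsnoc, hP]) ℓ
  refine ⟨fun i => Polynomial.C (P i.castSucc) + Polynomial.C (v i) * Polynomial.X,
    Polynomial.C (P (Fin.last N) ^ (p + 1)) + ∑ k : Fin (p + 1), Polynomial.C (a k) *
      Polynomial.X ^ ((k : ℕ) + 1), ?_⟩
  have hline : ∀ i : Fin (N + 1), lineData P' v a i = (Fin.snoc (fun i : Fin N =>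
      Polynomial.C (P i.castSucc) + Polynomial.C (v i) * Polynomial.X)
      (Polynomial.C (P (Fin.last N) ^ (p + 1)) + ∑ k : Fin (p + 1), Polynomial.C (a k) *
      Polynomial.X ^ ((k : ℕ) + 1)) : Fin (N + 1) → Polynomial ℂ) i := by
    intro i
    unfold lineData
    rw [hP']
    simp only [Fin.snoc_castSucc, Fin.snoc_last]
  apply curveData_of_lower hκ hF hGF
  · intro i
    refine (Polynomial.natDegree_add_le _ _).trans (max_le (by simp) ?_)
    exact (Polynomial.natDegree_C_mul_le _ _).trans (Polynomial.natDegree_X_le.trans hκ1)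
  · refine (Polynomial.natDegree_add_le _ _).trans (max_le (by simp) ?_)
    refine Polynomial.natDegree_sum_le_of_forall_le _ _ fun k _ => ?_
    refine (Polynomial.natDegree_C_mul_X_pow_le _ _).trans ?_
    have := k.2
    omega
  · intro i
    simp
  · simp [Polynomial.eval_finsetSum]
  · intro j t
    have h1 := congrArg (Polynomial.eval t) (hva j)
    rw [eval_aeval, Polynomial.eval_zero] at h1
    rw [← h1]
    congr 1
    congr 1
    funext i
    rw [hline]
    refine Fin.lastCases ?_ (fun i => ?_) i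
    · rw [Fin.snoc_last, Fin.snoc_last]
    · rw [Fin.snoc_castSucc, Fin.snoc_castSucc]
  · rintro ⟨μ, h1, h2⟩
    have hμ : μ = 1 := by
      have h3 := h1 ℓ
      rw [hvℓ, Polynomial.C_0, zero_mul, add_zero] at h3
      have h4 : (Polynomial.C (P ℓ.castSucc) : Polynomial ℂ) ≠ 0 := by
        rw [Ne, Polynomial.C_eq_zero]
        exact hℓ
      apply mul_left_cancel₀ h4
      rw [← h3, mul_one]
    rw [hμ] at h1 h2
    rcases hne with hne | hne
    · apply hne
      funext i
      have h3 := congrArg (fun q => Polynomial.coeff q 1) (h1 i)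
      simpa using h3
    · apply hne
      funext k
      have h3 := congrArg (fun q => Polynomial.coeff q ((k : ℕ) + 1)) h2
      simp only [one_pow, mul_one, Polynomial.coeff_add, Polynomial.coeff_C_succ, zero_add,
        Polynomial.finsetSum_coeff, Polynomial.coeff_C_mul_X_pow] at h3
      rw [Finset.sum_eq_single k] at h3
      · simpa using h3
      · intro k' _ hk'
        rw [if_neg]
        intro h
        exact hk' (Fin.ext (by omega))
      · intro h
        exact absurd (Finset.mem_univ _) h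

lemma isWeightedHomogeneous_rename {σ : Type*} {w : σ → ℕ} {e : ℕ} (τ : σ → σ)
    (hw : ∀ i, w (τ i) = w i) {F : MvPolynomial σ ℂ} (hF : F.IsWeightedHomogeneous w e) :
    (rename τ F).IsWeightedHomogeneous w e := by
  intro d hd
  obtain ⟨u, hu, hu2⟩ := coeff_rename_ne_zero _ _ _ hd
  rw [← hu, ← hF hu2, Finsupp.weight_apply, Finsupp.weight_apply,
    Finsupp.sum_mapDomain_index (by simp) (by intro a b c; simp [add_mul])]
  simp only [hw]

/-- Curve data from conics in the quotient. -/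
lemma curveData_of_conic {k c r : ℕ} (hrr : 2 ∣ r) {e : Fin c → ℕ}
    {G : Fin c → MvPolynomial (Fin (k + 3 + 1)) ℂ} (hG : ∀ j, (G j).IsHomogeneous (e j))
    (hdvd : ∀ j, ∀ d ∈ (G j).support, r ∣ d (Fin.last (k + 3))) (hsum : ∑ j, e j = k + 4)
    (hc : c ≤ k + 1) {P : Fin (k + 3 + 1) → ℂ} (hP : ∀ j, eval P (G j) = 0) {ℓ : Fin (k + 3)}
    (hℓ : P ℓ.castSucc ≠ 0) : ∃ xs g, CurveData 2 1 G P xs g := by
  classical
  have hGF := hGF_of_lower hrr hdvd
  have hF : ∀ j, (lower 2 (G j)).IsWeightedHomogeneous (wt (k + 3) 2) (e j) :=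
    fun j => isWeightedHomogeneous_lower (fun d hd => hrr.trans (hdvd j d hd)) (hG j)
  set Py : Fin (k + 3 + 1) → ℂ :=
    Fin.snoc (fun i => P i.castSucc) (P (Fin.last (k + 3)) ^ 2) with hPy
  have hPsnoc : (Fin.snoc (fun i : Fin (k + 3) => P i.castSucc) (P (Fin.last (k + 3))) :
      Fin (k + 3 + 1) → ℂ) = P := by
    funext i
    refine Fin.lastCases ?_ (fun i => ?_) i
    · rw [Fin.snoc_last]
    · rw [Fin.snoc_castSucc]
  -- the permutation of the coordinates
  let σ : Fin (k + 3) → Fin (k + 3) := Equiv.swap 0 ℓ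
  have hσσ : ∀ i, σ (σ i) = i := fun i => Equiv.swap_apply_self 0 ℓ i
  have hσℓ : σ ℓ = 0 := Equiv.swap_apply_right 0 ℓ
  have hσ0 : σ 0 = ℓ := Equiv.swap_apply_left 0 ℓ
  let τ : Fin (k + 3 + 1) → Fin (k + 3 + 1) :=
    Fin.snoc (fun i => (σ i).castSucc) (Fin.last (k + 3))
  have hτc : ∀ i : Fin (k + 3), τ i.castSucc = (σ i).castSucc := fun i => by
    show (Fin.snoc (fun i => (σ i).castSucc) (Fin.last (k + 3)) :
      Fin (k + 3 + 1) → Fin (k + 3 + 1)) i.castSucc = _
    rw [Fin.snoc_castSucc]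
  have hτl : τ (Fin.last (k + 3)) = Fin.last (k + 3) := by
    show (Fin.snoc (fun i => (σ i).castSucc) (Fin.last (k + 3)) :
      Fin (k + 3 + 1) → Fin (k + 3 + 1)) (Fin.last (k + 3)) = _
    rw [Fin.snoc_last]
  have hwτ : ∀ i, wt (k + 3) 2 (τ i) = wt (k + 3) 2 i := by
    intro i
    refine Fin.lastCases ?_ (fun i => ?_) i
    · rw [hτl]
    · rw [hτc, wt_castSucc, wt_castSucc]
  obtain ⟨α, β, a, b, y, ha, hb, hne, hsol⟩ := exists_conic (e := e) hsum hc
    (fun j => rename τ (lower 2 (G j))) (fun j => isWeightedHomogeneous_rename τ hwτ (hF j))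
    (fun i => Py (τ i)) (by
      show Py (τ (Fin.castSucc 0)) ≠ 0
      rw [hτc, hσ0, hPy, Fin.snoc_castSucc]
      exact hℓ) (by
      intro j
      rw [eval_rename]
      have h1 : (fun i => Py (τ i)) ∘ τ = Py := by
        funext i
        refine Fin.lastCases ?_ (fun i => ?_) i
        · simp only [Function.comp_apply, hτl]
        · simp only [Function.comp_apply, hτc, hσσ]
      rw [h1, hPy, ← hGF, hPsnoc, hP])
  let D : Polynomial ℂ := 1 + Polynomial.C α * Polynomial.X + Polynomial.C β * Polynomial.X ^ 2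
  have hDdeg : D.natDegree ≤ 2 := by
    show (1 + Polynomial.C α * Polynomial.X + Polynomial.C β * Polynomial.X ^ 2 :
      Polynomial ℂ).natDegree ≤ 2
    compute_degree
  refine ⟨fun i => Polynomial.C (P i.castSucc) * D + Polynomial.C (a (σ i)) * Polynomial.X +
    Polynomial.C (b (σ i)) * Polynomial.X ^ 2,
    Polynomial.C (P (Fin.last (k + 3)) ^ 2) * D ^ 2 + (Polynomial.C (y 0) * Polynomial.X +
      Polynomial.C (y 1) * Polynomial.X ^ 2 + Polynomial.C (y 2) * Polynomial.X ^ 3 +
      Polynomial.C (y 3) * Polynomial.X ^ 4), ?_⟩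
  apply curveData_of_lower (p := 1) rfl hF hGF
  · intro i
    refine (Polynomial.natDegree_add_le _ _).trans (max_le ((Polynomial.natDegree_add_le _ _).trans
      (max_le ((Polynomial.natDegree_C_mul_le _ _).trans hDdeg) ?_)) ?_)
    · exact (Polynomial.natDegree_C_mul_le _ _).trans (Polynomial.natDegree_X_le.trans (by norm_num))
    · exact Polynomial.natDegree_C_mul_X_pow_le _ _
  · refine (Polynomial.natDegree_add_le _ _).trans (max_le ?_ ?_)
    · refine (Polynomial.natDegree_C_mul_le _ _).trans ?_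
      exact Polynomial.natDegree_pow_le.trans (Nat.mul_le_mul_left 2 hDdeg)
    · compute_degree
  · intro i
    simp [D]
  · simp [D]
  · intro j t
    have h1 := hsol j t 1
    rw [eval_rename] at h1
    rw [← h1]
    congr 1
    congr 1
    funext i
    refine Fin.lastCases ?_ (fun i => ?_) i
    · rw [Fin.snoc_last, Function.comp_apply, hτl, cx_last, hτl, hPy, Fin.snoc_last]
      simp [D]
      ring
    · rw [Fin.snoc_castSucc, Function.comp_apply, hτc, cx_castSucc, hτc, hσσ, hPy,
        Fin.snoc_castSucc]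
      simp [D]
  · rintro ⟨μ, h1, h2⟩
    have hμ : μ = D := by
      have h3 := h1 ℓ
      rw [hσℓ, ha, hb, Polynomial.C_0, zero_mul, zero_mul, add_zero, add_zero] at h3
      have h4 : (Polynomial.C (P ℓ.castSucc) : Polynomial ℂ) ≠ 0 := by
        rw [Ne, Polynomial.C_eq_zero]
        exact hℓ
      exact (mul_left_cancel₀ h4 h3).symm
    rw [hμ] at h1 h2
    apply hne
    have hab : ∀ i, a i = 0 ∧ b i = 0 := by
      intro i
      have h3 := h1 (σ i)
      rw [hσσ, add_assoc, add_eq_left] at h3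
      have h4 := congrArg (fun q => Polynomial.coeff q 1) h3
      have h5 := congrArg (fun q => Polynomial.coeff q 2) h3
      simp at h4 h5
      exact ⟨h4, h5⟩
    refine ⟨funext fun i => (hab i).1, funext fun i => (hab i).2, ?_⟩
    rw [show (1 : ℕ) + 1 = 2 from rfl, add_eq_left] at h2
    have h3 := congrArg (fun q => Polynomial.coeff q 1) h2
    have h4 := congrArg (fun q => Polynomial.coeff q 2) h2
    have h5 := congrArg (fun q => Polynomial.coeff q 3) h2
    have h6 := congrArg (fun q => Polynomial.coeff q 4) h2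
    simp at h3 h4 h5 h6
    funext i
    fin_cases i
    · exact h3
    · exact h4
    · exact h5
    · exact h6

/-- **Curves of genus at most one.** -/
theorem exists_curveData {N c r : ℕ} (hr : 2 ∣ r ∨ 3 ∣ r) {e : Fin c → ℕ}
    {G : Fin c → MvPolynomial (Fin (N + 1)) ℂ} (hG : ∀ j, (G j).IsHomogeneous (e j))
    (hdvd : ∀ j, ∀ d ∈ (G j).support, r ∣ d (Fin.last N)) (hsum : ∑ j, e j ≤ N + 1)
    (hc : c + 2 ≤ N) {P : Fin (N + 1) → ℂ} (hP : ∀ j, eval P (G j) = 0) {ℓ : Fin N}
    (hℓ : P ℓ.castSucc ≠ 0) : ∃ κ p xs g, (p + 1) ∣ r ∧ CurveData κ p G P xs g := by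
  rcases hr with hr | hr
  · by_cases hs : ∑ j, e j = N + 1
    · obtain ⟨k, rfl⟩ : ∃ k, N = k + 3 := by
        refine ⟨N - 3, ?_⟩
        have : c ≠ 0 := by
          rintro rfl
          simp at hs
        omega
      obtain ⟨xs, g, D⟩ := curveData_of_conic hr hG hdvd hs (by omega) hP hℓ
      exact ⟨2, 1, xs, g, hr, D⟩
    · obtain ⟨xs, g, D⟩ := curveData_of_line (κ := 2) (p := 1) rfl hr hG hdvd (by omega) hP hℓ
      exact ⟨2, 1, xs, g, hr, D⟩
  · obtain ⟨xs, g, D⟩ := curveData_of_line (κ := 1) (p := 2) rfl hr hG hdvd (by omega) hP hℓ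
    exact ⟨1, 2, xs, g, hr, D⟩

end Pool.Agent.H86.Refl
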