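import Mathlib
import Pool.Agent.H86.Refl.Data

/-!
# Density of the entire curves
-/

set_option autoImplicit false

open Filter Topology

namespace Pool.Agent.H86.Refl

open MvPolynomial

/-- There is a non-constant entire curve in `X` through `x`. -/
def Through {N : ℕ} (X : Set (PSpace N)) (x : PSpace N) : Prop :=
  ∃ F : ℂ → PSpace N, (∀ z, HolomorphicAt F z) ∧ (∀ z, F z ∈ X) ∧ F 0 = x ∧
    ∃ ζ : ℂ, ‖ζ‖ < 1 ∧ F ζ ≠ F 0

lemma Through.entire {N : ℕ} {X : Set (PSpace N)} {x : PSpace N} (h : Through X x) :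
    x ∈ entirePoints X := by
  obtain ⟨F, h1, h2, h3, ζ, -, h4⟩ := h
  exact ⟨F, h1, h2, ⟨ζ, 0, h4⟩, 0, h3⟩

lemma mk_eq_of_mem {N : ℕ} {v : Fin (N + 1) → ℂ} (hv : v ≠ 0) {x : PSpace N}
    (h : v ∈ x.submodule) : Projectivization.mk ℂ v hv = x := by
  rw [Projectivization.submodule_eq, Submodule.mem_span_singleton] at h
  obtain ⟨a, ha⟩ := h
  rw [← x.mk_rep, Projectivization.mk_eq_mk_iff']
  exact ⟨a, ha⟩

/-- A holomorphic map to `P^N` cannot take two different values along two sequences with the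
same limit. -/
lemma eq_of_sequences {N : ℕ} {g : ℂ → PSpace N} (hg : HolomorphicAt g 0) {y : ℕ → ℂ}
    (hy : Tendsto y atTop (𝓝 0)) {x : PSpace N} (hgy : ∀ᶠ k in atTop, g (y k) = x) :
    g 0 = x := by
  obtain ⟨φ, hφ, hev⟩ := hg
  obtain ⟨h0, h1⟩ := hev.self_of_nhds
  rw [h1]
  apply mk_eq_of_mem
  have hclosed : IsClosed ((x.submodule : Submodule ℂ (Fin (N + 1) → ℂ)) :
      Set (Fin (N + 1) → ℂ)) := Submodule.closed_of_finiteDimensional _
  have hlim : Tendsto (fun k => φ (y k)) atTop (𝓝 (φ 0)) :=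
    hφ.continuousAt.tendsto.comp hy
  refine hclosed.mem_of_tendsto hlim ?_
  filter_upwards [hy.eventually hev, hgy] with k hk1 hk2
  obtain ⟨h2, h3⟩ := hk1
  rw [h3] at hk2
  rw [← hk2, Projectivization.submodule_mk]
  exact Submodule.mem_span_singleton_self _

lemma HolomorphicAt.comp {N : ℕ} {f : ℂ → PSpace N} {τ : ℂ → ℂ} {z : ℂ}
    (hf : HolomorphicAt f (τ z)) (hτ : AnalyticAt ℂ τ z) :
    HolomorphicAt (fun y => f (τ y)) z := by
  obtain ⟨φ, hφ, hev⟩ := hf
  refine ⟨fun y => φ (τ y), hφ.comp hτ, ?_⟩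
  exact hτ.continuousAt.tendsto.eventually hev

lemma tendsto_seq (ρ : ℂ) :
    Tendsto (fun k : ℕ => (ρ + (k : ℂ) * (2 * (Real.pi : ℂ) * Complex.I))⁻¹) atTop (𝓝 0) := by
  have hpi : (2 * (Real.pi : ℂ) * Complex.I) ≠ 0 := Complex.two_pi_I_ne_zero
  rw [tendsto_zero_iff_norm_tendsto_zero]
  simp only [norm_inv]
  apply Tendsto.inv_tendsto_atTop
  have h3 : Tendsto (fun k : ℕ => (k : ℝ) * ‖2 * (Real.pi : ℂ) * Complex.I‖ - ‖ρ‖) atTop
      atTop := by
    apply tendsto_atTop_add_const_right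
    exact Tendsto.atTop_mul_const (norm_pos_iff.mpr hpi) tendsto_natCast_atTop_atTop
  refine tendsto_atTop_mono (fun k => ?_) h3
  have h4 : ‖(k : ℂ) * (2 * (Real.pi : ℂ) * Complex.I)‖ =
      (k : ℝ) * ‖2 * (Real.pi : ℂ) * Complex.I‖ := by
    rw [norm_mul, Complex.norm_natCast]
  rw [← h4]
  have h5 := norm_sub_norm_le ((k : ℂ) * (2 * (Real.pi : ℂ) * Complex.I)) (-ρ)
  rw [norm_neg, sub_neg_eq_add] at h5
  rw [add_comm ρ]
  exact h5

/-- An entire curve gives a map from the punctured disc with an essential singularity. -/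
lemma Through.punctured {N : ℕ} {X : Set (PSpace N)} {x : PSpace N} (h : Through X x) :
    x ∈ puncturedPoints X := by
  obtain ⟨f, hf, hfX, h0, ζ, hζ, hne⟩ := h
  have hpi : (2 * (Real.pi : ℂ) * Complex.I) ≠ 0 := Complex.two_pi_I_ne_zero
  have hζ1 : 1 + ζ ≠ 0 := by
    intro h
    have h2 : ζ = -1 := by linear_combination h
    rw [h2, norm_neg, norm_one] at hζ
    exact lt_irrefl _ hζ
  have hexp : ∀ (ρ : ℂ) (k : ℕ),
      Complex.exp ((ρ + (k : ℂ) * (2 * (Real.pi : ℂ) * Complex.I))⁻¹)⁻¹ = Complex.exp ρ := by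
    intro ρ k
    rw [inv_inv]
    exact Complex.exp_periodic.nat_mul k ρ
  refine ⟨fun z => f (Complex.exp z⁻¹ - 1), ?_, ?_, (2 * (Real.pi : ℂ) * Complex.I)⁻¹, ?_, ?_, ?_⟩
  · intro z hz _
    have hz0 : z ≠ 0 := norm_pos_iff.mp hz
    refine ⟨HolomorphicAt.comp (hf _) ?_, hfX _⟩
    exact ((analyticAt_id.inv hz0).cexp).sub analyticAt_const
  · rintro ⟨g, hg, hgf⟩
    have hsmall : ∀ ρ : ℂ, ∀ᶠ k : ℕ in atTop,
        g ((ρ + (k : ℂ) * (2 * (Real.pi : ℂ) * Complex.I))⁻¹) = f (Complex.exp ρ - 1) := by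
      intro ρ
      have h3 : ∀ᶠ k : ℕ in atTop,
          ‖(ρ + (k : ℂ) * (2 * (Real.pi : ℂ) * Complex.I))⁻¹‖ < 1 := by
        have := (tendsto_seq ρ).norm
        rw [norm_zero] at this
        exact this.eventually (gt_mem_nhds one_pos)
      have h4 : ∀ᶠ k : ℕ in atTop,
          ρ + (k : ℂ) * (2 * (Real.pi : ℂ) * Complex.I) ≠ 0 := by
        have h5 : Tendsto (fun k : ℕ => (k : ℝ) * ‖2 * (Real.pi : ℂ) * Complex.I‖)
            atTop atTop :=
          Tendsto.atTop_mul_const (norm_pos_iff.mpr hpi) tendsto_natCast_atTop_atTop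
        filter_upwards [h5.eventually_gt_atTop ‖ρ‖] with k hk h6
        have h7 : ρ = -((k : ℂ) * (2 * (Real.pi : ℂ) * Complex.I)) :=
          eq_neg_of_add_eq_zero_left h6
        rw [h7, norm_neg, norm_mul, Complex.norm_natCast] at hk
        exact lt_irrefl _ hk
      filter_upwards [h3, h4] with k hk1 hk2
      rw [hgf _ (norm_pos_iff.mpr (inv_ne_zero hk2)) hk1]
      simp only [hexp]
    have h3 := hsmall 0
    have h4 := hsmall (Complex.log (1 + ζ))
    simp only [Complex.exp_zero, Complex.exp_log hζ1, sub_self, add_sub_cancel_left] at h3 h4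
    have hg0 := hg 0 (by simp)
    have h5 := eq_of_sequences hg0 (tendsto_seq 0) h3
    have h6 := eq_of_sequences hg0 (tendsto_seq (Complex.log (1 + ζ))) h4
    exact hne (h6.symm.trans h5)
  · exact norm_pos_iff.mpr (inv_ne_zero hpi)
  · rw [norm_inv]
    apply inv_lt_one_of_one_lt₀
    rw [norm_mul, norm_mul, Complex.norm_I, mul_one]
    simp only [Complex.norm_ofNat, Complex.norm_real, Real.norm_eq_abs,
      abs_of_pos Real.pi_pos]
    linarith [Real.pi_gt_three]
  · simp only [inv_inv, Complex.exp_two_pi_mul_I, sub_self]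
    exact h0

lemma zariskiClosureIn_mono {N : ℕ} {X S T : Set (PSpace N)} (h : S ⊆ T) :
    zariskiClosureIn X S ⊆ zariskiClosureIn X T :=
  fun _ hP => ⟨hP.1, fun d Q hQ hT => hP.2 d Q hQ fun s hs => hT s (h hs)⟩

lemma snoc_self {N : ℕ} (P : Fin (N + 1) → ℂ) :
    (Fin.snoc (fun i : Fin N => P i.castSucc) (P (Fin.last N)) : Fin (N + 1) → ℂ) = P := by
  funext i
  refine Fin.lastCases ?_ (fun i => ?_) i
  · rw [Fin.snoc_last]
  · rw [Fin.snoc_castSucc]

/-- A curve inside the fixed hyperplane. -/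
lemma through_of_zero {N c κ p : ℕ} {e : Fin c → ℕ}
    {G : Fin c → MvPolynomial (Fin (N + 1)) ℂ} (hG : ∀ j, (G j).IsHomogeneous (e j))
    {P : Fin (N + 1) → ℂ} {xs : Fin N → Polynomial ℂ}
    (D : CurveData κ p G P xs 0) (hP : P ≠ 0) {ℓ : Fin N} (hℓ : P ℓ.castSucc ≠ 0) :
    Through (projectiveSet G) (Projectivization.mk ℂ P hP) := by
  have hlast : P (Fin.last N) = 0 := by
    have h1 := D.g0
    rw [Polynomial.eval_zero] at h1
    exact pow_eq_zero_iff (Nat.succ_ne_zero p) |>.mp h1.symm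
  let R : ℂ → Fin (N + 1) → ℂ := fun z => Fin.snoc (fun i => (xs i).eval z) 0
  have hR0 : R 0 = P := by
    show (Fin.snoc (fun i => (xs i).eval 0) 0 : Fin (N + 1) → ℂ) = P
    simp only [D.x0]
    conv_rhs => rw [← snoc_self P, hlast]
  have hRan : ∀ z, AnalyticAt ℂ R z := by
    intro z
    rw [analyticAt_pi_iff]
    intro i
    refine Fin.lastCases ?_ (fun i => ?_) i
    · simp only [Fin.snoc_last]
      exact analyticAt_const
    · simp only [Fin.snoc_castSucc]
      exact ((xs i).differentiable.differentiableOn (s := Set.univ)).analyticAt Filter.univ_mem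
  obtain ⟨F, hF1, hF2, hF3⟩ := exists_extension R (fun z₀ => ⟨R, hRan z₀,
    Eventually.of_forall fun z => ⟨1, one_ne_zero, (one_smul _ _).symm⟩⟩) (z₁ := 0)
    (by rw [hR0]; exact hP)
  have hRG : ∀ j z, eval (R z) (G j) = 0 := by
    intro j z
    apply D.zero
    rw [Polynomial.eval_zero, zero_pow (Nat.succ_ne_zero p)]
  have hF0 : F 0 = Projectivization.mk ℂ P hP := by
    rw [hF2 0 (by rw [hR0]; exact hP)]
    congr 1
  refine ⟨F, hF1, fun z j => hF3 (e j) (G j) (hG j) (hRG j) z, hF0, ?_⟩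
  by_contra hcon
  push Not at hcon
  apply D.nonconst
  refine ⟨Polynomial.C (P ℓ.castSucc)⁻¹ * xs ℓ, fun i => ?_, ?_⟩
  · rw [← sub_eq_zero]
    refine poly_eq_zero (t := fun z => z) rfl one_ne_zero (hasDerivAt_id (0 : ℂ)) ?_
    have hball : ∀ᶠ z in 𝓝 (0 : ℂ), ‖z‖ < 1 := by
      have := (continuous_norm.tendsto (0 : ℂ)).eventually (gt_mem_nhds
        (show ‖(0 : ℂ)‖ < 1 by simp))
      exact this
    have hRne : ∀ᶠ z in 𝓝 (0 : ℂ), R z ≠ 0 :=
      (hRan 0).continuousAt.eventually_ne (by rw [hR0]; exact hP)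
    filter_upwards [hball, hRne] with z hz1 hz2
    have h1 := hcon z hz1
    rw [hF2 z hz2, hF0, Projectivization.mk_eq_mk_iff'] at h1
    obtain ⟨μ, hμ⟩ := h1
    have h2 : ∀ i : Fin N, (xs i).eval z = μ * P i.castSucc := by
      intro i
      have h3 := congrFun hμ i.castSucc
      have h4 : R z i.castSucc = (xs i).eval z := by
        simp only [R, Fin.snoc_castSucc]
      rw [h4] at h3
      exact h3.symm
    simp only [Polynomial.eval_sub, Polynomial.eval_mul, Polynomial.eval_C, h2]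
    field_simp
    ring
  · rw [hlast, zero_pow (Nat.succ_ne_zero p), Polynomial.C_0, zero_mul]

/-- Density of a set of points that contains the points of two kinds. -/
theorem closure_of {N c r : ℕ} (hr : 2 ∣ r ∨ 3 ∣ r) {e : Fin c → ℕ}
    {G : Fin c → MvPolynomial (Fin (N + 1)) ℂ} (hG : ∀ j, (G j).IsHomogeneous (e j))
    (hdvd : ∀ j, ∀ d ∈ (G j).support, r ∣ d (Fin.last N)) (hsum : ∑ j, e j ≤ N + 1)
    (hc : c + 2 ≤ N) {Θ : Set (PSpace N)}
    (h1 : ∀ (P : Fin (N + 1) → ℂ) (hP : P ≠ 0), (∀ j, eval P (G j) = 0) →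
      P (Fin.last N) ≠ 0 → (∃ ℓ : Fin N, P ℓ.castSucc ≠ 0) → Projectivization.mk ℂ P hP ∈ Θ)
    (h1' : ∀ (P : Fin (N + 1) → ℂ) (hP : P ≠ 0) (κ p : ℕ) (xs : Fin N → Polynomial ℂ),
      CurveData κ p G P xs 0 → (∃ ℓ : Fin N, P ℓ.castSucc ≠ 0) →
      Projectivization.mk ℂ P hP ∈ Θ) :
    zariskiClosureIn (projectiveSet G) Θ = projectiveSet G := by
  classical
  refine Set.Subset.antisymm (fun x hx => hx.1) ?_
  intro x hx
  refine ⟨hx, fun m Q hQ hQT => ?_⟩
  -- `Q` vanishes at the points with an unreflected coordinate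
  have h2 : ∀ P : Fin (N + 1) → ℂ, (∀ j, eval P (G j) = 0) →
      (∃ ℓ : Fin N, P ℓ.castSucc ≠ 0) → eval P Q = 0 := by
    rintro P hPG ⟨ℓ, hℓ⟩
    have hP : P ≠ 0 := by
      rintro rfl
      exact hℓ rfl
    by_cases hlast : P (Fin.last N) = 0
    · obtain ⟨κ, p, xs, g, -, D⟩ := exists_curveData hr hG hdvd hsum hc hPG hℓ
      by_cases hg : g = 0
      · subst hg
        exact (vanishesAt_mk hQ P hP).mp (hQT _ (h1' P hP κ p xs D ⟨ℓ, hℓ⟩))
      · -- nearby points
        have hroot : ∀ t : ℂ, ∃ w : ℂ, w ^ (p + 1) = g.eval t := fun t =>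
          IsAlgClosed.exists_pow_nat_eq _ (Nat.succ_pos p)
        choose w hw using hroot
        have hg0 : g.eval 0 = 0 := by
          rw [D.g0, hlast, zero_pow (Nat.succ_ne_zero p)]
        have hw0 : Tendsto w (𝓝 0) (𝓝 0) := by
          rw [tendsto_zero_iff_norm_tendsto_zero]
          have h3 : Tendsto (fun t => ‖w t‖ ^ (p + 1)) (𝓝 0) (𝓝 0) := by
            have h4 : Tendsto (fun t => ‖g.eval t‖) (𝓝 0) (𝓝 0) := by
              have h5 := (g.continuous.tendsto 0).norm
              rw [hg0, norm_zero] at h5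
              exact h5
            refine h4.congr fun t => ?_
            rw [← hw t, norm_pow]
          have h6 : Tendsto (fun t => (‖w t‖ ^ (p + 1)) ^ (((p + 1 : ℕ) : ℝ)⁻¹)) (𝓝 0)
              (𝓝 ((0 : ℝ) ^ (((p + 1 : ℕ) : ℝ)⁻¹))) := by
            apply Tendsto.rpow_const h3
            right
            positivity
          rw [Real.zero_rpow (by positivity)] at h6
          refine h6.congr fun t => ?_
          rw [Real.pow_rpow_inv_natCast (norm_nonneg _) (Nat.succ_ne_zero p)]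
        let R : ℂ → Fin (N + 1) → ℂ := fun t => Fin.snoc (fun i => (xs i).eval t) (w t)
        have hR : Tendsto R (𝓝 0) (𝓝 P) := by
          rw [tendsto_pi_nhds]
          intro i
          refine Fin.lastCases ?_ (fun i => ?_) i
          · simp only [R, Fin.snoc_last, hlast]
            exact hw0
          · simp only [R, Fin.snoc_castSucc]
            rw [← D.x0 i]
            exact (xs i).continuous.tendsto 0
        have hQR : ∀ᶠ t in 𝓝[≠] (0 : ℂ), eval (R t) Q = 0 := by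
          have h3 : ∀ᶠ t in 𝓝[≠] (0 : ℂ), g.eval t ≠ 0 := by
            by_contra hcon
            rw [Filter.not_eventually] at hcon
            have han : AnalyticAt ℂ (fun t => g.eval t) 0 :=
              (g.differentiable.differentiableOn (s := Set.univ)).analyticAt Filter.univ_mem
            rcases han.eventually_eq_zero_or_eventually_ne_zero with h4 | h4
            · exact hg (poly_eq_zero (t := fun z => z) rfl one_ne_zero
                (hasDerivAt_id (0 : ℂ)) h4)
            · exact hcon (h4.mono fun t ht hn => hn ht)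
          have h4 : ∀ᶠ t in 𝓝[≠] (0 : ℂ), (xs ℓ).eval t ≠ 0 := by
            have h5 : ContinuousAt (fun t => (xs ℓ).eval t) 0 := (xs ℓ).continuous.continuousAt
            have h6 : (fun t => (xs ℓ).eval t) 0 ≠ 0 := by
              show (xs ℓ).eval 0 ≠ 0
              rw [D.x0]
              exact hℓ
            exact (h5.eventually_ne h6).filter_mono nhdsWithin_le_nhds
          filter_upwards [h3, h4] with t ht1 ht2
          have hRℓ : R t ℓ.castSucc = (xs ℓ).eval t := by
            simp only [R, Fin.snoc_castSucc]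
          have hRl : R t (Fin.last N) = w t := by
            simp only [R, Fin.snoc_last]
          have hRne : R t ≠ 0 := by
            intro h
            apply ht2
            rw [← hRℓ, h]
            rfl
          have hRG : ∀ j, eval (R t) (G j) = 0 := fun j => D.zero j t (w t) (hw t)
          have hwt : R t (Fin.last N) ≠ 0 := by
            rw [hRl]
            intro h
            apply ht1
            rw [← hw t, h, zero_pow (Nat.succ_ne_zero p)]
          exact (vanishesAt_mk hQ _ hRne).mp (hQT _ (h1 (R t) hRne hRG hwt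
            ⟨ℓ, by rw [hRℓ]; exact ht2⟩))
        have hlim : Tendsto (fun t => eval (R t) Q) (𝓝[≠] 0) (𝓝 (eval P Q)) :=
          ((MvPolynomial.continuous_eval Q).tendsto P).comp (hR.mono_left nhdsWithin_le_nhds)
        refine tendsto_nhds_unique hlim ?_
        refine Tendsto.congr' ?_ tendsto_const_nhds
        filter_upwards [hQR] with t ht using ht.symm
    · exact (vanishesAt_mk hQ P hP).mp (hQT _ (h1 P hP hPG hlast ⟨ℓ, hℓ⟩))
  -- the center of the reflection
  show eval x.rep Q = 0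
  by_cases hℓ : ∃ ℓ : Fin N, x.rep ℓ.castSucc ≠ 0
  · exact h2 x.rep hx hℓ
  push Not at hℓ
  by_contra hQ0
  set P := x.rep with hPdef
  -- unknowns: the unreflected coordinates and one more
  let τ := Fin N ⊕ Unit
  let A : Fin (N + 1) → MvPolynomial τ ℂ :=
    Fin.snoc (fun i => X (Sum.inl i)) (C (P (Fin.last N)))
  let H : (Fin c ⊕ Unit) → MvPolynomial τ ℂ := fun s =>
    match s with
    | Sum.inl j => aeval A (G j)
    | Sum.inr _ => (1 + X (Sum.inr ())) * aeval A Q - C (eval P Q)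
  have hA : ∀ (y : τ → ℂ) (q : MvPolynomial (Fin (N + 1)) ℂ), eval y (aeval A q) =
      eval (Fin.snoc (fun i => y (Sum.inl i)) (P (Fin.last N)) : Fin (N + 1) → ℂ) q := by
    intro y q
    have h3 := MvPolynomial.comp_aeval_apply (R := ℂ) A (aeval y : MvPolynomial τ ℂ →ₐ[ℂ] ℂ) q
    rw [MvPolynomial.aeval_eq_eval] at h3
    have h4 : (fun i => (eval y) (A i)) =
        (Fin.snoc (fun i => y (Sum.inl i)) (P (Fin.last N)) : Fin (N + 1) → ℂ) := by
      funext i
      refine Fin.lastCases ?_ (fun i => ?_) i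
      · simp [A]
      · simp [A]
    have h5 : eval y (aeval A q) = (aeval fun i => (eval y) (A i)) q := h3
    rw [h5, h4, MvPolynomial.aeval_eq_eval]
  have hP0 : (Fin.snoc (fun i : Fin N => (0 : τ → ℂ) (Sum.inl i)) (P (Fin.last N)) :
      Fin (N + 1) → ℂ) = P := by
    funext i
    refine Fin.lastCases ?_ (fun i => ?_) i
    · rw [Fin.snoc_last]
    · rw [Fin.snoc_castSucc, hℓ]
      rfl
  have h0 : ∀ s, eval (0 : τ → ℂ) (H s) = 0 := by
    rintro (j | _)
    · show eval (0 : τ → ℂ) (aeval A (G j)) = 0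
      rw [hA, hP0]
      exact hx j
    · show eval (0 : τ → ℂ) ((1 + X (Sum.inr ())) * aeval A Q - C (eval P Q)) = 0
      rw [map_sub, map_mul, hA, hP0]
      simp
  have hcard : Nat.card (Fin c ⊕ Unit) < Nat.card τ := by
    simp only [Nat.card_eq_fintype_card, Fintype.card_sum, Fintype.card_fin,
      Fintype.card_unit, τ]
    omega
  obtain ⟨y, hy0, hy⟩ := Pool.Agent.H6.exists_ne_zero_common_zero H h0 hcard
  have hyQ : (1 + y (Sum.inr ())) *
      eval (Fin.snoc (fun i => y (Sum.inl i)) (P (Fin.last N)) : Fin (N + 1) → ℂ) Q =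
      eval P Q := by
    have h3 : eval y ((1 + X (Sum.inr ())) * aeval A Q - C (eval P Q)) = 0 := hy (Sum.inr ())
    rw [map_sub, map_mul, hA, map_add, map_one, eval_X, eval_C, sub_eq_zero] at h3
    exact h3
  have hyG : ∀ j, eval (Fin.snoc (fun i => y (Sum.inl i)) (P (Fin.last N)) :
      Fin (N + 1) → ℂ) (G j) = 0 := by
    intro j
    have h3 : eval y (aeval A (G j)) = 0 := hy (Sum.inl j)
    rw [hA] at h3
    exact h3
  by_cases hyℓ : ∃ ℓ : Fin N, y (Sum.inl ℓ) ≠ 0
  · obtain ⟨ℓ, hyℓ⟩ := hyℓ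
    have h3 := h2 _ hyG ⟨ℓ, by rw [Fin.snoc_castSucc]; exact hyℓ⟩
    rw [h3, mul_zero] at hyQ
    exact hQ0 hyQ.symm
  · push Not at hyℓ
    have h3 : (Fin.snoc (fun i : Fin N => y (Sum.inl i)) (P (Fin.last N)) :
        Fin (N + 1) → ℂ) = P := by
      funext i
      refine Fin.lastCases ?_ (fun i => ?_) i
      · rw [Fin.snoc_last]
      · rw [Fin.snoc_castSucc, hℓ, hyℓ]
    rw [h3] at hyQ
    have h4 : y (Sum.inr ()) = 0 := by
      have h5 : y (Sum.inr ()) * eval P Q = 0 := by linear_combination hyQ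
      exact (mul_eq_zero.mp h5).resolve_right hQ0
    apply hy0
    funext s
    rcases s with i | u
    · exact hyℓ i
    · exact h4

/-- Density of the points with an entire curve. -/
theorem closure_through {N c r : ℕ} (hr : 2 ∣ r ∨ 3 ∣ r) {e : Fin c → ℕ}
    {G : Fin c → MvPolynomial (Fin (N + 1)) ℂ} (hG : ∀ j, (G j).IsHomogeneous (e j))
    (hdvd : ∀ j, ∀ d ∈ (G j).support, r ∣ d (Fin.last N)) (hsum : ∑ j, e j ≤ N + 1)
    (hc : c + 2 ≤ N) :
    (∀ (P : Fin (N + 1) → ℂ) (hP : P ≠ 0), (∀ j, eval P (G j) = 0) → P (Fin.last N) ≠ 0 →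
      (∃ ℓ : Fin N, P ℓ.castSucc ≠ 0) →
      Through (projectiveSet G) (Projectivization.mk ℂ P hP)) ∧
    zariskiClosureIn (projectiveSet G) {x | Through (projectiveSet G) x} = projectiveSet G := by
  have h1 : ∀ (P : Fin (N + 1) → ℂ) (hP : P ≠ 0), (∀ j, eval P (G j) = 0) →
      P (Fin.last N) ≠ 0 → (∃ ℓ : Fin N, P ℓ.castSucc ≠ 0) →
      Through (projectiveSet G) (Projectivization.mk ℂ P hP) := by
    rintro P hP hPG hlast ⟨ℓ, hℓ⟩
    obtain ⟨κ, p, xs, g, -, D⟩ := exists_curveData hr hG hdvd hsum hc hPG hℓ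
    exact exists_entire_of_data hG D hlast hP ⟨ℓ, hℓ⟩
  refine ⟨h1, closure_of hr hG hdvd hsum hc h1 ?_⟩
  rintro P hP κ p xs D ⟨ℓ, hℓ⟩
  exact through_of_zero hG D hP hℓ

end Pool.Agent.H86.Refl
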