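import Mathlib
import Pool.Agent.H86.Refl.Defs

/-!
# Morphisms from one-dimensional semi-abelian varieties to projective space
-/

set_option autoImplicit false

namespace Pool.Agent.H86.Refl

/-- On `G_m = ℂ \ {0}` the map `f` is a morphism to `P^N`: its homogeneous coordinates are
polynomials without common zero in `ℂ \ {0}` (equivalently, Laurent polynomials). -/
def IsGmMorphism {N : ℕ} (f : ℂ → PSpace N) : Prop :=
  ∃ A : Fin (N + 1) → Polynomial ℂ, ∀ z : ℂ, z ≠ 0 →
    ∃ h : (fun i => (A i).eval z) ≠ 0, f z = Projectivization.mk ℂ (fun i => (A i).eval z) h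

/-- The points of `X` that lie on the image of a non-constant morphism `G_m → X`. -/
def gmPoints {N : ℕ} (X : Set (PSpace N)) : Set (PSpace N) :=
  {x | ∃ f : ℂ → PSpace N, IsGmMorphism f ∧ (∀ z, z ≠ 0 → f z ∈ X) ∧
    (∃ z y, z ≠ 0 ∧ y ≠ 0 ∧ f z ≠ f y) ∧ ∃ z, z ≠ 0 ∧ f z = x}

/-- The affine part `{η² = ξ³ + a ξ + b}` of the Weierstrass curve with parameters `a`, `b`; it is
the elliptic curve minus its origin if `4 a³ + 27 b² ≠ 0`. -/
def affineE (a b : ℂ) : Set (ℂ × ℂ) := {p | p.2 ^ 2 = p.1 ^ 3 + a * p.1 + b}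

/-- On the affine curve `{η² = ξ³ + a ξ + b}` the map `f` is a morphism to `P^N`: near every point
its homogeneous coordinates are polynomials in `ξ`, `η` without common zero.  (A morphism on the
complement of the origin of an elliptic curve extends to the elliptic curve.) -/
def IsEllipticMorphism {N : ℕ} (a b : ℂ) (f : ℂ × ℂ → PSpace N) : Prop :=
  ∀ p ∈ affineE a b, ∃ A : Fin (N + 1) → MvPolynomial (Fin 2) ℂ,
    (fun i => MvPolynomial.eval ![p.1, p.2] (A i)) ≠ 0 ∧
    ∀ q ∈ affineE a b, ∀ h : (fun i => MvPolynomial.eval ![q.1, q.2] (A i)) ≠ 0,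
      f q = Projectivization.mk ℂ (fun i => MvPolynomial.eval ![q.1, q.2] (A i)) h

/-- The points of `X` that lie on the image of a non-constant morphism from an elliptic curve to
`X` (other than the image of the origin of the elliptic curve). -/
def ellipticPoints {N : ℕ} (X : Set (PSpace N)) : Set (PSpace N) :=
  {x | ∃ (a b : ℂ) (f : ℂ × ℂ → PSpace N), 4 * a ^ 3 + 27 * b ^ 2 ≠ 0 ∧
    IsEllipticMorphism a b f ∧ (∀ p ∈ affineE a b, f p ∈ X) ∧
    (∃ p ∈ affineE a b, ∃ q ∈ affineE a b, f p ≠ f q) ∧ ∃ p ∈ affineE a b, f p = x}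

/-- The Zariski closure in `X` of the union of the images of the non-constant morphisms to `X`
from one-dimensional semi-abelian varieties (`G_m` and elliptic curves).  It is contained in
`Sp_sab(X)`. -/
def SpSabOne {N : ℕ} (X : Set (PSpace N)) : Set (PSpace N) :=
  zariskiClosureIn X (gmPoints X ∪ ellipticPoints X)

end Pool.Agent.H86.Refl
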