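import Mathlib
import Pool.Agent.H84.LineLimit
import Pool.Agent.H86.Refl.Closure
import Pool.Agent.H86.Refl.SabDefs

/-!
# Homogeneous curve data and rational curves
-/

set_option autoImplicit false

open Filter Topology

namespace Pool.Agent.H86.Refl

open MvPolynomial Pool.Agent.H84

/-- Homogeneous form of the curve data, with nonproportional coordinates. -/
structure HData {N c : ℕ} (κ p : ℕ) (G : Fin c → MvPolynomial (Fin (N + 1)) ℂ)
    (P : Fin (N + 1) → ℂ) (xs : Fin N → Polynomial ℂ) (g : Polynomial ℂ) : Prop where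
  hκ : κ * p = 2
  degx : ∀ i, (xs i).natDegree ≤ κ
  degg : g.natDegree ≤ κ + 2
  x0 : ∀ i, (xs i).eval 0 = P i.castSucc
  g0 : g.eval 0 = P (Fin.last N) ^ (p + 1)
  zero : ∀ (j : Fin c) (s t w : ℂ), w ^ (p + 1) = hform (κ + 2) g s t →
    eval (Fin.snoc (fun i => hform κ (xs i) s t) w : Fin (N + 1) → ℂ) (G j) = 0
  np : ∃ i ℓ : Fin N, Polynomial.C (P ℓ.castSucc) * xs i ≠ Polynomial.C (P i.castSucc) * xs ℓ

lemma eval_reflect_eq_hform {d : ℕ} {q : Polynomial ℂ} (hq : q.natDegree ≤ d) (s : ℂ) :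
    (q.reflect d).eval s = hform d q 1 s := by
  refine eq_of_ne (f := fun s => (q.reflect d).eval s) (g := fun s => hform d q 1 s)
    (by fun_prop) (continuous_hform _ _ _) ?_ s
  intro s hs
  rw [eval_reflect hq hs, hform_of_ne hq hs, one_div]

lemma hform_smul {d : ℕ} {q : Polynomial ℂ} (s t : ℂ) (l : ℂ) :
    hform d q (l * s) (l * t) = l ^ d * hform d q s t := by
  unfold hform
  rw [Finset.mul_sum]
  apply Finset.sum_congr rfl
  intro i hi
  have hi' : i ≤ d := Nat.lt_succ_iff.mp (Finset.mem_range.mp hi)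
  rw [mul_pow, mul_pow]
  have h1 : l ^ d = l ^ i * l ^ (d - i) := by
    rw [← pow_add]
    congr 1
    omega
  rw [h1]
  ring

lemma hform_zero_zero {d : ℕ} (hd : d ≠ 0) (q : Polynomial ℂ) : hform d q 0 0 = 0 := by
  have h := hform_smul (d := d) (q := q) 0 0 0
  rw [zero_mul, zero_pow hd, zero_mul] at h
  exact h

lemma kappa_pos {κ p : ℕ} (h : κ * p = 2) : κ ≠ 0 ∧ p ≠ 0 := by
  constructor
  · rintro rfl
    simp at h
  · rintro rfl
    simp at h

lemma kappa_mul {κ p : ℕ} (h : κ * p = 2) : κ * (p + 1) = κ + 2 := by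
  rw [mul_add, h, mul_one, add_comm]

/-- Homogeneous data from curve data. -/
lemma hdata_of_curveData {N c κ p : ℕ} {e : Fin c → ℕ}
    {G : Fin c → MvPolynomial (Fin (N + 1)) ℂ} (hG : ∀ j, (G j).IsHomogeneous (e j))
    {P : Fin (N + 1) → ℂ} {xs : Fin N → Polynomial ℂ} {g : Polynomial ℂ}
    (D : CurveData κ p G P xs g)
    (np : ∃ i ℓ : Fin N, Polynomial.C (P ℓ.castSucc) * xs i ≠
      Polynomial.C (P i.castSucc) * xs ℓ) : HData κ p G P xs g := by
  obtain ⟨hκ0, hp0⟩ := kappa_pos D.hκ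
  refine ⟨D.hκ, D.degx, D.degg, D.x0, D.g0, ?_, np⟩
  intro j s t w hw
  by_cases ht : t = 0
  · subst ht
    by_cases hs : s = 0
    · subst hs
      have hw0 : w = 0 := by
        rw [hform_zero_zero (by omega)] at hw
        exact pow_eq_zero_iff (Nat.succ_ne_zero p) |>.mp hw
      have h1 : (Fin.snoc (fun i => hform κ (xs i) 0 0) w : Fin (N + 1) → ℂ) = (0 : ℂ) • P := by
        funext i
        refine Fin.lastCases ?_ (fun i => ?_) i
        · rw [Fin.snoc_last, hw0, zero_smul]
          rfl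
        · rw [Fin.snoc_castSucc, hform_zero_zero hκ0, zero_smul]
          rfl
      have h2 : eval P (G j) = 0 := by
        have h3 := D.zero j 0 (P (Fin.last N)) D.g0.symm
        simp only [D.x0] at h3
        rw [snoc_self] at h3
        exact h3
      rw [h1, eval_smul_homogeneous (hG j), h2, mul_zero]
    · have h1 := D.zero' j 0 (w / s ^ κ) (by
        rw [eval_reflect_eq_hform D.degg, div_pow, hw, ← pow_mul, kappa_mul D.hκ]
        have h2 := hform_smul (d := κ + 2) (q := g) 1 0 s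
        rw [mul_one, mul_zero] at h2
        rw [h2, mul_comm, mul_div_assoc, div_self (pow_ne_zero _ hs), mul_one])
      have h3 : (Fin.snoc (fun i => hform κ (xs i) s 0) w : Fin (N + 1) → ℂ) =
          s ^ κ • (Fin.snoc (fun i => ((xs i).reflect κ).eval 0) (w / s ^ κ) :
            Fin (N + 1) → ℂ) := by
        funext i
        rw [Pi.smul_apply, smul_eq_mul]
        refine Fin.lastCases ?_ (fun i => ?_) i
        · rw [Fin.snoc_last, Fin.snoc_last, mul_div_cancel₀ _ (pow_ne_zero _ hs)]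
        · rw [Fin.snoc_castSucc, Fin.snoc_castSucc, eval_reflect_eq_hform (D.degx i)]
          have h2 := hform_smul (d := κ) (q := xs i) 1 0 s
          rw [mul_one, mul_zero] at h2
          exact h2
      rw [h3, eval_smul_homogeneous (hG j), h1, mul_zero]
  · have h1 := D.zero j (s / t) (w / t ^ κ) (by
      rw [div_pow, hw, ← pow_mul, kappa_mul D.hκ, hform_of_ne D.degg ht, mul_comm,
        mul_div_assoc, div_self (pow_ne_zero _ ht), mul_one])
    have h3 : (Fin.snoc (fun i => hform κ (xs i) s t) w : Fin (N + 1) → ℂ) =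
        t ^ κ • (Fin.snoc (fun i => (xs i).eval (s / t)) (w / t ^ κ) : Fin (N + 1) → ℂ) := by
      funext i
      rw [Pi.smul_apply, smul_eq_mul]
      refine Fin.lastCases ?_ (fun i => ?_) i
      · rw [Fin.snoc_last, Fin.snoc_last, mul_div_cancel₀ _ (pow_ne_zero _ ht)]
      · rw [Fin.snoc_castSucc, Fin.snoc_castSucc, hform_of_ne (D.degx i) ht]
    rw [h3, eval_smul_homogeneous (hG j), h1, mul_zero]

section

variable {N c κ p : ℕ} {e : Fin c → ℕ} {G : Fin c → MvPolynomial (Fin (N + 1)) ℂ}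
  {P : Fin (N + 1) → ℂ} {xs : Fin N → Polynomial ℂ} {g : Polynomial ℂ}

lemma hform_inj {d : ℕ} {q q' : Polynomial ℂ} (hq : q.natDegree ≤ d) (hq' : q'.natDegree ≤ d)
    (h : ∀ s, hform d q s 1 = hform d q' s 1) : q = q' := by
  apply Polynomial.funext
  intro s
  rw [← hform_one hq, ← hform_one hq', h]

lemma hform_C_mul (d : ℕ) (a : ℂ) (q : Polynomial ℂ) (s t : ℂ) :
    hform d (Polynomial.C a * q) s t = a * hform d q s t := by
  unfold hform
  rw [Finset.mul_sum]
  apply Finset.sum_congr rfl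
  intro i _
  rw [Polynomial.coeff_C_mul]
  ring

/-- A root of `g` can be moved to infinity. -/
lemma HData.normalize (D : HData κ p G P xs g) (hlast : P (Fin.last N) ≠ 0) :
    ∃ xs' g', HData κ p G P xs' g' ∧ g'.natDegree ≤ κ + 1 := by
  have hg0 : g.eval 0 ≠ 0 := by
    rw [D.g0]
    exact pow_ne_zero _ hlast
  -- a root of the reversed polynomial
  obtain ⟨a, ha⟩ : ∃ a : ℂ, hform (κ + 2) g 1 a = 0 := by
    have hdeg : (g.reflect (κ + 2)).degree ≠ 0 := by
      intro h
      have h1 : (g.reflect (κ + 2)).coeff (κ + 2) = 0 := by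
        apply Polynomial.coeff_eq_zero_of_degree_lt
        rw [h]
        exact_mod_cast Nat.succ_pos _
      rw [Polynomial.coeff_reflect, Polynomial.revAt_le le_rfl, Nat.sub_self,
        Polynomial.coeff_zero_eq_eval_zero] at h1
      exact hg0 h1
    obtain ⟨a, ha⟩ := IsAlgClosed.exists_root _ hdeg
    refine ⟨a, ?_⟩
    rw [← eval_reflect_eq_hform D.degg]
    exact ha
  have hx : ∀ i, ∃ q : Polynomial ℂ, q.natDegree ≤ κ ∧
      ∀ s t, hform κ q s t = hform κ (xs i) (1 * s + 0 * t) (a * s + 1 * t) :=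
    fun i => exists_subst κ (xs i) 1 0 a 1
  choose xs' hxs' hxs using hx
  obtain ⟨g', hg', hg⟩ := exists_subst (κ + 2) g 1 0 a 1
  simp only [one_mul, zero_mul, add_zero] at hxs hg
  refine ⟨xs', g', ⟨D.hκ, hxs', hg', ?_, ?_, ?_, ?_⟩, ?_⟩
  · intro i
    rw [← hform_one (hxs' i), hxs, mul_zero, zero_add, hform_one (D.degx i), D.x0]
  · rw [← hform_one hg', hg, mul_zero, zero_add, hform_one D.degg, D.g0]
  · intro j s t w hw
    rw [hg] at hw
    simp only [hxs]
    exact D.zero j s (a * s + t) w hw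
  · obtain ⟨i, ℓ, hne⟩ := D.np
    refine ⟨i, ℓ, fun h => hne ?_⟩
    -- transfer by the inverse substitution
    have h1 : ∀ s t, P ℓ.castSucc * hform κ (xs i) s (a * s + t) =
        P i.castSucc * hform κ (xs ℓ) s (a * s + t) := by
      intro s t
      rw [← hxs, ← hxs, ← hform_C_mul, ← hform_C_mul, h]
    apply hform_inj (d := κ) ((Polynomial.natDegree_C_mul_le _ _).trans (D.degx i))
      ((Polynomial.natDegree_C_mul_le _ _).trans (D.degx ℓ))
    intro s
    rw [hform_C_mul, hform_C_mul]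
    have h2 := h1 s (1 - a * s)
    rw [add_sub_cancel] at h2
    exact h2
  · have hcoef : g'.coeff (κ + 2) = 0 := by
      have h1 : hform (κ + 2) g' 1 0 = 0 := by rw [hg, mul_one, add_zero, ha]
      rw [← h1]
      unfold hform
      rw [Finset.sum_eq_single (κ + 2)]
      · simp
      · intro b hb hb'
        have : κ + 2 - b ≠ 0 := by
          have := Finset.mem_range.mp hb
          omega
        rw [zero_pow this, mul_zero]
      · intro h
        exact absurd (Finset.mem_range.mpr (by omega)) h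
    by_contra hcon
    push Not at hcon
    have h2 : g'.natDegree = κ + 2 := le_antisymm hg' hcon
    rw [← h2, Polynomial.coeff_natDegree, Polynomial.leadingCoeff_eq_zero] at hcoef
    rw [hcoef, Polynomial.natDegree_zero] at h2
    omega

/-- Common factors of polynomials in one variable. -/
lemma exists_coprime {ι : Type*} [Fintype ι] (A : ι → Polynomial ℂ) (hA : ∃ i, A i ≠ 0) :
    ∃ (d : Polynomial ℂ) (B : ι → Polynomial ℂ), d ≠ 0 ∧ (∀ i, A i = d * B i) ∧
      ∀ z, ∃ i, (B i).eval z ≠ 0 := by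
  classical
  set I : Ideal (Polynomial ℂ) := Ideal.span (Set.range A) with hI
  have hprinc : I.IsPrincipal := IsPrincipalIdealRing.principal I
  obtain ⟨d, hd⟩ := hprinc
  have hd' : I = Ideal.span {d} := hd
  have hmem : ∀ i, ∃ b, A i = d * b := by
    intro i
    have h1 : A i ∈ I := Ideal.subset_span ⟨i, rfl⟩
    rw [hd', Ideal.mem_span_singleton] at h1
    exact h1
  choose B hB using hmem
  have hd0 : d ≠ 0 := by
    rintro rfl
    obtain ⟨i, hi⟩ := hA
    apply hi
    rw [hB i, zero_mul]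
  refine ⟨d, B, hd0, hB, ?_⟩
  intro z
  by_contra hcon
  push Not at hcon
  have h1 : d ∈ I := by
    rw [hd']
    exact Ideal.mem_span_singleton_self d
  rw [hI, Ideal.mem_span_range_iff_exists_fun] at h1
  obtain ⟨u, hu⟩ := h1
  have h2 : d * (∑ i, u i * B i) = d * 1 := by
    rw [mul_one, Finset.mul_sum]
    conv_rhs => rw [← hu]
    apply Finset.sum_congr rfl
    intro i _
    rw [hB i]
    ring
  have h3 := mul_left_cancel₀ hd0 h2
  have h4 := congrArg (Polynomial.eval z) h3
  rw [Polynomial.eval_finsetSum, Polynomial.eval_one] at h4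
  simp only [Polynomial.eval_mul, hcon, mul_zero, Finset.sum_const_zero] at h4
  exact zero_ne_one h4

/-- The polynomial `z ↦ hform d Q (S z) (T z)`. -/
noncomputable def hpoly (d : ℕ) (Q S T : Polynomial ℂ) : Polynomial ℂ :=
  ∑ i ∈ Finset.range (d + 1), Polynomial.C (Q.coeff i) * S ^ i * T ^ (d - i)

lemma eval_hpoly (d : ℕ) (Q S T : Polynomial ℂ) (z : ℂ) :
    (hpoly d Q S T).eval z = hform d Q (S.eval z) (T.eval z) := by
  unfold hpoly hform
  rw [Polynomial.eval_finsetSum]
  simp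

lemma HData.mem (D : HData κ p G P xs g) (hG : ∀ j, (G j).IsHomogeneous (e j)) {s t w : ℂ}
    (hw : w ^ (p + 1) = hform (κ + 2) g s t)
    (hne : (Fin.snoc (fun i => hform κ (xs i) s t) w : Fin (N + 1) → ℂ) ≠ 0) :
    Projectivization.mk ℂ _ hne ∈ projectiveSet G := by
  intro j
  rw [vanishesAt_mk (hG j)]
  exact D.zero j s t w hw

/-- Values `S / T` of a nonconstant function are not all roots. -/
lemma HData.exists_ne (D : HData κ p G P xs g) {S T : Polynomial ℂ} (hS : S.eval 1 = 0)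
    (hT : T.eval 1 ≠ 0) (hS0 : S ≠ 0) : ∃ (z : ℂ) (i ℓ : Fin N), z ≠ 0 ∧
      P ℓ.castSucc * hform κ (xs i) (S.eval z) (T.eval z) ≠
      P i.castSucc * hform κ (xs ℓ) (S.eval z) (T.eval z) := by
  obtain ⟨i, ℓ, hne⟩ := D.np
  by_contra hcon
  push Not at hcon
  set q := Polynomial.C (P ℓ.castSucc) * xs i - Polynomial.C (P i.castSucc) * xs ℓ with hq
  have hq0 : q ≠ 0 := sub_ne_zero.mpr hne
  have hqd : q.natDegree ≤ κ := (Polynomial.natDegree_sub_le _ _).trans (max_le
    ((Polynomial.natDegree_C_mul_le _ _).trans (D.degx i))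
    ((Polynomial.natDegree_C_mul_le _ _).trans (D.degx ℓ)))
  have hroot : ∀ z : ℂ, z ≠ 0 → T.eval z ≠ 0 → q.eval (S.eval z / T.eval z) = 0 := by
    intro z hz hTz
    have h1 := hcon z i ℓ hz
    rw [hform_of_ne (D.degx i) hTz, hform_of_ne (D.degx ℓ) hTz] at h1
    rw [hq, Polynomial.eval_sub, Polynomial.eval_mul, Polynomial.eval_mul, Polynomial.eval_C,
      Polynomial.eval_C]
    have h2 : T.eval z ^ κ ≠ 0 := pow_ne_zero _ hTz
    apply mul_left_cancel₀ h2
    linear_combination h1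
  have hT0 : T ≠ 0 := by
    rintro rfl
    simp at hT
  have hprod : Polynomial.X * T * ∏ ρ ∈ q.roots.toFinset, (S - Polynomial.C ρ * T) = 0 := by
    apply Polynomial.funext
    intro z
    rw [Polynomial.eval_zero, Polynomial.eval_mul, Polynomial.eval_mul, Polynomial.eval_X]
    by_cases hz : z = 0
    · rw [hz, zero_mul, zero_mul]
    by_cases hTz : T.eval z = 0
    · rw [hTz, mul_zero, zero_mul]
    · rw [Polynomial.eval_prod, mul_eq_zero]
      right
      rw [Finset.prod_eq_zero_iff]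
      refine ⟨S.eval z / T.eval z, ?_, ?_⟩
      · rw [Multiset.mem_toFinset, Polynomial.mem_roots hq0]
        exact hroot z hz hTz
      · rw [Polynomial.eval_sub, Polynomial.eval_mul, Polynomial.eval_C,
          div_mul_cancel₀ _ hTz, sub_self]
  rcases mul_eq_zero.mp hprod with h1 | h1
  · rcases mul_eq_zero.mp h1 with h2 | h2
    · exact Polynomial.X_ne_zero h2
    · exact hT0 h2
  · rw [Finset.prod_eq_zero_iff] at h1
    obtain ⟨ρ, -, hρ⟩ := h1
    have h2 := congrArg (Polynomial.eval 1) hρ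
    rw [Polynomial.eval_sub, Polynomial.eval_mul, Polynomial.eval_C, hS, Polynomial.eval_zero,
      zero_sub, neg_eq_zero, mul_eq_zero] at h2
    have h3 : ρ = 0 := h2.resolve_right hT
    rw [h3, Polynomial.C_0, zero_mul, sub_zero] at hρ
    exact hS0 hρ

/-- Rational curves give morphisms from `G_m`. -/
lemma HData.rat1 (D : HData κ p G P xs g) (hG : ∀ j, (G j).IsHomogeneous (e j)) (hP : P ≠ 0)
    (S T Y : Polynomial ℂ)
    (hY : ∀ z, Y.eval z ^ (p + 1) = hform (κ + 2) g (S.eval z) (T.eval z))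
    (hS : S.eval 1 = 0) (hT : T.eval 1 ≠ 0)
    (hY₀ : Y.eval 1 = T.eval 1 ^ κ * P (Fin.last N)) (hS0 : S ≠ 0) :
    Projectivization.mk ℂ P hP ∈ gmPoints (projectiveSet G) := by
  classical
  set A : Fin (N + 1) → Polynomial ℂ := Fin.snoc (fun i => hpoly κ (xs i) S T) Y with hAdef
  have hAz : ∀ z, (fun i => (A i).eval z) =
      Fin.snoc (fun i => hform κ (xs i) (S.eval z) (T.eval z)) (Y.eval z) := by
    intro z
    funext i
    rw [hAdef]
    refine Fin.lastCases ?_ (fun i => ?_) i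
    · rw [Fin.snoc_last, Fin.snoc_last]
    · rw [Fin.snoc_castSucc, Fin.snoc_castSucc, eval_hpoly]
  have hA1 : (fun i => (A i).eval 1) = T.eval 1 ^ κ • P := by
    rw [hAz]
    funext i
    rw [Pi.smul_apply, smul_eq_mul]
    refine Fin.lastCases ?_ (fun i => ?_) i
    · rw [Fin.snoc_last, hY₀]
    · rw [Fin.snoc_castSucc, hS, hform_of_ne (D.degx i) hT, zero_div, D.x0]
  have hA1ne : (fun i => (A i).eval 1) ≠ 0 := by
    rw [hA1]
    exact smul_ne_zero (pow_ne_zero _ hT) hP
  have hAne : ∃ i, A i ≠ 0 := by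
    by_contra hcon
    push Not at hcon
    apply hA1ne
    funext i
    rw [hcon i]
    simp
  obtain ⟨d, B, hd0, hAB, hB⟩ := exists_coprime A hAne
  have hBne : ∀ z, (fun i => (B i).eval z) ≠ 0 := by
    intro z h
    obtain ⟨i, hi⟩ := hB z
    exact hi (congrFun h i)
  have hABz : ∀ z, (fun i => (A i).eval z) = d.eval z • (fun i => (B i).eval z) := by
    intro z
    funext i
    rw [Pi.smul_apply, smul_eq_mul, hAB i, Polynomial.eval_mul]
  have hmk : ∀ z (h : (fun i => (A i).eval z) ≠ 0),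
      Projectivization.mk ℂ (fun i => (B i).eval z) (hBne z) =
      Projectivization.mk ℂ (fun i => (A i).eval z) h := by
    intro z h
    have hdz : d.eval z ≠ 0 := by
      intro h1
      apply h
      rw [hABz, h1, zero_smul]
    apply mk_eq_of_smul _ _ (d.eval z)⁻¹
    rw [hABz, smul_smul, inv_mul_cancel₀ hdz, one_smul]
  have hf1 : Projectivization.mk ℂ (fun i => (B i).eval 1) (hBne 1) =
      Projectivization.mk ℂ P hP := by
    rw [hmk 1 hA1ne]
    exact mk_eq_of_smul _ _ (T.eval 1 ^ κ) hA1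
  refine ⟨fun z => Projectivization.mk ℂ (fun i => (B i).eval z) (hBne z),
    ⟨B, fun z _ => ⟨hBne z, rfl⟩⟩, ?_, ?_, 1, one_ne_zero, hf1⟩
  · intro z _ j
    rw [vanishesAt_mk (hG j), ← eval_aeval]
    have h1 : d * aeval B (G j) = 0 := by
      apply Polynomial.funext
      intro y
      rw [Polynomial.eval_mul, Polynomial.eval_zero, eval_aeval]
      by_cases hdy : d.eval y = 0
      · rw [hdy, zero_mul]
      · have h2 : eval (fun i => (A i).eval y) (G j) = 0 := by
          rw [hAz]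
          exact D.zero j _ _ _ (hY y)
        rw [hABz, eval_smul_homogeneous (hG j)] at h2
        rw [(mul_eq_zero.mp h2).resolve_left (pow_ne_zero _ hdy), mul_zero]
    rw [(mul_eq_zero.mp h1).resolve_left hd0, Polynomial.eval_zero]
  · obtain ⟨z, i, ℓ, hz, hne⟩ := D.exists_ne hS hT hS0
    refine ⟨z, 1, hz, one_ne_zero, ?_⟩
    show Projectivization.mk ℂ (fun i => (B i).eval z) (hBne z) ≠
      Projectivization.mk ℂ (fun i => (B i).eval 1) (hBne 1)
    rw [hf1]
    intro h
    rw [Projectivization.mk_eq_mk_iff'] at h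
    obtain ⟨μ, hμ⟩ := h
    apply hne
    have h1 : ∀ i : Fin N, hform κ (xs i) (S.eval z) (T.eval z) =
        d.eval z * (μ * P i.castSucc) := by
      intro i
      have h2 := congrFun (hABz z) i.castSucc
      have h3 := congrFun (hAz z) i.castSucc
      rw [Fin.snoc_castSucc] at h3
      have h4 : (B i.castSucc).eval z = μ * P i.castSucc := (congrFun hμ i.castSucc).symm
      have h5 : (A i.castSucc).eval z = d.eval z * (B i.castSucc).eval z := h2
      rw [← h3, h5, h4]
    rw [h1, h1]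
    ring

lemma HData.rat (D : HData κ p G P xs g) (hG : ∀ j, (G j).IsHomogeneous (e j)) (hP : P ≠ 0)
    (S T Y : Polynomial ℂ)
    (hY : ∀ z, Y.eval z ^ (p + 1) = hform (κ + 2) g (S.eval z) (T.eval z)) (z₀ : ℂ)
    (hS : S.eval z₀ = 0) (hT : T.eval z₀ ≠ 0)
    (hY₀ : Y.eval z₀ = T.eval z₀ ^ κ * P (Fin.last N)) (hS0 : ∃ z, S.eval z ≠ 0) :
    Projectivization.mk ℂ P hP ∈ gmPoints (projectiveSet G) := by
  have hcomp : ∀ (Q : Polynomial ℂ) (z : ℂ),
      (Q.comp (Polynomial.X + Polynomial.C (z₀ - 1))).eval z = Q.eval (z + (z₀ - 1)) := by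
    intro Q z
    rw [Polynomial.eval_comp]
    simp
  have h1 : (1 : ℂ) + (z₀ - 1) = z₀ := by ring
  refine D.rat1 hG hP (S.comp (Polynomial.X + Polynomial.C (z₀ - 1)))
    (T.comp (Polynomial.X + Polynomial.C (z₀ - 1)))
    (Y.comp (Polynomial.X + Polynomial.C (z₀ - 1))) ?_ ?_ ?_ ?_ ?_
  · intro z
    rw [hcomp, hcomp, hcomp]
    exact hY _
  · rw [hcomp, h1, hS]
  · rw [hcomp, h1]
    exact hT
  · rw [hcomp, hcomp, h1, hY₀]
  · obtain ⟨z, hz⟩ := hS0
    intro h
    apply hz
    have h2 := hcomp S (z - (z₀ - 1))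
    rw [h, Polynomial.eval_zero, sub_add_cancel] at h2
    exact h2.symm

/-- Rational curves with `T = 1`. -/
lemma HData.rat' (D : HData κ p G P xs g) (hG : ∀ j, (G j).IsHomogeneous (e j)) (hP : P ≠ 0)
    (S Y : Polynomial ℂ) (hY : ∀ z, Y.eval z ^ (p + 1) = g.eval (S.eval z)) (z₀ : ℂ)
    (hS : S.eval z₀ = 0) (hY₀ : Y.eval z₀ = P (Fin.last N)) (hS0 : ∃ z, S.eval z ≠ 0) :
    Projectivization.mk ℂ P hP ∈ gmPoints (projectiveSet G) := by
  refine D.rat hG hP S 1 Y ?_ z₀ hS ?_ ?_ hS0
  · intro z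
    rw [Polynomial.eval_one, hform_one D.degg, hY]
  · simp
  · simp [hY₀]

end

end Pool.Agent.H86.Refl
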