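import Mathlib
import Pool.Agent.H86.Refl.HData

/-!
# Homogeneous curve data and elliptic curves
-/

set_option autoImplicit false

open Filter Topology

namespace Pool.Agent.H86.Refl

open MvPolynomial Pool.Agent.H84

section

variable {N c κ p : ℕ} {e : Fin c → ℕ} {G : Fin c → MvPolynomial (Fin (N + 1)) ℂ}
  {P : Fin (N + 1) → ℂ} {xs : Fin N → Polynomial ℂ} {g : Polynomial ℂ}

/-- The centre of the reflection, as a vector. -/
noncomputable def apex (N : ℕ) : Fin (N + 1) → ℂ := Fin.snoc (fun _ => 0) 1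

lemma apex_ne (N : ℕ) : apex N ≠ 0 := by
  intro h
  have h1 := congrFun h (Fin.last N)
  rw [apex, Fin.snoc_last] at h1
  exact one_ne_zero h1

/-- Substitution of a polynomial in two variables in a polynomial in one variable. -/
lemma eval_aeval₂ (q : Polynomial ℂ) (S : MvPolynomial (Fin 2) ℂ) (v : Fin 2 → ℂ) :
    eval v (Polynomial.aeval S q) = q.eval (eval v S) := by
  rw [Polynomial.aeval_def, Polynomial.hom_eval₂]
  have h1 : (eval v).comp (algebraMap ℂ (MvPolynomial (Fin 2) ℂ)) = RingHom.id ℂ := by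
    ext x
    simp
  rw [h1, Polynomial.eval₂_id]

/-- At a base point, the centre lies on the curve. -/
lemma HData.apex_zero (D : HData 2 1 G P xs g) {τ : ℂ} {xt : Fin N → Polynomial ℂ}
    {gt : Polynomial ℂ} (hG : ∀ j, (G j).IsHomogeneous (e j))
    (hxt : ∀ i, xs i = (Polynomial.X - Polynomial.C τ) * xt i)
    (hgt : g = (Polynomial.X - Polynomial.C τ) * gt) (hgτ : gt.eval τ ≠ 0) (j : Fin c) :
    eval (apex N) (G j) = 0 := by
  -- choose square roots
  have hroot : ∀ t : ℂ, ∃ w : ℂ, w ^ 2 = g.eval t := fun t =>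
    IsAlgClosed.exists_pow_nat_eq _ (by norm_num)
  choose w hw using hroot
  have hw' : ∀ t, w t ^ 2 = (t - τ) * gt.eval t := by
    intro t
    rw [hw, hgt, Polynomial.eval_mul, Polynomial.eval_sub, Polynomial.eval_X, Polynomial.eval_C]
  -- the function `(t - τ) / w t` tends to zero
  have hgt0 : ∀ᶠ t in 𝓝[≠] τ, gt.eval t ≠ 0 :=
    (gt.continuous.continuousAt.eventually_ne hgτ).filter_mono nhdsWithin_le_nhds
  have hne : ∀ᶠ t in 𝓝[≠] τ, t ≠ τ := self_mem_nhdsWithin
  have hwne : ∀ᶠ t in 𝓝[≠] τ, w t ≠ 0 := by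
    filter_upwards [hgt0, hne] with t h1 h2 h3
    have h4 := hw' t
    rw [h3, zero_pow two_ne_zero] at h4
    rcases mul_eq_zero.mp h4.symm with h5 | h5
    · exact h2 (sub_eq_zero.mp h5)
    · exact h1 h5
  have hlim : Tendsto (fun t => (t - τ) / w t) (𝓝[≠] τ) (𝓝 0) := by
    rw [tendsto_zero_iff_norm_tendsto_zero]
    have h1 : Tendsto (fun t => ‖(t - τ) / w t‖ ^ 2) (𝓝[≠] τ) (𝓝 0) := by
      have h2 : Tendsto (fun t => ‖(t - τ) / gt.eval t‖) (𝓝[≠] τ) (𝓝 0) := by
        have h3 : Tendsto (fun t => (t - τ) / gt.eval t) (𝓝[≠] τ) (𝓝 0) := by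
          have h4 : Tendsto (fun t => (t - τ) / gt.eval t) (𝓝 τ) (𝓝 ((τ - τ) / gt.eval τ)) :=
            ((continuous_id.sub continuous_const).tendsto τ).div (gt.continuous.tendsto τ) hgτ
          rw [sub_self, zero_div] at h4
          exact h4.mono_left nhdsWithin_le_nhds
        have h5 := h3.norm
        rw [norm_zero] at h5
        exact h5
      refine h2.congr' ?_
      filter_upwards [hgt0, hwne, hne] with t ht1 ht2 ht3
      rw [← norm_pow, div_pow, hw']
      congr 1
      have ht4 : t - τ ≠ 0 := sub_ne_zero.mpr ht3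
      field_simp
    have h6 : Tendsto (fun t => (‖(t - τ) / w t‖ ^ 2) ^ (((2 : ℕ) : ℝ)⁻¹)) (𝓝[≠] τ)
        (𝓝 ((0 : ℝ) ^ (((2 : ℕ) : ℝ)⁻¹))) := by
      apply Tendsto.rpow_const h1
      right
      positivity
    rw [Real.zero_rpow (by norm_num)] at h6
    refine h6.congr fun t => ?_
    rw [Real.pow_rpow_inv_natCast (norm_nonneg _) two_ne_zero]
  let R : ℂ → Fin (N + 1) → ℂ := fun t =>
    Fin.snoc (fun i => ((t - τ) / w t) * (xt i).eval t) 1
  have hR : Tendsto R (𝓝[≠] τ) (𝓝 (apex N)) := by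
    rw [tendsto_pi_nhds]
    intro i
    refine Fin.lastCases ?_ (fun i => ?_) i
    · simp only [R, apex, Fin.snoc_last]
      exact tendsto_const_nhds
    · simp only [R, apex, Fin.snoc_castSucc]
      have h1 := hlim.mul (((xt i).continuous.tendsto τ).mono_left
        (nhdsWithin_le_nhds (s := {τ}ᶜ)))
      rw [zero_mul] at h1
      exact h1
  have hlim2 : Tendsto (fun t => eval (R t) (G j)) (𝓝[≠] τ) (𝓝 (eval (apex N) (G j))) :=
    ((MvPolynomial.continuous_eval (G j)).tendsto (apex N)).comp hR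
  refine tendsto_nhds_unique hlim2 ?_
  refine Tendsto.congr' ?_ tendsto_const_nhds
  filter_upwards [hwne] with t ht
  have h1 : (Fin.snoc (fun i => hform 2 (xs i) t 1) (w t) : Fin (N + 1) → ℂ) = w t • R t := by
    funext i
    rw [Pi.smul_apply, smul_eq_mul]
    refine Fin.lastCases ?_ (fun i => ?_) i
    · simp only [R, Fin.snoc_last, mul_one]
    · simp only [R, Fin.snoc_castSucc]
      rw [hform_one (D.degx i), hxt, Polynomial.eval_mul, Polynomial.eval_sub,
        Polynomial.eval_X, Polynomial.eval_C]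
      field_simp
  have h2 := D.zero j t 1 (w t) (by rw [hform_one D.degg]; exact hw t)
  rw [h1, eval_smul_homogeneous (hG j)] at h2
  exact ((mul_eq_zero.mp h2).resolve_left (pow_ne_zero _ ht)).symm

/-- A morphism from an elliptic curve. -/
lemma HData.ell (D : HData κ p G P xs g) (hG : ∀ j, (G j).IsHomogeneous (e j)) (hP : P ≠ 0)
    {a b : ℂ} (hΔ : 4 * a ^ 3 + 27 * b ^ 2 ≠ 0) (S Y : MvPolynomial (Fin 2) ℂ)
    (hY : ∀ q ∈ affineE a b, eval ![q.1, q.2] Y ^ (p + 1) = g.eval (eval ![q.1, q.2] S))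
    (hS : ∀ t : ℂ, ∃ q ∈ affineE a b, eval ![q.1, q.2] S = t)
    {p₀ : ℂ × ℂ} (hp₀ : p₀ ∈ affineE a b) (hS₀ : eval ![p₀.1, p₀.2] S = 0)
    (hY₀ : eval ![p₀.1, p₀.2] Y = P (Fin.last N))
    (hbase : ∀ τ, g.eval τ = 0 → (∀ i, (xs i).eval τ = 0) →
      p = 1 ∧ g.derivative.eval τ ≠ 0) :
    Projectivization.mk ℂ P hP ∈ ellipticPoints (projectiveSet G) := by
  classical
  set A : Fin (N + 1) → MvPolynomial (Fin 2) ℂ :=
    Fin.snoc (fun i => Polynomial.aeval S (xs i)) Y with hAdef
  have hAq : ∀ q : ℂ × ℂ, (fun i => eval ![q.1, q.2] (A i)) =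
      (Fin.snoc (fun i => (xs i).eval (eval ![q.1, q.2] S)) (eval ![q.1, q.2] Y) :
        Fin (N + 1) → ℂ) := by
    intro q
    funext i
    rw [hAdef]
    refine Fin.lastCases ?_ (fun i => ?_) i
    · rw [Fin.snoc_last, Fin.snoc_last]
    · rw [Fin.snoc_castSucc, Fin.snoc_castSucc, eval_aeval₂]
  have hAzero : ∀ q ∈ affineE a b, ∀ j, eval (fun i => eval ![q.1, q.2] (A i)) (G j) = 0 := by
    intro q hq j
    rw [hAq]
    have h1 := D.zero j (eval ![q.1, q.2] S) 1 (eval ![q.1, q.2] Y)
      (by rw [hform_one D.degg]; exact hY q hq)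
    simp only [fun i => hform_one (D.degx i)] at h1
    exact h1
  -- base points
  have hAbase : ∀ q ∈ affineE a b, (fun i => eval ![q.1, q.2] (A i)) = 0 →
      g.eval (eval ![q.1, q.2] S) = 0 ∧ (∀ i, (xs i).eval (eval ![q.1, q.2] S) = 0) ∧
      eval ![q.1, q.2] Y = 0 := by
    intro q hq h
    rw [hAq] at h
    have h1 : eval ![q.1, q.2] Y = 0 := by
      have h2 := congrFun h (Fin.last N)
      rw [Fin.snoc_last] at h2
      exact h2
    refine ⟨?_, fun i => ?_, h1⟩
    · rw [← hY q hq, h1, zero_pow (Nat.succ_ne_zero p)]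
    · have h2 := congrFun h i.castSucc
      rw [Fin.snoc_castSucc] at h2
      exact h2
  set f : ℂ × ℂ → PSpace N := fun q =>
    if h : (fun i => eval ![q.1, q.2] (A i)) ≠ 0 then Projectivization.mk ℂ _ h
    else Projectivization.mk ℂ (apex N) (apex_ne N) with hf
  have hf1 : ∀ q (h : (fun i => eval ![q.1, q.2] (A i)) ≠ 0),
      f q = Projectivization.mk ℂ _ h := by
    intro q h
    rw [hf]
    simp only [dif_pos h]
  have hf2 : ∀ q, (fun i => eval ![q.1, q.2] (A i)) = 0 →
      f q = Projectivization.mk ℂ (apex N) (apex_ne N) := by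
    intro q h
    rw [hf]
    simp only [h, ne_eq, not_true_eq_false, dite_false]
  -- the factorisation at a base point
  have hfac : ∀ τ, g.eval τ = 0 → (∀ i, (xs i).eval τ = 0) → p = 1 ∧
      ∃ (xt : Fin N → Polynomial ℂ) (gt : Polynomial ℂ),
        (∀ i, xs i = (Polynomial.X - Polynomial.C τ) * xt i) ∧
        g = (Polynomial.X - Polynomial.C τ) * gt ∧ gt.eval τ ≠ 0 := by
    intro τ h1 h2
    obtain ⟨hp, hd⟩ := hbase τ h1 h2
    refine ⟨hp, ?_⟩
    have h3 : ∀ i, ∃ q, xs i = (Polynomial.X - Polynomial.C τ) * q :=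
      fun i => Polynomial.dvd_iff_isRoot.mpr (h2 i)
    choose xt hxt using h3
    obtain ⟨gt, hgt⟩ : ∃ q, g = (Polynomial.X - Polynomial.C τ) * q :=
      Polynomial.dvd_iff_isRoot.mpr h1
    refine ⟨xt, gt, hxt, hgt, ?_⟩
    rw [hgt, Polynomial.derivative_mul] at hd
    simpa using hd
  have hfp₀ : f p₀ = Projectivization.mk ℂ P hP := by
    have h1 : (fun i => eval ![p₀.1, p₀.2] (A i)) = P := by
      rw [hAq, hS₀, hY₀]
      simp only [D.x0]
      exact snoc_self P
    rw [hf1 p₀ (by rw [h1]; exact hP)]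
    congr 1
  refine ⟨a, b, f, hΔ, ?_, ?_, ?_, p₀, hp₀, hfp₀⟩
  · -- morphism
    intro q₁ hq₁
    by_cases hA : (fun i => eval ![q₁.1, q₁.2] (A i)) = 0
    · obtain ⟨h1, h2, h3⟩ := hAbase q₁ hq₁ hA
      obtain ⟨hp, xt, gt, hxt, hgt, hgτ⟩ := hfac _ h1 h2
      set τ := eval ![q₁.1, q₁.2] S with hτ
      set B : Fin (N + 1) → MvPolynomial (Fin 2) ℂ :=
        Fin.snoc (fun i => Y * Polynomial.aeval S (xt i)) (Polynomial.aeval S gt) with hBdef
      have hBq : ∀ q : ℂ × ℂ, (fun i => eval ![q.1, q.2] (B i)) =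
          (Fin.snoc (fun i => eval ![q.1, q.2] Y * (xt i).eval (eval ![q.1, q.2] S))
            (gt.eval (eval ![q.1, q.2] S)) : Fin (N + 1) → ℂ) := by
        intro q
        funext i
        rw [hBdef]
        refine Fin.lastCases ?_ (fun i => ?_) i
        · rw [Fin.snoc_last, Fin.snoc_last, eval_aeval₂]
        · rw [Fin.snoc_castSucc, Fin.snoc_castSucc, map_mul, eval_aeval₂]
      refine ⟨B, ?_, ?_⟩
      · rw [hBq]
        intro h
        have h4 := congrFun h (Fin.last N)
        rw [Fin.snoc_last] at h4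
        exact hgτ h4
      · intro q hq hBne
        by_cases hAq0 : (fun i => eval ![q.1, q.2] (A i)) = 0
        · rw [hf2 q hAq0]
          obtain ⟨-, -, h4⟩ := hAbase q hq hAq0
          have h5 : (fun i => eval ![q.1, q.2] (B i)) =
              gt.eval (eval ![q.1, q.2] S) • apex N := by
            rw [hBq]
            funext i
            rw [Pi.smul_apply, smul_eq_mul]
            refine Fin.lastCases ?_ (fun i => ?_) i
            · rw [Fin.snoc_last, apex, Fin.snoc_last, mul_one]
            · rw [Fin.snoc_castSucc, apex, Fin.snoc_castSucc, h4, zero_mul, mul_zero]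
          exact (mk_eq_of_smul hBne (apex_ne N) _ h5).symm
        · rw [hf1 q hAq0]
          -- `gt • A = Y • B`
          have h5 : gt.eval (eval ![q.1, q.2] S) • (fun i => eval ![q.1, q.2] (A i)) =
              eval ![q.1, q.2] Y • (fun i => eval ![q.1, q.2] (B i)) := by
            have h6 : eval ![q.1, q.2] Y ^ 2 =
                (eval ![q.1, q.2] S - τ) * gt.eval (eval ![q.1, q.2] S) := by
              have h7 := hY q hq
              rw [hp] at h7
              rw [h7]
              conv_lhs => rw [hgt]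
              rw [Polynomial.eval_mul, Polynomial.eval_sub, Polynomial.eval_X,
                Polynomial.eval_C]
            rw [hAq, hBq]
            funext i
            rw [Pi.smul_apply, Pi.smul_apply, smul_eq_mul, smul_eq_mul]
            refine Fin.lastCases ?_ (fun i => ?_) i
            · rw [Fin.snoc_last, Fin.snoc_last, mul_comm]
            · rw [Fin.snoc_castSucc, Fin.snoc_castSucc, hxt, Polynomial.eval_mul,
                Polynomial.eval_sub, Polynomial.eval_X, Polynomial.eval_C]
              linear_combination (-(xt i).eval (eval ![q.1, q.2] S)) * h6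
          by_cases hYq : eval ![q.1, q.2] Y = 0
          · exfalso
            have hgq : gt.eval (eval ![q.1, q.2] S) ≠ 0 := by
              intro h7
              apply hBne
              rw [hBq]
              funext i
              refine Fin.lastCases ?_ (fun i => ?_) i
              · rw [Fin.snoc_last, h7]
                rfl
              · rw [Fin.snoc_castSucc, hYq, zero_mul]
                rfl
            rw [hYq, zero_smul] at h5
            exact hAq0 ((smul_eq_zero.mp h5).resolve_left hgq)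
          · have h7 : (fun i => eval ![q.1, q.2] (B i)) =
                ((eval ![q.1, q.2] Y)⁻¹ * gt.eval (eval ![q.1, q.2] S)) •
                  (fun i => eval ![q.1, q.2] (A i)) := by
              rw [mul_smul, h5, smul_smul, inv_mul_cancel₀ hYq, one_smul]
            exact (mk_eq_of_smul hBne hAq0 _ h7).symm
    · refine ⟨A, hA, ?_⟩
      intro q _ h
      exact hf1 q h
  · -- membership
    intro q hq
    by_cases hA : (fun i => eval ![q.1, q.2] (A i)) = 0
    · rw [hf2 q hA]
      intro j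
      rw [vanishesAt_mk (hG j)]
      obtain ⟨h1, h2, h3⟩ := hAbase q hq hA
      obtain ⟨hp, xt, gt, hxt, hgt, hgτ⟩ := hfac _ h1 h2
      subst hp
      have hκ : κ = 2 := by have := D.hκ; omega
      subst hκ
      exact D.apex_zero hG hxt hgt hgτ j
    · rw [hf1 q hA]
      intro j
      rw [vanishesAt_mk (hG j)]
      exact hAzero q hq j
  · -- nonconstancy
    obtain ⟨i, ℓ, hne⟩ := D.np
    obtain ⟨t, ht⟩ : ∃ t, (Polynomial.C (P ℓ.castSucc) * xs i).eval t ≠
        (Polynomial.C (P i.castSucc) * xs ℓ).eval t := by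
      by_contra hcon
      push Not at hcon
      exact hne (Polynomial.funext hcon)
    rw [Polynomial.eval_mul, Polynomial.eval_mul, Polynomial.eval_C, Polynomial.eval_C] at ht
    obtain ⟨q, hq, hqt⟩ := hS t
    refine ⟨q, hq, p₀, hp₀, ?_⟩
    have hAi : ∀ i : Fin N, eval ![q.1, q.2] (A i.castSucc) = (xs i).eval t := by
      intro i
      have h1 := congrFun (hAq q) i.castSucc
      rw [Fin.snoc_castSucc, hqt] at h1
      exact h1
    have hA : (fun i => eval ![q.1, q.2] (A i)) ≠ 0 := by
      intro h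
      apply ht
      have h1 : ∀ i : Fin N, (xs i).eval t = 0 := by
        intro i
        rw [← hAi]
        exact congrFun h i.castSucc
      rw [h1, h1, mul_zero, mul_zero]
    rw [hf1 q hA, hfp₀]
    intro h
    rw [Projectivization.mk_eq_mk_iff'] at h
    obtain ⟨μ, hμ⟩ := h
    apply ht
    have h1 : ∀ i : Fin N, (xs i).eval t = μ * P i.castSucc := by
      intro i
      rw [← hAi]
      exact (congrFun hμ i.castSucc).symm
    rw [h1, h1]
    ring

end

end Pool.Agent.H86.Refl
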