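import Mathlib
import Pool.Agent.H86.Refl.Ell

/-!
# Curve data and one-dimensional semi-abelian varieties
-/

set_option autoImplicit false

open Filter Topology

namespace Pool.Agent.H86.Refl

open MvPolynomial Pool.Agent.H84

section

variable {N c κ p : ℕ} {e : Fin c → ℕ} {G : Fin c → MvPolynomial (Fin (N + 1)) ℂ}
  {P : Fin (N + 1) → ℂ} {xs : Fin N → Polynomial ℂ} {g : Polynomial ℂ}

lemma exists_root {r : ℕ} (hr : r ≠ 0) (ν : ℂ) : ∃ c : ℂ, c ^ r = ν :=
  IsAlgClosed.exists_pow_nat_eq ν (Nat.pos_of_ne_zero hr)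

/-- `g` of degree at most one. -/
lemma HData.case_linear (D : HData κ p G P xs g) (hG : ∀ j, (G j).IsHomogeneous (e j))
    (hP : P ≠ 0) (hw0 : P (Fin.last N) ≠ 0) (c₀ c₁ : ℂ)
    (hg : ∀ t, g.eval t = c₁ * t + c₀) :
    Projectivization.mk ℂ P hP ∈ gmPoints (projectiveSet G) := by
  have hwc : P (Fin.last N) ^ (p + 1) = c₀ := by rw [← D.g0, hg]; ring
  by_cases hc₁ : c₁ = 0
  · refine D.rat' hG hP Polynomial.X (Polynomial.C (P (Fin.last N))) ?_ 0 ?_ ?_ ⟨1, ?_⟩
    · intro u
      rw [hg, hc₁, Polynomial.eval_C, hwc]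
      ring
    · simp
    · simp
    · simp
  · refine D.rat' hG hP (Polynomial.C c₁⁻¹ * (Polynomial.X ^ (p + 1) - Polynomial.C c₀))
      Polynomial.X ?_ (P (Fin.last N)) ?_ ?_ ⟨0, ?_⟩
    · intro u
      rw [hg]
      simp only [Polynomial.eval_X, Polynomial.eval_mul, Polynomial.eval_C, Polynomial.eval_sub,
        Polynomial.eval_pow]
      rw [← mul_assoc, mul_inv_cancel₀ hc₁]
      ring
    · simp [hwc]
    · simp
    · have hc₀ : c₀ ≠ 0 := by rw [← hwc]; exact pow_ne_zero _ hw0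
      simp [hc₁, hc₀]

/-- The conic `y² = g(t)`. -/
lemma HData.case_conic (D : HData 2 1 G P xs g) (hG : ∀ j, (G j).IsHomogeneous (e j))
    (hP : P ≠ 0) (hw0 : P (Fin.last N) ≠ 0) (c₀ c₁ c₂ : ℂ) (hc₂ : c₂ ≠ 0)
    (hg : ∀ t, g.eval t = c₂ * t ^ 2 + c₁ * t + c₀) :
    Projectivization.mk ℂ P hP ∈ gmPoints (projectiveSet G) := by
  set w := P (Fin.last N) with hw
  have hwc : w ^ 2 = c₀ := by
    have h1 := D.g0
    rw [hg] at h1
    rw [← hw] at h1
    linear_combination -h1
  set h := c₁ / (2 * c₂) with hh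
  set k := c₂ * h ^ 2 - c₀ with hk
  have hc₁ : c₁ = 2 * c₂ * h := by rw [hh]; field_simp
  obtain ⟨σ, hσ, hσw⟩ : ∃ σ : ℂ, σ ^ 2 = c₂ ∧ σ * h + w ≠ 0 := by
    obtain ⟨σ, hσ⟩ := exists_root two_ne_zero c₂
    by_cases h1 : σ * h + w = 0
    · refine ⟨-σ, by rw [neg_sq, hσ], ?_⟩
      intro h2
      have h3 : 2 * w = 0 := by linear_combination h1 + h2
      rcases mul_eq_zero.mp h3 with h4 | h4
      · exact two_ne_zero h4
      · exact hw0 h4
    · exact ⟨σ, hσ, h1⟩
  have hσ0 : σ ≠ 0 := by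
    rintro rfl
    apply hc₂
    rw [← hσ]
    ring
  set z₀ := σ * h + w with hz₀
  have hz₀' : z₀ ^ 2 + k = 2 * σ * h * z₀ := by
    rw [hk, hz₀, ← hσ, ← hwc]
    ring
  set S : Polynomial ℂ := Polynomial.C (2 * σ)⁻¹ * (Polynomial.X ^ 2 + Polynomial.C k) -
    Polynomial.C h * Polynomial.X with hS
  have hSe : ∀ z, S.eval z = (2 * σ)⁻¹ * (z ^ 2 + k) - h * z := by
    intro z
    rw [hS]
    simp
  have h2σ : (2 * σ) ≠ 0 := mul_ne_zero two_ne_zero hσ0
  have hS0 : ∃ z, S.eval z ≠ 0 := by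
    by_contra hcon
    push Not at hcon
    have h1 := hSe 0
    have h2 := hSe 1
    have h3 := hSe (-1)
    rw [hcon] at h1 h2 h3
    have h4 : (2 * σ)⁻¹ = 0 := by linear_combination (2 * h1 - h2 - h3) / 2
    exact inv_ne_zero h2σ h4
  have hdeg : g.natDegree ≤ 2 + 2 := D.degg
  refine D.rat hG hP S Polynomial.X (Polynomial.C 2⁻¹ * (Polynomial.X ^ 3 - Polynomial.C k *
    Polynomial.X)) ?_ z₀ ?_ ?_ ?_ hS0
  · intro z
    by_cases hz : z = 0
    · subst hz
      have h1 : hform (2 + 2) g (S.eval 0) (Polynomial.X.eval 0) =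
          g.coeff 4 * (S.eval 0) ^ 4 := by
        unfold hform
        simp [Finset.sum_range_succ]
      have h2 : g.coeff 4 = 0 := by
        have h3 : g = Polynomial.C c₂ * Polynomial.X ^ 2 + Polynomial.C c₁ * Polynomial.X +
            Polynomial.C c₀ := by
          apply Polynomial.funext
          intro t
          rw [hg]
          simp
        rw [h3]
        simp
      rw [h1, h2]
      simp
    · rw [Polynomial.eval_X, hform_of_ne hdeg hz, hg, hSe, hc₁]
      simp only [Polynomial.eval_mul, Polynomial.eval_C, Polynomial.eval_sub, Polynomial.eval_pow,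
        Polynomial.eval_X]
      have hc₀ : c₀ = σ ^ 2 * h ^ 2 - k := by rw [hk, hσ]; ring
      rw [hc₀, ← hσ]
      field_simp
      ring
  · rw [hSe, hz₀', inv_mul_eq_div]
    field_simp
    ring
  · rw [Polynomial.eval_X]
    exact hσw
  · simp only [Polynomial.eval_mul, Polynomial.eval_C, Polynomial.eval_sub, Polynomial.eval_pow,
      Polynomial.eval_X]
    have h1 : w = z₀ - σ * h := by rw [hz₀]; ring
    rw [← hw, h1]
    linear_combination (-z₀ / 2) * hz₀'

/-- The curve `y² = g(t)`, `g` cubic. -/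
lemma HData.case_cubic (D : HData 2 1 G P xs g) (hG : ∀ j, (G j).IsHomogeneous (e j))
    (hP : P ≠ 0) (hw0 : P (Fin.last N) ≠ 0) (c₀ c₁ c₂ c₃ : ℂ) (hc₃ : c₃ ≠ 0)
    (hg : ∀ t, g.eval t = c₃ * t ^ 3 + c₂ * t ^ 2 + c₁ * t + c₀) :
    Projectivization.mk ℂ P hP ∈
      gmPoints (projectiveSet G) ∪ ellipticPoints (projectiveSet G) := by
  set w := P (Fin.last N) with hw
  have hwc : w ^ 2 = c₀ := by
    have h1 := D.g0
    rw [hg] at h1
    rw [← hw] at h1
    linear_combination -h1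
  obtain ⟨γ, hγ⟩ := exists_root two_ne_zero c₃
  have hγ0 : γ ≠ 0 := by
    rintro rfl
    apply hc₃
    rw [← hγ]
    ring
  set β := -c₂ / (3 * c₃) with hβ
  have hc₂ : c₂ = -3 * c₃ * β := by rw [hβ]; field_simp
  obtain ⟨a, ha⟩ : ∃ a, c₁ = c₃ * (a + 3 * β ^ 2) :=
    ⟨c₁ / c₃ - 3 * β ^ 2, by field_simp; ring⟩
  obtain ⟨b, hb⟩ : ∃ b, c₀ = c₃ * (b - a * β - β ^ 3) :=
    ⟨c₀ / c₃ + a * β + β ^ 3, by field_simp; ring⟩
  have hgξ : ∀ ξ, g.eval (ξ + β) = c₃ * (ξ ^ 3 + a * ξ + b) := by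
    intro ξ
    rw [hg, hc₂, ha, hb]
    ring
  by_cases hΔ : 4 * a ^ 3 + 27 * b ^ 2 = 0
  · left
    obtain ⟨e', he1, he2⟩ : ∃ e' : ℂ, a = -3 * e' ^ 2 ∧ b = 2 * e' ^ 3 := by
      by_cases ha0 : a = 0
      · refine ⟨0, by rw [ha0]; ring, ?_⟩
        rw [ha0] at hΔ
        have : b = 0 := by
          have h1 : b ^ 2 = 0 := by linear_combination hΔ / 27
          exact pow_eq_zero_iff two_ne_zero |>.mp h1
        rw [this]
        ring
      · refine ⟨-3 * b / (2 * a), ?_, ?_⟩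
        · field_simp
          linear_combination hΔ
        · field_simp
          linear_combination b * hΔ
    have hξ0 : w ^ 2 = c₃ * ((-β - e') ^ 2 * (-β + 2 * e')) := by
      rw [hwc, hb, he1, he2]
      ring
    have hne : -β - e' ≠ 0 := by
      intro h0
      rw [h0] at hξ0
      apply hw0
      have : w ^ 2 = 0 := by rw [hξ0]; ring
      exact pow_eq_zero_iff two_ne_zero |>.mp this
    set u₀ := w / (γ * (-β - e')) with hu₀
    have hu₀2 : u₀ ^ 2 = 2 * e' - β := by
      rw [hu₀, div_pow, hξ0, mul_pow, hγ]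
      field_simp
      ring
    set S : Polynomial ℂ := Polynomial.X ^ 2 + Polynomial.C (β - 2 * e') with hS
    have hSe : ∀ u, S.eval u = u ^ 2 + (β - 2 * e') := by
      intro u
      rw [hS]
      simp
    obtain ⟨u₁, hu₁⟩ : ∃ u₁, S.eval u₁ ≠ 0 := by
      by_cases h0 : S.eval 0 = 0
      · refine ⟨1, ?_⟩
        rw [hSe] at h0 ⊢
        intro h1
        have : (1 : ℂ) = 0 := by linear_combination h1 - h0
        exact one_ne_zero this
      · exact ⟨0, h0⟩
    refine D.rat' hG hP S (Polynomial.C γ * (Polynomial.X * (Polynomial.X ^ 2 -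
      Polynomial.C (3 * e')))) ?_ u₀ ?_ ?_ ⟨u₁, hu₁⟩
    · intro u
      have h1 : S.eval u = (u ^ 2 - 2 * e') + β := by rw [hSe]; ring
      rw [h1, hgξ, he1, he2, ← hγ]
      simp only [Polynomial.eval_mul, Polynomial.eval_C, Polynomial.eval_sub,
        Polynomial.eval_pow, Polynomial.eval_X]
      ring
    · rw [hSe, hu₀2]
      ring
    · simp only [Polynomial.eval_mul, Polynomial.eval_C, Polynomial.eval_sub,
        Polynomial.eval_pow, Polynomial.eval_X]
      rw [hu₀2, hu₀]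
      have h2 : 2 * e' - β - 3 * e' = -β - e' := by ring
      rw [h2]
      field_simp
      exact hw
  · right
    have hgder : ∀ τ, g.derivative.eval τ = c₃ * (3 * (τ - β) ^ 2 + a) := by
      intro τ
      have h3 : g = Polynomial.C c₃ * Polynomial.X ^ 3 + Polynomial.C c₂ * Polynomial.X ^ 2 +
          Polynomial.C c₁ * Polynomial.X + Polynomial.C c₀ := by
        apply Polynomial.funext
        intro t
        rw [hg]
        simp
      rw [h3]
      simp
      rw [hc₂, ha]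
      ring
    refine D.ell hG hP hΔ (MvPolynomial.X 0 + MvPolynomial.C β)
      (MvPolynomial.C γ * MvPolynomial.X 1) ?_ ?_ (p₀ := (-β, w / γ)) ?_ ?_ ?_ ?_
    · intro q hq
      have hq' : q.2 ^ 2 = q.1 ^ 3 + a * q.1 + b := hq
      simp only [map_mul, map_add, MvPolynomial.eval_C, MvPolynomial.eval_X,
        Matrix.cons_val_zero, Matrix.cons_val_one]
      rw [hgξ, mul_pow, hγ, hq']
    · intro t
      obtain ⟨η₁, hη₁⟩ := exists_root two_ne_zero ((t - β) ^ 3 + a * (t - β) + b)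
      refine ⟨(t - β, η₁), hη₁, ?_⟩
      simp
    · show (w / γ) ^ 2 = (-β) ^ 3 + a * (-β) + b
      rw [div_pow, hγ, hwc, hb]
      field_simp
      ring
    · simp
    · simp only [map_mul, MvPolynomial.eval_C, MvPolynomial.eval_X, Matrix.cons_val_one,
        Matrix.cons_val_fin_one]
      field_simp
      exact hw
    · intro τ hτ _
      refine ⟨rfl, ?_⟩
      intro hd
      rw [hgder] at hd
      have h1 := hgξ (τ - β)
      rw [sub_add_cancel, hτ] at h1
      have h2 : 3 * (τ - β) ^ 2 + a = 0 := (mul_eq_zero.mp hd).resolve_left hc₃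
      have h3 : (τ - β) ^ 3 + a * (τ - β) + b = 0 := (mul_eq_zero.mp h1.symm).resolve_left hc₃
      apply hΔ
      have ha' : a = -3 * (τ - β) ^ 2 := by linear_combination h2
      have hb' : b = 2 * (τ - β) ^ 3 := by linear_combination h3 - (τ - β) * h2
      rw [ha', hb']
      ring

/-- In the case `κ = 1` there are no base points. -/
lemma HData.no_base (D : HData 1 2 G P xs g) {τ : ℂ} (hτ : τ ≠ 0)
    (h : ∀ i, (xs i).eval τ = 0) : False := by
  obtain ⟨i, ℓ, hne⟩ := D.np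
  apply hne
  have h1 : ∀ i, xs i = Polynomial.C (P i.castSucc) *
      (1 - Polynomial.C τ⁻¹ * Polynomial.X) := by
    intro i
    have h2 : ∀ t, (xs i).eval t = (xs i).coeff 1 * t + (xs i).coeff 0 := by
      intro t
      rw [Polynomial.eval_eq_sum_range' (n := 2) (lt_of_le_of_lt (D.degx i) (by omega))]
      simp [Finset.sum_range_succ]
      ring
    have h3 : (xs i).coeff 0 = P i.castSucc := by
      rw [← D.x0 i, Polynomial.coeff_zero_eq_eval_zero]
    have h4 : (xs i).coeff 1 = -(P i.castSucc) * τ⁻¹ := by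
      have h5 := h2 τ
      rw [h i, h3] at h5
      field_simp
      linear_combination -h5
    apply Polynomial.funext
    intro t
    rw [h2, h3, h4]
    simp
    ring
  rw [h1 i, h1 ℓ]
  ring

/-- The curve `y³ = g(t)`, `g` quadratic. -/
lemma HData.case_cyclic (D : HData 1 2 G P xs g) (hG : ∀ j, (G j).IsHomogeneous (e j))
    (hP : P ≠ 0) (hw0 : P (Fin.last N) ≠ 0) (c₀ c₁ c₂ : ℂ) (hc₂ : c₂ ≠ 0)
    (hg : ∀ t, g.eval t = c₂ * t ^ 2 + c₁ * t + c₀) :
    Projectivization.mk ℂ P hP ∈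
      gmPoints (projectiveSet G) ∪ ellipticPoints (projectiveSet G) := by
  set w := P (Fin.last N) with hw
  have hwc : w ^ 3 = c₀ := by
    have h1 := D.g0
    rw [hg] at h1
    rw [← hw] at h1
    linear_combination -h1
  have hc₀ : c₀ ≠ 0 := by rw [← hwc]; exact pow_ne_zero _ hw0
  set h := c₁ / (2 * c₂) with hh
  set k := c₂ * h ^ 2 - c₀ with hk
  have hc₁ : c₁ = 2 * c₂ * h := by rw [hh]; field_simp
  obtain ⟨σ, hσ⟩ := exists_root two_ne_zero c₂
  have hσ0 : σ ≠ 0 := by
    rintro rfl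
    apply hc₂
    rw [← hσ]
    ring
  have hgτ : ∀ τ, g.eval (σ⁻¹ * τ - h) = τ ^ 2 - k := by
    intro τ
    rw [hg, hc₁, hk, ← hσ]
    field_simp
    ring
  by_cases hk0 : k = 0
  · left
    have hch : w ^ 3 = σ ^ 2 * h ^ 2 := by
      rw [hwc, hσ]
      have : c₂ * h ^ 2 - c₀ = 0 := by rw [← hk, hk0]
      linear_combination -this
    have hh0 : h ≠ 0 := by
      intro h0
      rw [h0] at hch
      apply hw0
      have : w ^ 3 = 0 := by rw [hch]; ring
      exact pow_eq_zero_iff three_ne_zero |>.mp this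
    have hu2 : (σ * h / w) ^ 2 = w := by
      rw [div_pow, mul_pow, ← hch]
      field_simp
    refine D.rat' hG hP (Polynomial.C σ⁻¹ * Polynomial.X ^ 3 - Polynomial.C h)
      (Polynomial.X ^ 2) ?_ (σ * h / w) ?_ ?_ ⟨0, ?_⟩
    · intro u
      simp only [Polynomial.eval_mul, Polynomial.eval_C, Polynomial.eval_sub,
        Polynomial.eval_pow, Polynomial.eval_X]
      rw [hgτ, hk0]
      ring
    · simp only [Polynomial.eval_mul, Polynomial.eval_C, Polynomial.eval_sub,
        Polynomial.eval_pow, Polynomial.eval_X]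
      rw [pow_succ, hu2]
      field_simp
      ring
    · simp only [Polynomial.eval_pow, Polynomial.eval_X]
      exact hu2
    · simp [hh0]
  · right
    have hΔ : 4 * (0 : ℂ) ^ 3 + 27 * k ^ 2 ≠ 0 := by
      have : (27 : ℂ) * k ^ 2 ≠ 0 := mul_ne_zero (by norm_num) (pow_ne_zero _ hk0)
      simpa using this
    refine D.ell hG hP hΔ (MvPolynomial.C σ⁻¹ * MvPolynomial.X 1 - MvPolynomial.C h)
      (MvPolynomial.X 0) ?_ ?_ (p₀ := (w, σ * h)) ?_ ?_ ?_ ?_
    · intro q hq
      have hq' : q.2 ^ 2 = q.1 ^ 3 + 0 * q.1 + k := hq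
      simp only [map_mul, map_sub, MvPolynomial.eval_C, MvPolynomial.eval_X,
        Matrix.cons_val_zero, Matrix.cons_val_one]
      rw [hgτ, hq']
      ring
    · intro t
      obtain ⟨ξ₁, hξ₁⟩ := exists_root three_ne_zero ((σ * (t + h)) ^ 2 - k)
      refine ⟨(ξ₁, σ * (t + h)), ?_, ?_⟩
      · show (σ * (t + h)) ^ 2 = ξ₁ ^ 3 + 0 * ξ₁ + k
        rw [hξ₁]
        ring
      · simp
        field_simp
        ring
    · show (σ * h) ^ 2 = w ^ 3 + 0 * w + k
      rw [mul_pow, hσ, hwc, hk]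
      ring
    · simp only [map_mul, map_sub, MvPolynomial.eval_C, MvPolynomial.eval_X,
        Matrix.cons_val_one, Matrix.cons_val_fin_one]
      field_simp
      ring
    · simp [hw]
    · intro τ hτ hτ2
      exfalso
      refine D.no_base (τ := τ) ?_ hτ2
      rintro rfl
      rw [hg] at hτ
      apply hc₀
      linear_combination hτ

/-- The point of homogeneous curve data lies on a curve of genus at most one. -/
lemma HData.sab (D : HData κ p G P xs g) (hG : ∀ j, (G j).IsHomogeneous (e j))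
    (hP : P ≠ 0) (hw0 : P (Fin.last N) ≠ 0) :
    Projectivization.mk ℂ P hP ∈
      gmPoints (projectiveSet G) ∪ ellipticPoints (projectiveSet G) := by
  obtain ⟨xs', g', D', hdeg⟩ := D.normalize hw0
  clear D
  have hκp := D'.hκ
  have hcases : (κ = 2 ∧ p = 1) ∨ (κ = 1 ∧ p = 2) := by
    have h1 : κ ∣ 2 := ⟨p, hκp.symm⟩
    rcases (Nat.dvd_prime Nat.prime_two).mp h1 with rfl | rfl
    · right
      omega
    · left
      omega
  rcases hcases with ⟨rfl, rfl⟩ | ⟨rfl, rfl⟩
  · have hg : ∀ t, g'.eval t = g'.coeff 3 * t ^ 3 + g'.coeff 2 * t ^ 2 + g'.coeff 1 * t +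
        g'.coeff 0 := by
      intro t
      rw [Polynomial.eval_eq_sum_range' (n := 4) (lt_of_le_of_lt hdeg (by omega))]
      simp [Finset.sum_range_succ]
      ring
    by_cases h3 : g'.coeff 3 = 0
    · left
      by_cases h2 : g'.coeff 2 = 0
      · exact D'.case_linear hG hP hw0 (g'.coeff 0) (g'.coeff 1)
          (fun t => by rw [hg, h3, h2]; ring)
      · exact D'.case_conic hG hP hw0 (g'.coeff 0) (g'.coeff 1) (g'.coeff 2) h2
          (fun t => by rw [hg, h3]; ring)
    · exact D'.case_cubic hG hP hw0 (g'.coeff 0) (g'.coeff 1) (g'.coeff 2) (g'.coeff 3) h3 hg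
  · have hg : ∀ t, g'.eval t = g'.coeff 2 * t ^ 2 + g'.coeff 1 * t + g'.coeff 0 := by
      intro t
      rw [Polynomial.eval_eq_sum_range' (n := 3) (lt_of_le_of_lt hdeg (by omega))]
      simp [Finset.sum_range_succ]
      ring
    by_cases h2 : g'.coeff 2 = 0
    · left
      exact D'.case_linear hG hP hw0 (g'.coeff 0) (g'.coeff 1)
        (fun t => by rw [hg, h2]; ring)
    · exact D'.case_cyclic hG hP hw0 (g'.coeff 0) (g'.coeff 1) (g'.coeff 2) h2 hg

/-- The line through the centre of the reflection. -/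
lemma gm_of_line (hG : ∀ j, (G j).IsHomogeneous (e j)) (hP : P ≠ 0)
    (hw0 : P (Fin.last N) ≠ 0) {ℓ : Fin N} (hℓ : P ℓ.castSucc ≠ 0)
    (D : CurveData κ p G P xs g) {μ : Polynomial ℂ}
    (hμ : ∀ i, xs i = Polynomial.C (P i.castSucc) * μ) :
    Projectivization.mk ℂ P hP ∈ gmPoints (projectiveSet G) := by
  classical
  have hμ0 : μ.eval 0 = 1 := by
    have h1 := D.x0 ℓ
    rw [hμ, Polynomial.eval_mul, Polynomial.eval_C] at h1
    have h2 : P ℓ.castSucc * μ.eval 0 = P ℓ.castSucc * 1 := by rw [h1, mul_one]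
    exact mul_left_cancel₀ hℓ h2
  have hμne : μ ≠ 0 := by
    rintro rfl
    simp at hμ0
  -- the coordinates of the line
  let A : Fin (N + 1) → Polynomial ℂ :=
    Fin.snoc (fun i => Polynomial.C (P i.castSucc)) Polynomial.X
  have hAz : ∀ z, (fun i => (A i).eval z) =
      (Fin.snoc (fun i => P i.castSucc) z : Fin (N + 1) → ℂ) := by
    intro z
    funext i
    refine Fin.lastCases ?_ (fun i => ?_) i
    · simp only [A, Fin.snoc_last, Polynomial.eval_X]
    · simp only [A, Fin.snoc_castSucc, Polynomial.eval_C]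
  have hGA : ∀ j, aeval A (G j) = 0 := by
    intro j
    by_contra hne
    set h := aeval A (G j) with hh
    have hroot : ∀ t w : ℂ, w ^ (p + 1) = g.eval t → μ.eval t ≠ 0 → h.eval (w / μ.eval t) = 0 := by
      intro t w hw hμt
      have h1 := D.zero j t w hw
      have h2 : (Fin.snoc (fun i => (xs i).eval t) w : Fin (N + 1) → ℂ) =
          μ.eval t • (Fin.snoc (fun i => P i.castSucc) (w / μ.eval t) : Fin (N + 1) → ℂ) := by
        funext i
        rw [Pi.smul_apply, smul_eq_mul]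
        refine Fin.lastCases ?_ (fun i => ?_) i
        · rw [Fin.snoc_last, Fin.snoc_last, mul_div_cancel₀ _ hμt]
        · rw [Fin.snoc_castSucc, Fin.snoc_castSucc, hμ, Polynomial.eval_mul,
            Polynomial.eval_C, mul_comm]
      rw [h2, eval_smul_homogeneous (hG j)] at h1
      have h3 := (mul_eq_zero.mp h1).resolve_left (pow_ne_zero _ hμt)
      rw [hh, eval_aeval, hAz]
      exact h3
    have hprod : μ * ∏ ρ ∈ (h.roots.map (fun x => x ^ (p + 1))).toFinset,
        (g - Polynomial.C ρ * μ ^ (p + 1)) = 0 := by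
      apply Polynomial.funext
      intro t
      rw [Polynomial.eval_zero, Polynomial.eval_mul]
      by_cases hμt : μ.eval t = 0
      · rw [hμt, zero_mul]
      · obtain ⟨w, hw⟩ := exists_root (Nat.succ_ne_zero p) (g.eval t)
        rw [Polynomial.eval_prod, mul_eq_zero]
        right
        rw [Finset.prod_eq_zero_iff]
        refine ⟨(w / μ.eval t) ^ (p + 1), ?_, ?_⟩
        · rw [Multiset.mem_toFinset, Multiset.mem_map]
          refine ⟨w / μ.eval t, ?_, rfl⟩
          rw [Polynomial.mem_roots hne]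
          exact hroot t w hw hμt
        · rw [Polynomial.eval_sub, Polynomial.eval_mul, Polynomial.eval_C, Polynomial.eval_pow,
            div_pow, hw, div_mul_cancel₀ _ (pow_ne_zero _ hμt), sub_self]
    have h1 := (mul_eq_zero.mp hprod).resolve_left hμne
    rw [Finset.prod_eq_zero_iff] at h1
    obtain ⟨ρ, -, hρ⟩ := h1
    have h2 := congrArg (Polynomial.eval 0) hρ
    rw [Polynomial.eval_sub, Polynomial.eval_mul, Polynomial.eval_C, Polynomial.eval_pow, hμ0,
      one_pow, mul_one, Polynomial.eval_zero, D.g0, sub_eq_zero] at h2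
    apply D.nonconst
    refine ⟨μ, hμ, ?_⟩
    rw [h2]
    exact sub_eq_zero.mp hρ
  have hne : ∀ z, (fun i => (A i).eval z) ≠ 0 := by
    intro z h
    apply hℓ
    rw [hAz] at h
    have h1 := congrFun h ℓ.castSucc
    rw [Fin.snoc_castSucc] at h1
    exact h1
  refine ⟨fun z => Projectivization.mk ℂ (fun i => (A i).eval z) (hne z),
    ⟨A, fun z _ => ⟨hne z, rfl⟩⟩, ?_, ⟨1, 2, one_ne_zero, two_ne_zero, ?_⟩,
    P (Fin.last N), hw0, ?_⟩
  · intro z _ j
    rw [vanishesAt_mk (hG j), ← eval_aeval, hGA, Polynomial.eval_zero]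
  · intro h
    have h0 : Projectivization.mk ℂ (fun i => (A i).eval 1) (hne 1) =
        Projectivization.mk ℂ (fun i => (A i).eval 2) (hne 2) := h
    rw [Projectivization.mk_eq_mk_iff'] at h0
    obtain ⟨ν, hν⟩ := h0
    rw [hAz, hAz] at hν
    have h1 := congrFun hν ℓ.castSucc
    have h2 := congrFun hν (Fin.last N)
    rw [Pi.smul_apply, smul_eq_mul, Fin.snoc_castSucc, Fin.snoc_castSucc] at h1
    rw [Pi.smul_apply, smul_eq_mul, Fin.snoc_last, Fin.snoc_last] at h2
    have h3 : ν = 1 := by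
      have h4 : ν * P ℓ.castSucc = 1 * P ℓ.castSucc := by rw [h1, one_mul]
      exact mul_right_cancel₀ hℓ h4
    rw [h3] at h2
    norm_num at h2
  · show Projectivization.mk ℂ (fun i => (A i).eval (P (Fin.last N))) (hne _) = _
    congr 1
    rw [hAz]
    exact snoc_self P

/-- Nonproportional coordinates, or a common factor. -/
lemma np_or {ℓ : Fin N} (hℓ : P ℓ.castSucc ≠ 0) :
    (∃ i ℓ : Fin N, Polynomial.C (P ℓ.castSucc) * xs i ≠
      Polynomial.C (P i.castSucc) * xs ℓ) ∨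
    ∃ μ : Polynomial ℂ, ∀ i, xs i = Polynomial.C (P i.castSucc) * μ := by
  by_cases h : ∃ i ℓ : Fin N, Polynomial.C (P ℓ.castSucc) * xs i ≠
      Polynomial.C (P i.castSucc) * xs ℓ
  · left
    exact h
  · right
    push Not at h
    refine ⟨Polynomial.C (P ℓ.castSucc)⁻¹ * xs ℓ, fun i => ?_⟩
    have h1 := h i ℓ
    calc xs i = Polynomial.C (P ℓ.castSucc)⁻¹ * (Polynomial.C (P ℓ.castSucc) * xs i) := by
          rw [← mul_assoc, ← Polynomial.C_mul, inv_mul_cancel₀ hℓ, Polynomial.C_1, one_mul]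
      _ = _ := by rw [h1]; ring

/-- **Morphisms from `G_m` or an elliptic curve**, for points off the mirror. -/
lemma sab_of_data (hG : ∀ j, (G j).IsHomogeneous (e j)) (hP : P ≠ 0)
    (hw0 : P (Fin.last N) ≠ 0) {ℓ : Fin N} (hℓ : P ℓ.castSucc ≠ 0)
    (D : CurveData κ p G P xs g) :
    Projectivization.mk ℂ P hP ∈
      gmPoints (projectiveSet G) ∪ ellipticPoints (projectiveSet G) := by
  rcases np_or (xs := xs) hℓ with h | ⟨μ, hμ⟩
  · exact (hdata_of_curveData hG D h).sab hG hP hw0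
  · left
    exact gm_of_line hG hP hw0 hℓ D hμ

/-- Rational curves in the mirror. -/
lemma gm_of_zero (hG : ∀ j, (G j).IsHomogeneous (e j)) (hP : P ≠ 0)
    {ℓ : Fin N} (hℓ : P ℓ.castSucc ≠ 0) (D : CurveData κ p G P xs 0) :
    Projectivization.mk ℂ P hP ∈ gmPoints (projectiveSet G) := by
  have hlast : P (Fin.last N) = 0 := by
    have h1 := D.g0
    rw [Polynomial.eval_zero] at h1
    exact pow_eq_zero_iff (Nat.succ_ne_zero p) |>.mp h1.symm
  rcases np_or (xs := xs) hℓ with h | ⟨μ, hμ⟩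
  · refine (hdata_of_curveData hG D h).rat' hG hP Polynomial.X 0 ?_ 0 ?_ ?_ ⟨1, ?_⟩
    · intro z
      rw [Polynomial.eval_zero, Polynomial.eval_zero, zero_pow (Nat.succ_ne_zero p)]
    · simp
    · rw [Polynomial.eval_zero, hlast]
    · simp
  · exfalso
    apply D.nonconst
    refine ⟨μ, hμ, ?_⟩
    rw [hlast, zero_pow (Nat.succ_ne_zero p), Polynomial.C_0, zero_mul]

end

/-- Density of the images of the morphisms from `G_m` and elliptic curves. -/
theorem sab_closure {N c r : ℕ} (hr : 2 ∣ r ∨ 3 ∣ r) {e : Fin c → ℕ}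
    {G : Fin c → MvPolynomial (Fin (N + 1)) ℂ} (hG : ∀ j, (G j).IsHomogeneous (e j))
    (hdvd : ∀ j, ∀ d ∈ (G j).support, r ∣ d (Fin.last N)) (hsum : ∑ j, e j ≤ N + 1)
    (hc : c + 2 ≤ N) :
    (∀ (P : Fin (N + 1) → ℂ) (hP : P ≠ 0), (∀ j, eval P (G j) = 0) → P (Fin.last N) ≠ 0 →
      (∃ ℓ : Fin N, P ℓ.castSucc ≠ 0) →
      Projectivization.mk ℂ P hP ∈
        gmPoints (projectiveSet G) ∪ ellipticPoints (projectiveSet G)) ∧
    SpSabOne (projectiveSet G) = projectiveSet G := by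
  have h1 : ∀ (P : Fin (N + 1) → ℂ) (hP : P ≠ 0), (∀ j, eval P (G j) = 0) →
      P (Fin.last N) ≠ 0 → (∃ ℓ : Fin N, P ℓ.castSucc ≠ 0) →
      Projectivization.mk ℂ P hP ∈
        gmPoints (projectiveSet G) ∪ ellipticPoints (projectiveSet G) := by
    rintro P hP hPG hlast ⟨ℓ, hℓ⟩
    obtain ⟨κ, p, xs, g, -, D⟩ := exists_curveData hr hG hdvd hsum hc hPG hℓ
    exact sab_of_data hG hP hlast hℓ D
  refine ⟨h1, closure_of hr hG hdvd hsum hc h1 ?_⟩
  rintro P hP κ p xs D ⟨ℓ, hℓ⟩
  left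
  exact gm_of_zero hG hP hℓ D

end Pool.Agent.H86.Refl
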